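import Mathlib

/-!
# Classification of parallel polynomial vectors
-/

namespace Pool.Agent.Lib.MP_32acdc_lc

open Polynomial

/-- A fixed enumeration of the finite subsets of `ℕ`. -/
noncomputable def A (n : ℕ) : Finset ℕ := (Denumerable.eqv (Finset ℕ)).symm n

theorem A_inj {n m : ℕ} (h : A n = A m) : n = m :=
  (Denumerable.eqv (Finset ℕ)).symm.injective h

theorem A_surj (E : Finset ℕ) : ∃ n, A n = E := (Denumerable.eqv (Finset ℕ)).symm.surjective E

/-- indicator -/
def ind (E : Finset ℕ) (i : ℕ) : ℚ := if i ∈ E then 1 else 0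

theorem ind_mem {E : Finset ℕ} {i : ℕ} (h : i ∈ E) : ind E i = 1 := if_pos h
theorem ind_not_mem {E : Finset ℕ} {i : ℕ} (h : i ∉ E) : ind E i = 0 := if_neg h

theorem ind_parallel {E F : Finset ℕ} (hE : E.Nonempty) (hF : F.Nonempty)
    (h : ∀ i j, ind E i * ind F j = ind E j * ind F i) : E = F := by
  obtain ⟨i, hi⟩ := hE
  obtain ⟨j, hj⟩ := hF
  have h1 := h i j
  rw [ind_mem hi, ind_mem hj] at h1
  have hjE : j ∈ E := by
    by_contra hc
    rw [ind_not_mem hc] at h1
    norm_num at h1
  ext k
  have h2 := h k j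
  rw [ind_mem hj, ind_mem hjE, mul_one, one_mul] at h2
  by_cases hk : k ∈ E
  · by_cases hk' : k ∈ F
    · simp [hk, hk']
    · rw [ind_mem hk, ind_not_mem hk'] at h2
      norm_num at h2
  · by_cases hk' : k ∈ F
    · rw [ind_not_mem hk, ind_mem hk'] at h2
      norm_num at h2
    · simp [hk, hk']

/-- `P` is a multiple of the indicator of `E`. -/
def ParE {R : Type*} [Zero R] (E : Finset ℕ) (P : ℕ → R) : Prop :=
  (∀ i, i ∉ E → P i = 0) ∧ ∀ i ∈ E, ∀ j ∈ E, P i = P j

theorem parE_of {E : Finset ℕ} (hE : E.Nonempty) (g : ℕ → ℚ)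
    (h : ∀ i j, g i * ind E j = g j * ind E i) : ParE E g := by
  obtain ⟨j, hj⟩ := hE
  refine ⟨fun i hi => ?_, fun i hi k hk => ?_⟩
  · have := h i j
    rw [ind_mem hj, ind_not_mem hi] at this
    simpa using this
  · have := h i k
    rw [ind_mem hi, ind_mem hk] at this
    simpa using this

section

variable (Spec : Finset ℕ → ℕ → Prop)

/-- Rational polynomial vectors whose positive-degree coefficients are multiples of indicators of
special sets. -/
structure PQ (P : ℕ → ℚ[X]) : Prop where
  spec : ∀ n, ∃ b : ℚ, (b ≠ 0 → ∃ c, Spec (A n) c) ∧ ∀ i, (P i).coeff (n + 1) = b * ind (A n) i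
  bdd : ∃ D, ∀ i, (P i).natDegree ≤ D

variable {Spec}

theorem exists_top {P : ℕ → ℚ[X]} (hP : PQ Spec P) (h0 : ∃ i, P i ≠ 0) :
    ∃ d, (∀ i, (P i).natDegree ≤ d) ∧ ∃ i, (P i).coeff d ≠ 0 := by
  classical
  obtain ⟨D, hD⟩ := hP.bdd
  have hex : ∃ d, ∀ i, (P i).natDegree ≤ d := ⟨D, hD⟩
  refine ⟨Nat.find hex, Nat.find_spec hex, ?_⟩
  by_contra hc
  push Not at hc
  rcases hd : Nat.find hex with _ | k
  · obtain ⟨i, hi⟩ := h0
    apply hi
    have h1 := Nat.find_spec hex i
    rw [hd] at h1
    have h2 := hc i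
    rw [hd] at h2
    rw [Polynomial.eq_C_of_natDegree_le_zero h1, h2, C_0]
  · have : ∀ i, (P i).natDegree ≤ k := by
      intro i
      have h1 := Nat.find_spec hex i
      rw [hd] at h1
      have h2 := hc i
      rw [hd] at h2
      rw [natDegree_le_iff_coeff_eq_zero]
      intro N hN
      rcases Nat.lt_or_ge (k+1) N with h | h
      · exact coeff_eq_zero_of_natDegree_lt (lt_of_le_of_lt h1 h)
      · have : N = k + 1 := by omega
        rw [this]; exact h2
    exact absurd this (Nat.find_min hex (by omega))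

theorem top_rel {P Q : ℕ → ℚ[X]} {d e : ℕ} (hd : ∀ i, (P i).natDegree ≤ d)
    (he : ∀ i, (Q i).natDegree ≤ e) (hpar : ∀ i j, P i * Q j = P j * Q i) (i j : ℕ) :
    (P i).coeff d * (Q j).coeff e = (P j).coeff d * (Q i).coeff e := by
  rw [← coeff_mul_add_eq_of_natDegree_le (hd i) (he j),
    ← coeff_mul_add_eq_of_natDegree_le (hd j) (he i), hpar i j]

variable (hne : ∀ E c, Spec E c → E.Nonempty)
include hne

/-- constant vector parallel to the top coefficient -/
theorem const_case {P Q : ℕ → ℚ[X]} {n : ℕ} (hP : PQ Spec P)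
    (hd : ∀ i, (P i).natDegree ≤ n + 1) (hd' : ∃ i, (P i).coeff (n + 1) ≠ 0)
    (he : ∀ i, (Q i).natDegree ≤ 0) (he' : ∃ i, (Q i).coeff 0 ≠ 0)
    (hpar : ∀ i j, P i * Q j = P j * Q i) :
    (∃ c, Spec (A n) c) ∧ ParE (A n) Q ∧ ∀ R : ℕ → ℚ[X], (∀ i j, R i * Q j = R j * Q i) →
      ParE (A n) R := by
  obtain ⟨b, hb, hb'⟩ := hP.spec n
  have hb0 : b ≠ 0 := by
    rintro rfl
    obtain ⟨i, hi⟩ := hd'
    rw [hb' i] at hi
    simp at hi
  obtain ⟨c, hc⟩ := hb hb0
  have hA : (A n).Nonempty := hne _ _ hc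
  have hrel : ∀ i j, (Q i).coeff 0 * ind (A n) j = (Q j).coeff 0 * ind (A n) i := by
    intro i j
    have := top_rel hd he hpar i j
    rw [hb', hb'] at this
    have h2 : b * (ind (A n) i * (Q j).coeff 0) = b * (ind (A n) j * (Q i).coeff 0) := by
      linarith
    have h3 := mul_left_cancel₀ hb0 h2
    linarith
  have hpe := parE_of hA (fun i => (Q i).coeff 0) hrel
  have hpe1 : ∀ i, i ∉ A n → (Q i).coeff 0 = 0 := hpe.1
  have hpe2 : ∀ i ∈ A n, ∀ j ∈ A n, (Q i).coeff 0 = (Q j).coeff 0 := hpe.2
  have hQ : ∀ i, Q i = C ((Q i).coeff 0) := fun i => eq_C_of_natDegree_le_zero (he i)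
  have hparQ : ParE (A n) Q := by
    refine ⟨fun i hi => ?_, fun i hi j hj => ?_⟩
    · rw [hQ i, hpe1 i hi, C_0]
    · rw [hQ i, hpe2 i hi j hj, ← hQ j]
  refine ⟨⟨c, hc⟩, hparQ, fun R hR => ?_⟩
  obtain ⟨k, hk⟩ := he'
  have hkA : k ∈ A n := by
    by_contra h
    exact hk (hpe1 k h)
  have hq : ∀ i ∈ A n, Q i ≠ 0 := by
    intro i hi h0
    apply hk
    rw [hpe2 k hkA i hi, h0, coeff_zero]
  refine ⟨fun i hi => ?_, fun i hi j hj => ?_⟩
  · have := hR i k
    rw [hparQ.1 i hi, mul_zero] at this
    exact (mul_eq_zero.1 this).resolve_right (hq k hkA)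
  · have := hR i j
    rw [hparQ.2 i hi j hj] at this
    exact mul_right_cancel₀ (hq j hj) this

/-- The classification: two parallel vectors are either proportional over `ℚ` or both are multiples
of the indicator of a special set. -/
theorem classify {P Q : ℕ → ℚ[X]} (hP : PQ Spec P) (hQ : PQ Spec Q) (hP0 : ∃ i, P i ≠ 0)
    (hQ0 : ∃ i, Q i ≠ 0) (hpar : ∀ i j, P i * Q j = P j * Q i) :
    (∃ u v : ℚ, u ≠ 0 ∧ v ≠ 0 ∧ ∀ i, C u * P i = C v * Q i) ∨
    (∃ E c, Spec E c ∧ ParE E P ∧ ParE E Q) := by
  obtain ⟨d, hd, hd'⟩ := exists_top hP hP0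
  obtain ⟨e, he, he'⟩ := exists_top hQ hQ0
  rcases d with _ | n
  · rcases e with _ | m
    · left
      obtain ⟨i, hi⟩ := hd'
      have hPc : ∀ i, P i = C ((P i).coeff 0) := fun i => eq_C_of_natDegree_le_zero (hd i)
      have hQc : ∀ i, Q i = C ((Q i).coeff 0) := fun i => eq_C_of_natDegree_le_zero (he i)
      have hrel := top_rel hd he hpar
      refine ⟨(Q i).coeff 0, (P i).coeff 0, ?_, hi, ?_⟩
      · intro h0
        obtain ⟨j, hj⟩ := he'
        have := hrel i j
        rw [h0, mul_zero] at this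
        rcases mul_eq_zero.1 this with h | h
        · exact hi h
        · exact hj h
      · intro j
        rw [hPc j, hQc j, ← C_mul, ← C_mul]
        congr 1
        have := hrel i j
        linarith
    · right
      obtain ⟨⟨c, hc⟩, h1, h2⟩ := const_case hne hQ he he' hd hd'
        (fun i j => by rw [mul_comm, hpar j i, mul_comm])
      exact ⟨_, c, hc, h1, h2 Q (fun i j => by rw [mul_comm, hpar j i, mul_comm])⟩
  · rcases e with _ | m
    · right
      obtain ⟨⟨c, hc⟩, h1, h2⟩ := const_case hne hP hd hd' he he' hpar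
      exact ⟨_, c, hc, h2 P hpar, h1⟩
    · obtain ⟨b, hb, hb'⟩ := hP.spec n
      obtain ⟨b2, hb2, hb2'⟩ := hQ.spec m
      have hb0 : b ≠ 0 := by
        rintro rfl
        obtain ⟨i, hi⟩ := hd'
        rw [hb' i] at hi
        simp at hi
      have hb20 : b2 ≠ 0 := by
        rintro rfl
        obtain ⟨i, hi⟩ := he'
        rw [hb2' i] at hi
        simp at hi
      obtain ⟨c, hc⟩ := hb hb0
      obtain ⟨c2, hc2⟩ := hb2 hb20
      have hrel := top_rel hd he hpar
      have hAA : A n = A m := by
        apply ind_parallel (hne _ _ hc) (hne _ _ hc2)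
        intro i j
        have := hrel i j
        rw [hb', hb', hb2', hb2'] at this
        have h2 : (b * b2) * (ind (A n) i * ind (A m) j) =
            (b * b2) * (ind (A n) j * ind (A m) i) := by linarith
        exact mul_left_cancel₀ (mul_ne_zero hb0 hb20) h2
      have hnm := A_inj hAA
      subst hnm
      set γ : ℕ → ℚ[X] := fun i => C b2 * P i - C b * Q i with hγ
      have hγPQ : PQ Spec γ := by
        refine ⟨fun k => ?_, ?_⟩
        · obtain ⟨x, hx, hx'⟩ := hP.spec k
          obtain ⟨y, hy, hy'⟩ := hQ.spec k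
          refine ⟨b2 * x - b * y, fun h => ?_, fun i => ?_⟩
          · by_cases hx0 : x = 0
            · apply hy
              rintro rfl
              apply h; rw [hx0]; ring
            · exact hx hx0
          · simp only [hγ, coeff_sub, coeff_C_mul]
            rw [hx', hy']; ring
        · refine ⟨n + 1, fun i => ?_⟩
          apply (natDegree_sub_le _ _).trans
          apply max_le
          · exact (natDegree_C_mul_le _ _).trans (hd i)
          · exact (natDegree_C_mul_le _ _).trans (he i)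
      have hγP : ∀ i j, P i * γ j = P j * γ i := by
        intro i j
        simp only [hγ]
        have := hpar i j
        linear_combination (-(C b)) * this
      have hγQ : ∀ i j, Q i * γ j = Q j * γ i := by
        intro i j
        simp only [hγ]
        have := hpar i j
        linear_combination (-(C b2)) * this
      by_cases hγ0 : ∃ i, γ i ≠ 0
      · obtain ⟨f, hf, hf'⟩ := exists_top hγPQ hγ0
        rcases f with _ | k
        · right
          obtain ⟨⟨c, hc⟩, h1, h2⟩ := const_case hne hP hd hd' hf hf' hγP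
          exact ⟨_, c, hc, h2 P hγP, h2 Q hγQ⟩
        · exfalso
          obtain ⟨x, hx, hx'⟩ := hγPQ.spec k
          have hx0 : x ≠ 0 := by
            rintro rfl
            obtain ⟨i, hi⟩ := hf'
            rw [hx' i] at hi
            simp at hi
          obtain ⟨c3, hc3⟩ := hx hx0
          have hrel2 := top_rel hd hf hγP
          have hAk : A n = A k := by
            apply ind_parallel (hne _ _ hc) (hne _ _ hc3)
            intro i j
            have := hrel2 i j
            rw [hb', hb', hx', hx'] at this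
            have h2 : (b * x) * (ind (A n) i * ind (A k) j) =
                (b * x) * (ind (A n) j * ind (A k) i) := by linarith
            exact mul_left_cancel₀ (mul_ne_zero hb0 hx0) h2
          have hnk := A_inj hAk
          subst hnk
          obtain ⟨i, hi⟩ := hf'
          apply hi
          simp only [hγ, coeff_sub, coeff_C_mul]
          rw [hb', hb2']; ring
      · push Not at hγ0
        left
        refine ⟨b2, b, hb20, hb0, fun i => ?_⟩
        have := hγ0 i
        simp only [hγ] at this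
        exact sub_eq_zero.1 this

end

end Pool.Agent.Lib.MP_32acdc_lc
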