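import Mathlib

/-!
# Centralizers in free groups are cyclic
-/

namespace Pool.Agent.Lib.MP_32acdc_lc

open FreeGroup

section

variable {α : Type*}

theorem gen_pow_of_bool (a : α) (b : Bool) : ∃ n : ℤ, (mk [(a, b)] : FreeGroup α) = (of a) ^ n := by
  cases b
  · refine ⟨-1, ?_⟩
    rw [zpow_neg_one, of, inv_mk]; rfl
  · exact ⟨1, by rw [zpow_one]; rfl⟩

variable [DecidableEq α]

theorem commute_of_aux (a : α) : ∀ (k : ℕ) (g : FreeGroup α), FreeGroup.norm g ≤ k →
    Commute g (of a) → ∃ n : ℤ, g = (of a) ^ n := by
  intro k
  induction k with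
  | zero =>
    intro g hg _
    have : FreeGroup.norm g = 0 := by omega
    rw [FreeGroup.norm_eq_zero] at this
    exact ⟨0, by simp [this]⟩
  | succ k ih =>
    intro g hg hc
    rcases hw : g.toWord with _ | ⟨⟨x, b⟩, w⟩
    · rw [toWord_eq_nil_iff] at hw
      exact ⟨0, by simp [hw]⟩
    · have hgw : g = mk [(x, b)] * mk w := by
        rw [mul_mk, List.singleton_append, ← hw, mk_toWord]
      have hred : IsReduced ((x, b) :: w) := by rw [← hw]; exact isReduced_toWord
      by_cases hx : x = a
      · subst hx
        obtain ⟨n, hn⟩ := gen_pow_of_bool x b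
        have hc' : Commute (mk w) (of x) := by
          have e : mk w = ((of x) ^ n)⁻¹ * g := by rw [hgw, hn]; group
          rw [e]
          apply Commute.mul_left _ hc
          exact ((Commute.refl (of x)).zpow_left n).inv_left
        have hl : FreeGroup.norm (mk w) ≤ k := by
          have h1 : FreeGroup.norm g = w.length + 1 := by
            unfold FreeGroup.norm; rw [hw]; rfl
          have h2 := FreeGroup.norm_mk_le (L₁ := w)
          omega
        obtain ⟨m, hm⟩ := ih _ hl hc'
        exact ⟨n + m, by rw [hgw, hn, hm, zpow_add]⟩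
      · -- look at the last letter
        have hne : ((x, b) :: w) ≠ [] := by simp
        obtain ⟨w', ⟨y, c⟩, hw'⟩ : ∃ w' l, ((x, b) :: w) = w' ++ [l] :=
          ⟨_, _, (List.dropLast_append_getLast hne).symm⟩
        have hgw' : g = mk w' * mk [(y, c)] := by
          rw [mul_mk, ← hw', ← hw, mk_toWord]
        by_cases hy : y = a
        · subst hy
          obtain ⟨n, hn⟩ := gen_pow_of_bool y c
          have hc' : Commute (mk w') (of y) := by
            have e : mk w' = g * ((of y) ^ n)⁻¹ := by rw [hgw', hn]; group
            rw [e]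
            apply Commute.mul_left hc
            exact ((Commute.refl (of y)).zpow_left n).inv_left
          have hl : FreeGroup.norm (mk w') ≤ k := by
            have h1 : FreeGroup.norm g = w'.length + 1 := by
              unfold FreeGroup.norm; rw [hw, hw']; simp
            have h2 := FreeGroup.norm_mk_le (L₁ := w')
            omega
          obtain ⟨m, hm⟩ := ih _ hl hc'
          exact ⟨m + n, by rw [hgw', hn, hm, zpow_add]⟩
        · exfalso
          -- (of a) * g * (of a)⁻¹ has a longer reduced word
          have h1 : IsReduced ((a, true) :: (x, b) :: w) := by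
            rw [isReduced_cons_cons]
            exact ⟨fun h => absurd h.symm hx, hred⟩
          have h2 : IsReduced (((x, b) :: w) ++ [(a, false)]) := by
            rw [hw']
            have h3 : IsReduced ([(y, c)] ++ [(a, false)]) := by
              rw [List.singleton_append, isReduced_cons_cons]
              exact ⟨fun h => absurd h hy, IsReduced.singleton⟩
            have h4 : IsReduced (w' ++ [(y, c)]) := by rw [← hw']; exact hred
            exact h4.append_overlap h3 (by simp)
          have h5 : IsReduced ([(a, true)] ++ ((x, b) :: w) ++ [(a, false)]) :=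
            IsReduced.append_overlap (by simpa using h1) h2 (by simp)
          have h6 : g = mk ([(a, true)] ++ ((x, b) :: w) ++ [(a, false)]) := by
            rw [← mul_mk, ← mul_mk, ← hw, mk_toWord]
            have : (mk [(a, false)] : FreeGroup α) = (of a)⁻¹ := by rw [of, inv_mk]; rfl
            rw [this]
            change g = of a * g * (of a)⁻¹
            rw [← hc.eq]; group
          have h7 : g.toWord = [(a, true)] ++ ((x, b) :: w) ++ [(a, false)] := by
            rw [h6, toWord_mk, isReduced_iff_reduce_eq.1 h5]
          rw [hw] at h7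
          have := congrArg List.length h7
          simp at this

theorem commute_of (a : α) (g : FreeGroup α) (h : Commute g (of a)) :
    ∃ n : ℤ, g = (of a) ^ n := commute_of_aux a _ g le_rfl h

theorem center_trivial {a b : α} (hab : a ≠ b) (g : FreeGroup α) (h1 : Commute g (of a))
    (h2 : Commute g (of b)) : g = 1 := by
  obtain ⟨n, hn⟩ := commute_of a g h1
  obtain ⟨m, hm⟩ := commute_of b g h2
  let φ : FreeGroup α →* Multiplicative ℤ :=
    FreeGroup.lift (fun i => if i = a then Multiplicative.ofAdd 1 else 1)
  have e1 : φ g = Multiplicative.ofAdd n := by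
    rw [hn, map_zpow, FreeGroup.lift_apply_of, if_pos rfl, ← ofAdd_zsmul]; simp
  have e2 : φ g = 1 := by
    rw [hm, map_zpow, FreeGroup.lift_apply_of, if_neg (Ne.symm hab), one_zpow]
  rw [e1] at e2
  have : n = 0 := by simpa using e2
  rw [hn, this, zpow_zero]

end

theorem freeGroup_subsingleton {S : Type*} (a : S) (hS : ∀ b : S, b = a) (g : FreeGroup S) :
    ∃ n : ℤ, g = (of a) ^ n := by
  induction g using FreeGroup.induction_on with
  | C1 => exact ⟨0, by simp⟩
  | of x => exact ⟨1, by rw [hS x, zpow_one]⟩
  | inv_of x _ => exact ⟨-1, by rw [hS x, zpow_neg_one]⟩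
  | mul x y hx hy =>
    obtain ⟨n, rfl⟩ := hx
    obtain ⟨m, rfl⟩ := hy
    exact ⟨n + m, by rw [zpow_add]⟩

/-- Centralizers of nontrivial elements of a free group are cyclic. -/
theorem free_centralizer {α : Type*} (g : FreeGroup α) (hg : g ≠ 1) :
    ∃ r : FreeGroup α, ∀ h, Commute g h ↔ ∃ n : ℤ, h = r ^ n := by
  classical
  let C : Subgroup (FreeGroup α) := Subgroup.centralizer {g}
  have hC : ∀ h, h ∈ C ↔ Commute g h := by
    intro h
    rw [Subgroup.mem_centralizer_singleton_iff]
    exact ⟨fun e => e.symm, fun e => e.symm⟩
  have hgC : g ∈ C := (hC g).2 (Commute.refl g)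
  let e := IsFreeGroup.toFreeGroup C
  let g' : FreeGroup (IsFreeGroup.Generators C) := e ⟨g, hgC⟩
  have hg' : g' ≠ 1 := by
    intro h
    apply hg
    have : (⟨g, hgC⟩ : C) = 1 := by
      apply e.injective
      exact h.trans (_root_.map_one e).symm
    exact congrArg Subtype.val this
  have hcomm : ∀ x, Commute g' x := by
    intro x
    obtain ⟨y, rfl⟩ := e.surjective x
    have : Commute (⟨g, hgC⟩ : C) y := by
      apply Subtype.ext
      exact (hC y.1).1 y.2
    exact this.map e
  have hne : Nonempty (IsFreeGroup.Generators C) := by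
    by_contra hempty
    rw [not_nonempty_iff] at hempty
    exact hg' (Subsingleton.elim _ _)
  obtain ⟨a⟩ := hne
  have hS : ∀ b, b = a := by
    intro b
    by_contra hba
    exact hg' (center_trivial hba g' (hcomm _) (hcomm _))
  refine ⟨(e.symm (of a) : C), fun h => ?_⟩
  constructor
  · intro hh
    obtain ⟨n, hn⟩ := freeGroup_subsingleton a hS (e ⟨h, (hC h).2 hh⟩)
    refine ⟨n, ?_⟩
    have h1 : (⟨h, (hC h).2 hh⟩ : C) = (e.symm (of a)) ^ n := by
      apply e.injective
      rw [map_zpow, MulEquiv.apply_symm_apply, hn]
    have := congrArg Subtype.val h1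
    simpa using this
  · rintro ⟨n, rfl⟩
    exact ((hC _).1 (e.symm (of a)).2).zpow_right n

end Pool.Agent.Lib.MP_32acdc_lc
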