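import Mathlib

/-!
# Definitions used in the statement of the undecidability theorem

Λ-trees, free actions, first-order formulas of the language of groups, their satisfaction,
their Gödel numbers, and the elementary theory of the class of all groups that act freely on
some Λ-tree.
-/

namespace Pool.Agent.Lib.MP_32acdc_lc

universe u

section Trees

variable {Λ X : Type*} [AddCommGroup Λ] [LinearOrder Λ]

/-- `d` is a `Λ`-valued metric on `X`. -/
structure IsLMetric (d : X → X → Λ) : Prop where
  nonneg : ∀ x y, 0 ≤ d x y
  eq_zero_iff : ∀ x y, d x y = 0 ↔ x = y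
  symm : ∀ x y, d x y = d y x
  triangle : ∀ x y z, d x z ≤ d x y + d y z

/-- `S` is a segment with endpoints `x` and `y`: the image of a closed interval `[a,b]` of `Λ`
under an isometric embedding `α` with `α a = x` and `α b = y`. -/
def IsSegment (d : X → X → Λ) (S : Set X) (x y : X) : Prop :=
  ∃ (a b : Λ) (α : Λ → X), a ≤ b ∧
    (∀ s ∈ Set.Icc a b, ∀ t ∈ Set.Icc a b, d (α s) (α t) = |s - t|) ∧
    S = α '' Set.Icc a b ∧ α a = x ∧ α b = y

/-- `(X,d)` is a `Λ`-tree: a `Λ`-metric space in which any two points are the endpoints of a
segment, the intersection of two segments with a common endpoint is a segment, and the union of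
two segments that meet only in a common endpoint is a segment. -/
structure IsLTree (d : X → X → Λ) : Prop where
  metric : IsLMetric d
  joined : ∀ x y, ∃ S, IsSegment d S x y
  inter : ∀ S T x y z, IsSegment d S x y → IsSegment d T x z →
    ∃ u v, IsSegment d (S ∩ T) u v
  union : ∀ S T x y z, IsSegment d S x y → IsSegment d T x z → S ∩ T = {x} →
    ∃ u v, IsSegment d (S ∪ T) u v

end Trees

/-- The group `G` acts freely on some (non-empty) `Λ`-tree, for some ordered abelian group `Λ`:
it acts by isometries and for `g ≠ 1` neither `g` nor `g²` fixes a point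
(no fixed points and no inversions, i.e. every `g ≠ 1` is hyperbolic). -/
def TreeFree (G : Type u) [Group G] : Prop :=
  ∃ (Λ : Type u) (_ : AddCommGroup Λ) (_ : LinearOrder Λ) (_ : IsOrderedAddMonoid Λ)
    (X : Type u) (_ : MulAction G X) (d : X → X → Λ),
    Nonempty X ∧ IsLTree d ∧ (∀ (g : G) (x y : X), d (g • x) (g • y) = d x y) ∧
    ∀ g : G, g ≠ 1 → ∀ x : X, g • x ≠ x ∧ g • g • x ≠ x

/-- Terms of the language of groups (multiplication, inverse, identity) in the variables
`x_0, x_1, …`. -/
inductive Tm : Type
  | var (n : ℕ) : Tm
  | one : Tm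
  | inv (t : Tm) : Tm
  | mul (s t : Tm) : Tm

/-- First-order formulas of the language of groups: equations between terms, negation,
conjunction, and universal quantification `all n φ` over the variable `x_n`. -/
inductive Fm : Type
  | eq (s t : Tm) : Fm
  | neg (φ : Fm) : Fm
  | conj (φ ψ : Fm) : Fm
  | all (n : ℕ) (φ : Fm) : Fm

namespace Tm

/-- value of a term in a group under an assignment -/
def eval {G : Type*} [Group G] (v : ℕ → G) : Tm → G
  | var n => v n
  | one => 1
  | inv t => (eval v t)⁻¹
  | mul s t => eval v s * eval v t

/-- variables of a term -/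
def vars : Tm → Set ℕ
  | var n => {n}
  | one => ∅
  | inv t => vars t
  | mul s t => vars s ∪ vars t

/-- Gödel number of a term -/
def code : Tm → ℕ
  | var n => 4 * n
  | one => 1
  | inv t => 4 * code t + 2
  | mul s t => 4 * Nat.pair (code s) (code t) + 3

end Tm

namespace Fm

/-- satisfaction of a formula in a group under an assignment -/
def Sat {G : Type*} [Group G] : (ℕ → G) → Fm → Prop
  | v, eq s t => s.eval v = t.eval v
  | v, neg φ => ¬ Sat v φ
  | v, conj φ ψ => Sat v φ ∧ Sat v ψ
  | v, all n φ => ∀ g : G, Sat (Function.update v n g) φ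

/-- free variables of a formula -/
def free : Fm → Set ℕ
  | eq s t => s.vars ∪ t.vars
  | neg φ => free φ
  | conj φ ψ => free φ ∪ free ψ
  | all n φ => free φ \ {n}

/-- Gödel number of a formula -/
def code : Fm → ℕ
  | eq s t => 4 * Nat.pair s.code t.code
  | neg φ => 4 * code φ + 1
  | conj φ ψ => 4 * Nat.pair (code φ) (code ψ) + 2
  | all n φ => 4 * Nat.pair n (code φ) + 3

end Fm

/-- The elementary theory of the class of all groups that act freely on some `Λ`-tree: the
sentences (formulas without free variables) that hold in every such group. -/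
def ThK : Set Fm :=
  {φ | φ.free = ∅ ∧ ∀ (G : Type u) [Group G], TreeFree G → ∀ v : ℕ → G, φ.Sat v}

end Pool.Agent.Lib.MP_32acdc_lc
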