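import Mathlib
import Pool.Agent.Lib.MP_32acdc_lc.Defs

/-!
# A criterion for Λ-trees
-/

namespace Pool.Agent.Lib.MP_32acdc_lc

section Geo

variable {Λ X : Type*} [AddCommGroup Λ] [LinearOrder Λ] [IsOrderedAddMonoid Λ]

/-- First-order criterion for being a `Λ`-tree. -/
structure IsGeoHyp (d : X → X → Λ) : Prop where
  metric : IsLMetric d
  geo : ∀ x y t, 0 ≤ t → t ≤ d x y → ∃ z, d x z = t ∧ d z y = d x y - t
  hyp : ∀ x y z w, d x y + d z w ≤ d x z + d y w ∨ d x y + d z w ≤ d x w + d y z
  par : ∀ x y z, ∃ c, d x y + d x z - d y z = c + c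

variable {d : X → X → Λ}

namespace IsGeoHyp

variable (H : IsGeoHyp d)
include H

/-- uniqueness of points on geodesics -/
theorem uniq {x y z w : X} (hz : d x z + d z y = d x y) (hw : d x w + d w y = d x y)
    (h : d x z = d x w) : z = w := by
  have hzy : d z y = d w y := by
    have : d x z + d z y = d x w + d w y := by rw [hz, hw]
    rw [h] at this
    exact add_left_cancel this
  rw [← H.metric.eq_zero_iff]
  apply le_antisymm _ (H.metric.nonneg _ _)
  have h1 := H.hyp x y z w
  have e1 : d x z + d y w = d x y := by rw [H.metric.symm y w, ← hzy]; exact hz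
  have e2 : d x w + d y z = d x y := by rw [H.metric.symm y z, hzy]; exact hw
  rw [e1, e2] at h1
  have h2 : d x y + d z w ≤ d x y := by tauto
  simpa using h2

/-- distance between two points on a geodesic -/
theorem dist_on {x y z w : X} (hz : d x z + d z y = d x y) (hw : d x w + d w y = d x y)
    (h : d x z ≤ d x w) : d z w = d x w - d x z := by
  apply le_antisymm
  · have h1 := H.hyp x y z w
    have e1 : d x z + d y w = d x y - (d x w - d x z) := by
      rw [H.metric.symm y w, ← hw]; abel
    have e2 : d x w + d y z = d x y + (d x w - d x z) := by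
      rw [H.metric.symm y z, ← hz]; abel
    rw [e1, e2] at h1
    have h0 : 0 ≤ d x w - d x z := sub_nonneg.2 h
    rcases h1 with h1 | h1
    · have : d z w ≤ -(d x w - d x z) := by
        have := h1
        rw [sub_eq_add_neg] at this
        exact le_of_add_le_add_left this
      exact this.trans (neg_le_self h0)
    · exact le_of_add_le_add_left h1
  · have := H.metric.triangle x z w
    rw [sub_le_iff_le_add']
    exact this

theorem segment_iff {S : Set X} {x y : X} :
    IsSegment d S x y ↔ S = {z | d x z + d z y = d x y} := by
  constructor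
  · rintro ⟨a, b, α, hab, hiso, rfl, rfl, rfl⟩
    have hxy : d (α a) (α b) = b - a := by
      rw [hiso a ⟨le_rfl, hab⟩ b ⟨hab, le_rfl⟩, abs_sub_comm, abs_of_nonneg (sub_nonneg.2 hab)]
    ext z
    simp only [Set.mem_image, Set.mem_ofPred_eq]
    have key : ∀ t ∈ Set.Icc a b, d (α a) (α t) = t - a ∧ d (α t) (α b) = b - t := by
      intro t ht
      rw [hiso a ⟨le_rfl, hab⟩ t ht, hiso t ht b ⟨hab, le_rfl⟩, abs_sub_comm a t,
        abs_of_nonneg (sub_nonneg.2 ht.1), abs_sub_comm t b, abs_of_nonneg (sub_nonneg.2 ht.2)]
      exact ⟨rfl, rfl⟩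
    constructor
    · rintro ⟨t, ht, rfl⟩
      rw [(key t ht).1, (key t ht).2, hxy]; abel
    · intro hz
      have ht : a + d (α a) z ∈ Set.Icc a b := by
        refine ⟨by simpa using H.metric.nonneg _ _, ?_⟩
        have : d (α a) z ≤ b - a := by
          rw [← hxy, ← hz]
          simpa using H.metric.nonneg z (α b)
        rw [add_comm]; exact le_sub_iff_add_le.1 this
      refine ⟨_, ht, ?_⟩
      apply H.uniq (x := α a) (y := α b) _ hz
      · rw [(key _ ht).1]; abel
      · rw [(key _ ht).1, (key _ ht).2, hxy]; abel
  · rintro rfl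
    have hex : ∀ t : Λ, ∃ z, t ∈ Set.Icc 0 (d x y) → d x z = t ∧ d z y = d x y - t := by
      intro t
      by_cases ht : t ∈ Set.Icc 0 (d x y)
      · obtain ⟨z, hz⟩ := H.geo x y t ht.1 ht.2
        exact ⟨z, fun _ => hz⟩
      · exact ⟨x, fun h => absurd h ht⟩
    choose α hα using hex
    have h0 : (0:Λ) ≤ d x y := H.metric.nonneg _ _
    have hmem : ∀ t ∈ Set.Icc 0 (d x y), d x (α t) + d (α t) y = d x y := by
      intro t ht
      rw [(hα t ht).1, (hα t ht).2]; abel
    refine ⟨0, d x y, α, h0, ?_, ?_, ?_, ?_⟩
    · have main : ∀ s ∈ Set.Icc 0 (d x y), ∀ t ∈ Set.Icc 0 (d x y), s ≤ t →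
          d (α s) (α t) = |s - t| := by
        intro s hs t ht hst
        rw [H.dist_on (hmem s hs) (hmem t ht) (by rw [(hα s hs).1, (hα t ht).1]; exact hst),
          (hα s hs).1, (hα t ht).1, abs_sub_comm, abs_of_nonneg (sub_nonneg.2 hst)]
      intro s hs t ht
      rcases le_total s t with h | h
      · exact main s hs t ht h
      · rw [H.metric.symm, main t ht s hs h, abs_sub_comm]
    · ext z
      simp only [Set.mem_image, Set.mem_ofPred_eq]
      constructor
      · intro hz
        have ht : d x z ∈ Set.Icc 0 (d x y) := by
          refine ⟨H.metric.nonneg _ _, ?_⟩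
          rw [← hz]; simpa using H.metric.nonneg z y
        exact ⟨_, ht, H.uniq (hmem _ ht) hz (hα _ ht).1⟩
      · rintro ⟨t, ht, rfl⟩
        exact hmem t ht
    · have := (hα 0 ⟨le_rfl, h0⟩).1
      rw [H.metric.eq_zero_iff] at this
      exact this.symm
    · have := (hα (d x y) ⟨h0, le_rfl⟩).2
      rw [sub_self, H.metric.eq_zero_iff] at this
      exact this

/-- the median -/
theorem median (x y z : X) : ∃ m c, c + c = d x y + d x z - d y z ∧ d x m = c ∧
    d x m + d m y = d x y ∧ d x m + d m z = d x z ∧ d y m + d m z = d y z := by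
  obtain ⟨c, hc⟩ := H.par x y z
  have tri1 : d y z ≤ d x y + d x z := by
    rw [H.metric.symm x y]; exact H.metric.triangle y x z
  have hc0 : 0 ≤ c := by
    by_contra h
    push Not at h
    have : c + c < 0 := add_neg h h
    rw [← hc] at this
    exact absurd (sub_nonneg.2 tri1) (not_le.2 this)
  have hcy : c ≤ d x y := by
    by_contra h
    push Not at h
    have h2 : d x y + d x y < c + c := add_lt_add h h
    rw [← hc] at h2
    have := H.metric.triangle x y z
    have h3 : d x z - d y z ≤ d x y := by rwa [sub_le_iff_le_add]
    have h4 : d x y + d x z - d y z ≤ d x y + d x y := by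
      rw [add_sub_assoc]; exact add_le_add_right h3 _
    exact absurd h4 (not_le.2 h2)
  obtain ⟨m, hm1, hm2⟩ := H.geo x y c hc0 hcy
  have hyz : d y z = d x y + d x z - (c + c) := by rw [← hc]; abel
  -- d m z ≤ d x z - c
  have hmz : d m z ≤ d x z - c := by
    have h1 := H.hyp m z x y
    have e1 : d m x + d z y = d x y + (d x z - c) := by
      rw [H.metric.symm m x, H.metric.symm z y, hm1, hyz]; abel
    have e2 : d m y + d z x = d x y + (d x z - c) := by
      rw [hm2, H.metric.symm z x]; abel
    rw [e1, e2] at h1
    have h2 : d m z + d x y ≤ d x y + (d x z - c) := by tauto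
    rw [add_comm (d m z)] at h2
    exact le_of_add_le_add_left h2
  have hmz' : d m z = d x z - c := by
    apply le_antisymm hmz
    rw [sub_le_iff_le_add', ← hm1]
    exact H.metric.triangle x m z
  refine ⟨m, c, hc.symm, hm1, ?_, ?_, ?_⟩
  · rw [hm1, hm2]; abel
  · rw [hm1, hmz']; abel
  · rw [H.metric.symm y m, hm2, hmz', hyz]; abel

theorem isLTree : IsLTree d where
  metric := H.metric
  joined x y := ⟨_, H.segment_iff.2 rfl⟩
  inter := by
    intro S T x y z hS hT
    rw [H.segment_iff] at hS hT
    subst hS hT
    obtain ⟨m, c, hc, hm, hmy, hmz, hyz⟩ := H.median x y z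
    refine ⟨x, m, H.segment_iff.2 ?_⟩
    ext w
    simp only [Set.mem_inter_iff, Set.mem_ofPred_eq]
    constructor
    · rintro ⟨h1, h2⟩
      have hwc : d x w ≤ d x m := by
        by_contra h
        push Not at h
        have e : (d x w + d x w) + (d w y + d w z) = d x y + d x z := by
          rw [← h1, ← h2]; abel
        have t := H.metric.triangle y w z
        have t' : d y z < (d w y + d w z) + ((d x w + d x w) - (c + c)) := by
          have : d y z ≤ d w y + d w z := by rw [H.metric.symm w y]; exact t
          refine lt_of_le_of_lt this ?_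
          have : (0:Λ) < (d x w + d x w) - (c + c) := by
            rw [sub_pos, ← hm]; exact add_lt_add h h
          simpa using this
        have : (d w y + d w z) + ((d x w + d x w) - (c + c)) = d y z := by
          rw [hc]
          have : d w y + d w z + (d x w + d x w - (d x y + d x z - d y z)) =
            ((d x w + d x w) + (d w y + d w z)) - (d x y + d x z) + d y z := by abel
          rw [this, e]; abel
        rw [this] at t'
        exact lt_irrefl _ t'
      rw [H.dist_on h1 hmy hwc]; abel
    · intro hw
      have key : ∀ y, d x m + d m y = d x y → d x w + d w y = d x y := by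
        intro y hy
        apply le_antisymm _ (H.metric.triangle _ _ _)
        calc d x w + d w y ≤ d x w + (d w m + d m y) := by
              have := H.metric.triangle w m y
              gcongr
          _ = d x y := by rw [← add_assoc, hw, hy]
      exact ⟨key y hmy, key z hmz⟩
  union := by
    intro S T x y z hS hT hST
    rw [H.segment_iff] at hS hT
    subst hS hT
    obtain ⟨m, c, hc, hm, hmy, hmz, hyz⟩ := H.median x y z
    have hmx : m = x := by
      have : m ∈ ({x} : Set X) := by
        rw [← hST]; exact ⟨hmy, hmz⟩
      simpa using this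
    subst hmx
    refine ⟨y, z, H.segment_iff.2 ?_⟩
    ext w
    simp only [Set.mem_union, Set.mem_ofPred_eq]
    have hz : d y m + d m z = d y z := hyz
    constructor
    · rintro (h | h)
      · apply le_antisymm _ (H.metric.triangle _ _ _)
        have e : d y w + d w m = d y m := by
          rw [H.metric.symm y w, H.metric.symm w m, add_comm, h, H.metric.symm]
        calc d y w + d w z ≤ d y w + (d w m + d m z) := by
              have := H.metric.triangle w m z
              gcongr
          _ = d y z := by rw [← add_assoc, e, hz]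
      · apply le_antisymm _ (H.metric.triangle _ _ _)
        calc d y w + d w z ≤ (d y m + d m w) + d w z := by
              have := H.metric.triangle y m w
              gcongr
          _ = d y z := by rw [add_assoc, h, hz]
    · intro hw
      rcases le_total (d y w) (d y m) with h | h
      · left
        have := H.dist_on hw hz h
        rw [H.metric.symm m w, this, H.metric.symm w y, H.metric.symm m y]; abel
      · right
        have := H.dist_on hz hw h
        rw [this]
        have e1 : d m z = d y z - d y m := by rw [← hz]; abel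
        have e2 : d w z = d y z - d y w := by rw [← hw]; abel
        rw [e1, e2]; abel

end IsGeoHyp

end Geo

end Pool.Agent.Lib.MP_32acdc_lc
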