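import Mathlib
import Pool.Agent.Lib.MP_32acdc_lc.Tree

/-!
# The word metric on a free group is a tree metric
-/

namespace Pool.Agent.Lib.MP_32acdc_lc

open FreeGroup

section Lcp

variable {β : Type*} [DecidableEq β]

/-- length of the longest common initial part of two lists -/
def lcp : List β → List β → ℕ
  | [], _ => 0
  | _ :: _, [] => 0
  | a :: l, b :: m => if a = b then lcp l m + 1 else 0

@[simp] theorem lcp_nil_left (l : List β) : lcp [] l = 0 := by cases l <;> rfl
@[simp] theorem lcp_nil_right (l : List β) : lcp l [] = 0 := by cases l <;> rfl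
theorem lcp_cons (a b : β) (l m : List β) :
    lcp (a :: l) (b :: m) = if a = b then lcp l m + 1 else 0 := rfl

theorem lcp_comm : ∀ l m : List β, lcp l m = lcp m l
  | [], _ => by simp
  | _ :: _, [] => by simp
  | a :: l, b :: m => by
    rw [lcp_cons, lcp_cons, lcp_comm l m]
    by_cases h : a = b
    · simp [h]
    · rw [if_neg h, if_neg (Ne.symm h)]

theorem lcp_ultra : ∀ a b c : List β, lcp a b ≤ lcp b c ∨ lcp a c ≤ lcp b c
  | [], b, c => by simp
  | _ :: _, [], _ => by simp
  | _ :: _, _ :: _, [] => by simp
  | x :: a, y :: b, z :: c => by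
    simp only [lcp_cons]
    by_cases h1 : x = y
    · by_cases h2 : x = z
      · subst h1 h2
        simpa using lcp_ultra a b c
      · right
        simp [h2]
    · left
      simp [h1]

end Lcp

section Free

variable {α : Type*} [DecidableEq α]

theorem isReduced_invRev {L : List (α × Bool)} (h : IsReduced L) : IsReduced (invRev L) := by
  rw [isReduced_iff_reduce_eq, reduce_invRev, isReduced_iff_reduce_eq.1 h]

omit [DecidableEq α] in
theorem isReduced_cons_tail {a : α × Bool} {L : List (α × Bool)} (h : IsReduced (a :: L)) :
    IsReduced L := List.IsChain.tail h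

theorem reduce_invRev_append : ∀ L M : List (α × Bool), IsReduced L → IsReduced M →
    (reduce (invRev L ++ M)).length + 2 * lcp L M = L.length + M.length
  | [], M, _, hM => by simp [isReduced_iff_reduce_eq.1 hM]
  | a :: L, [], hL, _ => by
    have := isReduced_iff_reduce_eq.1 (isReduced_invRev hL)
    simp [this]
  | a :: L, b :: M, hL, hM => by
    rw [lcp_cons]
    by_cases h : a = b
    · subst h
      have e : reduce (invRev (a :: L) ++ a :: M) = reduce (invRev L ++ M) := by
        apply reduce.sound
        rw [show a :: L = [a] ++ L from rfl, show a :: M = [a] ++ M from rfl, ← mul_mk, ← mul_mk,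
          ← mul_mk, ← inv_mk, ← inv_mk, ← mul_mk]
        group
      have ih := reduce_invRev_append L M (isReduced_cons_tail hL) (isReduced_cons_tail hM)
      rw [e, if_pos rfl]
      simp only [List.length_cons]
      omega
    · rw [if_neg h]
      have hr : IsReduced (invRev (a :: L) ++ b :: M) := by
        have h1 : IsReduced (invRev (a :: L)) := isReduced_invRev hL
        rw [invRev_cons] at h1 ⊢
        have h2 : IsReduced (invRev [a] ++ b :: M) := by
          have : invRev [a] ++ b :: M = (a.1, !a.2) :: b :: M := by simp [invRev]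
          rw [this, isReduced_cons_cons]
          refine ⟨fun h' => ?_, hM⟩
          have h'' : a.2 ≠ b.2 := fun e => h (Prod.ext h' e)
          revert h''
          cases a.2 <;> cases b.2 <;> simp
        exact h1.append_overlap h2 (by simp [invRev])
      rw [isReduced_iff_reduce_eq.1 hr]
      simp

/-- The word metric. -/
def dF (g h : FreeGroup α) : ℤ := (norm (g⁻¹ * h) : ℤ)

theorem norm_inv_mul (g h : FreeGroup α) :
    norm (g⁻¹ * h) + 2 * lcp g.toWord h.toWord = norm g + norm h := by
  have : (g⁻¹ * h).toWord = reduce (invRev g.toWord ++ h.toWord) := by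
    rw [toWord_mul, toWord_inv]
  unfold FreeGroup.norm
  rw [this]
  exact reduce_invRev_append _ _ isReduced_toWord isReduced_toWord

theorem dF_translate (k g h : FreeGroup α) : dF (k * g) (k * h) = dF g h := by
  unfold dF; congr 2; group

theorem dF_base (x y z : FreeGroup α) :
    dF y z = dF x y + dF x z - 2 * (lcp (x⁻¹ * y).toWord (x⁻¹ * z).toWord : ℤ) := by
  have h := norm_inv_mul (x⁻¹ * y) (x⁻¹ * z)
  have e : (x⁻¹ * y)⁻¹ * (x⁻¹ * z) = y⁻¹ * z := by group
  rw [e] at h
  unfold dF
  omega

theorem isGeoHyp_dF : IsGeoHyp (dF (α := α)) where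
  metric :=
    { nonneg := fun x y => by unfold dF; positivity
      eq_zero_iff := fun x y => by
        unfold dF
        rw [Int.natCast_eq_zero, FreeGroup.norm_eq_zero, inv_mul_eq_one]
      symm := fun x y => by
        unfold dF
        rw [← norm_inv_eq]; congr 2; group
      triangle := fun x y z => by
        unfold dF
        have : x⁻¹ * z = (x⁻¹ * y) * (y⁻¹ * z) := by group
        rw [this]
        exact_mod_cast FreeGroup.norm_mul_le _ _ }
  geo := by
    intro x y t h0 ht
    obtain ⟨n, rfl⟩ := Int.eq_ofNat_of_zero_le h0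
    have hn : n ≤ (x⁻¹ * y).toWord.length := by
      unfold dF FreeGroup.norm at ht
      exact_mod_cast ht
    refine ⟨x * mk ((x⁻¹ * y).toWord.take n), ?_, ?_⟩
    · unfold dF FreeGroup.norm
      rw [inv_mul_cancel_left, toWord_mk]
      have : IsReduced ((x⁻¹ * y).toWord.take n) :=
        List.IsChain.take isReduced_toWord n
      rw [isReduced_iff_reduce_eq.1 this, List.length_take, min_eq_left hn]
    · unfold dF FreeGroup.norm
      have e : (x * mk ((x⁻¹ * y).toWord.take n))⁻¹ * y = mk ((x⁻¹ * y).toWord.drop n) := by
        rw [mul_inv_rev, mul_assoc]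
        apply inv_mul_eq_of_eq_mul
        rw [mul_mk, List.take_append_drop, mk_toWord]
      have : IsReduced ((x⁻¹ * y).toWord.drop n) :=
        List.IsChain.drop isReduced_toWord n
      rw [e, toWord_mk, isReduced_iff_reduce_eq.1 this, List.length_drop]
      push_cast [Nat.cast_sub hn]
      rfl
  hyp := by
    intro x y z w
    have h1 := dF_base x z w
    have h2 := dF_base x y w
    have h3 := dF_base x y z
    have := lcp_ultra (x⁻¹ * y).toWord (x⁻¹ * z).toWord (x⁻¹ * w).toWord
    rw [h1, h2, h3]
    omega
  par := by
    intro x y z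
    refine ⟨(lcp (x⁻¹ * y).toWord (x⁻¹ * z).toWord : ℤ), ?_⟩
    rw [dF_base x y z]
    ring

end Free

end Pool.Agent.Lib.MP_32acdc_lc
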