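import Mathlib
import Pool.Agent.Lib.MP_32acdc_lc.FreeMetric
import Pool.Agent.Lib.MP_32acdc_lc.FreeCentralizer

/-!
# The ultrapower of a free group acts freely on a `Λ`-tree
-/

namespace Pool.Agent.Lib.MP_32acdc_lc

open Filter

/-- ultrapower of the free group on `ℕ` -/
abbrev SF : Type := Germ (hyperfilter ℕ : Filter ℕ) (FreeGroup ℕ)
/-- ultrapower of `ℤ` -/
abbrev SZ : Type := Germ (hyperfilter ℕ : Filter ℕ) ℤ
/-- ultrapower of `ℚ` -/
abbrev SQ : Type := Germ (hyperfilter ℕ : Filter ℕ) ℚ

/-- the internal word metric -/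
noncomputable def dS : SF → SF → SZ := Germ.map₂ dF

theorem dS_coe (f g : ℕ → FreeGroup ℕ) : dS (f : SF) (g : SF) = ((fun n => dF (f n) (g n) : ℕ → ℤ) : SZ) :=
  rfl

theorem isGeoHyp_dS : IsGeoHyp dS where
  metric :=
    { nonneg := fun x y => by
        induction x using Germ.inductionOn with | _ f
        induction y using Germ.inductionOn with | _ g
        rw [dS_coe]
        exact Germ.coe_le.2 (Eventually.of_forall fun n => isGeoHyp_dF.metric.nonneg _ _)
      eq_zero_iff := fun x y => by
        induction x using Germ.inductionOn with | _ f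
        induction y using Germ.inductionOn with | _ g
        rw [dS_coe]
        rw [show (0 : SZ) = ((fun _ => (0:ℤ) : ℕ → ℤ) : SZ) from rfl, Germ.coe_eq, Germ.coe_eq]
        constructor
        · intro h; exact h.mono fun n hn => (isGeoHyp_dF.metric.eq_zero_iff _ _).1 hn
        · intro h; exact h.mono fun n hn => (isGeoHyp_dF.metric.eq_zero_iff _ _).2 hn
      symm := fun x y => by
        induction x using Germ.inductionOn with | _ f
        induction y using Germ.inductionOn with | _ g
        rw [dS_coe, dS_coe, Germ.coe_eq]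
        exact Eventually.of_forall fun n => isGeoHyp_dF.metric.symm _ _
      triangle := fun x y z => by
        induction x using Germ.inductionOn with | _ f
        induction y using Germ.inductionOn with | _ g
        induction z using Germ.inductionOn with | _ h
        rw [dS_coe, dS_coe, dS_coe, ← Germ.coe_add]
        exact Germ.coe_le.2 (Eventually.of_forall fun n => isGeoHyp_dF.metric.triangle _ _ _) }
  geo := by
    intro x y t h0 ht
    induction x using Germ.inductionOn with | _ f
    induction y using Germ.inductionOn with | _ g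
    induction t using Germ.inductionOn with | _ s
    rw [dS_coe] at ht
    have h0' : ∀ᶠ n in (hyperfilter ℕ : Filter ℕ), 0 ≤ s n := Germ.coe_le.1 h0
    have ht' : ∀ᶠ n in (hyperfilter ℕ : Filter ℕ), s n ≤ dF (f n) (g n) := Germ.coe_le.1 ht
    have hex : ∀ n, ∃ z, 0 ≤ s n → s n ≤ dF (f n) (g n) →
        dF (f n) z = s n ∧ dF z (g n) = dF (f n) (g n) - s n := by
      intro n
      by_cases h : 0 ≤ s n ∧ s n ≤ dF (f n) (g n)
      · obtain ⟨z, hz⟩ := isGeoHyp_dF.geo (f n) (g n) (s n) h.1 h.2
        exact ⟨z, fun _ _ => hz⟩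
      · exact ⟨1, fun h1 h2 => absurd ⟨h1, h2⟩ h⟩
    choose z hz using hex
    refine ⟨(z : SF), ?_, ?_⟩
    · rw [dS_coe, Germ.coe_eq]
      filter_upwards [h0', ht'] with n h1 h2 using (hz n h1 h2).1
    · rw [dS_coe, dS_coe, ← Germ.coe_sub, Germ.coe_eq]
      filter_upwards [h0', ht'] with n h1 h2 using (hz n h1 h2).2
  hyp := by
    intro x y z w
    induction x using Germ.inductionOn with | _ f
    induction y using Germ.inductionOn with | _ g
    induction z using Germ.inductionOn with | _ h
    induction w using Germ.inductionOn with | _ k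
    simp only [dS_coe, ← Germ.coe_add]
    rw [Germ.coe_le, Germ.coe_le]
    have : ∀ᶠ n in (hyperfilter ℕ : Filter ℕ),
        dF (f n) (g n) + dF (h n) (k n) ≤ dF (f n) (h n) + dF (g n) (k n) ∨
        dF (f n) (g n) + dF (h n) (k n) ≤ dF (f n) (k n) + dF (g n) (h n) :=
      Eventually.of_forall fun n => isGeoHyp_dF.hyp _ _ _ _
    exact Ultrafilter.eventually_or.1 this
  par := by
    intro x y z
    induction x using Germ.inductionOn with | _ f
    induction y using Germ.inductionOn with | _ g
    induction z using Germ.inductionOn with | _ h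
    choose c hc using fun n => isGeoHyp_dF.par (f n) (g n) (h n)
    refine ⟨(c : SZ), ?_⟩
    simp only [dS_coe, ← Germ.coe_add, ← Germ.coe_sub]
    rw [Germ.coe_eq]
    exact Eventually.of_forall hc

theorem dS_translate (k x y : SF) : dS (k * x) (k * y) = dS x y := by
  induction x using Germ.inductionOn with | _ f
  induction y using Germ.inductionOn with | _ g
  induction k using Germ.inductionOn with | _ h
  rw [← Germ.coe_mul, ← Germ.coe_mul, dS_coe, dS_coe, Germ.coe_eq]
  exact Eventually.of_forall fun n => dF_translate _ _ _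

theorem sq_eq_one (x : SF) (h : x * x = 1) : x = 1 := by
  induction x using Germ.inductionOn with | _ f
  rw [← Germ.coe_mul, show (1 : SF) = ((fun _ => (1 : FreeGroup ℕ) : ℕ → FreeGroup ℕ) : SF) from rfl,
    Germ.coe_eq] at h
  rw [show (1 : SF) = ((fun _ => (1 : FreeGroup ℕ) : ℕ → FreeGroup ℕ) : SF) from rfl, Germ.coe_eq]
  refine h.mono fun n hn => ?_
  have : (f n) ^ 2 = 1 ^ 2 := by rw [one_pow, pow_two]; exact hn
  exact pow_left_injective two_ne_zero this

/-- Every subgroup of the ultrapower acts freely on a `Λ`-tree. -/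
theorem treeFree_subgroup (H : Subgroup SF) : TreeFree H := by
  refine ⟨SZ, inferInstance, inferInstance, inferInstance, SF, inferInstance, dS, ⟨1⟩,
    isGeoHyp_dS.isLTree, ?_, ?_⟩
  · intro g x y
    exact dS_translate _ _ _
  · intro g hg x
    have hg' : (g : SF) ≠ 1 := fun h => hg (Subtype.ext h)
    constructor
    · intro h
      apply hg'
      have h' : (g : SF) * x = x := h
      exact mul_eq_right.1 h'
    · intro h
      apply hg'
      have h' : (g : SF) * ((g : SF) * x) = x := h
      rw [← mul_assoc] at h'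
      exact sq_eq_one _ (mul_eq_right.1 h')

/-! ### Internal powers -/

/-- internal integer power -/
noncomputable def zp : SF → SZ → SF := Germ.map₂ (fun x n => x ^ n)

theorem zp_coe (f : ℕ → FreeGroup ℕ) (s : ℕ → ℤ) :
    zp (f : SF) (s : SZ) = ((fun n => f n ^ s n : ℕ → FreeGroup ℕ) : SF) := rfl

theorem zp_add (x : SF) (s t : SZ) : zp x (s + t) = zp x s * zp x t := by
  induction x using Germ.inductionOn with | _ f
  induction s using Germ.inductionOn with | _ s
  induction t using Germ.inductionOn with | _ t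
  rw [← Germ.coe_add, zp_coe, zp_coe, zp_coe, ← Germ.coe_mul, Germ.coe_eq]
  exact Eventually.of_forall fun n => zpow_add _ _ _

theorem zp_zero (x : SF) : zp x 0 = 1 := by
  induction x using Germ.inductionOn with | _ f
  rw [show (0 : SZ) = ((fun _ => (0:ℤ) : ℕ → ℤ) : SZ) from rfl, zp_coe,
    show (1 : SF) = ((fun _ => (1 : FreeGroup ℕ) : ℕ → FreeGroup ℕ) : SF) from rfl, Germ.coe_eq]
  exact Eventually.of_forall fun n => zpow_zero _

theorem zp_one (x : SF) : zp x 1 = x := by
  induction x using Germ.inductionOn with | _ f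
  rw [show (1 : SZ) = ((fun _ => (1:ℤ) : ℕ → ℤ) : SZ) from rfl, zp_coe, Germ.coe_eq]
  exact Eventually.of_forall fun n => zpow_one _

theorem zp_neg (x : SF) (s : SZ) : zp x (-s) = (zp x s)⁻¹ := by
  have h := zp_add x s (-s)
  rw [add_neg_cancel, zp_zero] at h
  exact (inv_eq_of_mul_eq_one_right h.symm).symm

theorem zp_pow (x : SF) (s : SZ) (k : ℕ) : (zp x s) ^ k = zp x (k • s) := by
  induction k with
  | zero => rw [pow_zero, zero_smul, zp_zero]
  | succ k ih => rw [pow_succ, ih, succ_nsmul, zp_add]

theorem zp_inj {x : SF} (hx : x ≠ 1) {s t : SZ} (h : zp x s = zp x t) : s = t := by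
  induction x using Germ.inductionOn with | _ f
  induction s using Germ.inductionOn with | _ s
  induction t using Germ.inductionOn with | _ t
  have hx' : ∀ᶠ n in (hyperfilter ℕ : Filter ℕ), f n ≠ 1 := by
    rw [Ultrafilter.eventually_not]
    intro h0
    exact hx (Germ.coe_eq.2 h0)
  rw [zp_coe, zp_coe, Germ.coe_eq] at h
  rw [Germ.coe_eq]
  filter_upwards [hx', h] with n h1 h2
  by_contra hne
  have h3 : (f n) ^ (s n - t n) = 1 := by rw [zpow_sub, h2, mul_inv_cancel]
  have h4 : s n - t n ≠ 0 := sub_ne_zero.2 hne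
  have h5 : (f n) ^ ((s n - t n).natAbs) = 1 := by
    rcases Int.natAbs_eq (s n - t n) with h | h
    · rw [h, zpow_natCast] at h3; exact h3
    · rw [h, zpow_neg, inv_eq_one, zpow_natCast] at h3; exact h3
  have h6 : (s n - t n).natAbs ≠ 0 := Int.natAbs_ne_zero.2 h4
  exact h1 (pow_left_injective h6 (h5.trans (one_pow _).symm))

/-- Centralizers in the ultrapower. -/
theorem exists_root (g : SF) (hg : g ≠ 1) : ∃ r : SF, ∀ h, Commute g h ↔ ∃ s, h = zp r s := by
  induction g using Germ.inductionOn with | _ f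
  have hx' : ∀ᶠ n in (hyperfilter ℕ : Filter ℕ), f n ≠ 1 := by
    rw [Ultrafilter.eventually_not]
    intro h0
    exact hg (Germ.coe_eq.2 h0)
  have hex : ∀ n, ∃ r : FreeGroup ℕ, f n ≠ 1 → ∀ h, Commute (f n) h ↔ ∃ s : ℤ, h = r ^ s := by
    intro n
    by_cases h : f n = 1
    · exact ⟨1, fun h' => absurd h h'⟩
    · obtain ⟨r, hr⟩ := free_centralizer (f n) h
      exact ⟨r, fun _ => hr⟩
  choose r hr using hex
  refine ⟨(r : SF), fun h => ?_⟩
  induction h using Germ.inductionOn with | _ h
  constructor
  · intro hc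
    have hc' : ∀ᶠ n in (hyperfilter ℕ : Filter ℕ), f n * h n = h n * f n := by
      have := hc.eq
      rw [← Germ.coe_mul, ← Germ.coe_mul, Germ.coe_eq] at this
      exact this
    have hex2 : ∀ n, ∃ s : ℤ, f n ≠ 1 → f n * h n = h n * f n → h n = r n ^ s := by
      intro n
      by_cases h0 : f n ≠ 1 ∧ f n * h n = h n * f n
      · obtain ⟨s, hs⟩ := (hr n h0.1 (h n)).1 h0.2
        exact ⟨s, fun _ _ => hs⟩
      · exact ⟨0, fun h1 h2 => absurd ⟨h1, h2⟩ h0⟩
    choose s hs using hex2
    refine ⟨(s : SZ), ?_⟩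
    rw [zp_coe, Germ.coe_eq]
    filter_upwards [hx', hc'] with n h1 h2 using hs n h1 h2
  · rintro ⟨s, hs⟩
    induction s using Germ.inductionOn with | _ s
    rw [zp_coe, Germ.coe_eq] at hs
    change (f : SF) * (h : SF) = (h : SF) * (f : SF)
    rw [← Germ.coe_mul, ← Germ.coe_mul, Germ.coe_eq]
    filter_upwards [hx', hs] with n h1 h2 using (hr n h1 (h n)).2 ⟨_, h2⟩

/-! ### Exponent sums -/

/-- exponent sum of the generator `i` -/
def ex (i : ℕ) (x : FreeGroup ℕ) : ℤ :=
  Multiplicative.toAdd (FreeGroup.lift (fun j => Multiplicative.ofAdd (if j = i then (1:ℤ) else 0)) x)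

theorem ex_mul (i : ℕ) (x y : FreeGroup ℕ) : ex i (x * y) = ex i x + ex i y := by
  simp [ex]

theorem ex_one (i : ℕ) : ex i 1 = 0 := by simp [ex]

theorem ex_zpow (i : ℕ) (x : FreeGroup ℕ) (n : ℤ) : ex i (x ^ n) = n * ex i x := by
  simp [ex, map_zpow, toAdd_zpow]

theorem ex_of (i j : ℕ) : ex i (FreeGroup.of j) = if j = i then 1 else 0 := by
  simp [ex]

theorem exists_ind (E : Finset ℕ) : ∃ x : FreeGroup ℕ, ∀ i, ex i x = if i ∈ E then 1 else 0 := by
  induction E using Finset.induction_on with
  | empty => exact ⟨1, fun i => by simp [ex_one]⟩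
  | insert a E ha ih =>
    obtain ⟨x, hx⟩ := ih
    refine ⟨FreeGroup.of a * x, fun i => ?_⟩
    rw [ex_mul, hx, ex_of]
    by_cases h : a = i
    · subst h; simp [ha]
    · have : i ≠ a := Ne.symm h
      simp [h, this, Finset.mem_insert]

/-- internal exponent sum -/
noncomputable def exS (i : ℕ) : SF → SZ := Germ.map (ex i)

theorem exS_coe (i : ℕ) (f : ℕ → FreeGroup ℕ) : exS i (f : SF) = ((fun n => ex i (f n) : ℕ → ℤ) : SZ) :=
  rfl

theorem exS_mul (i : ℕ) (x y : SF) : exS i (x * y) = exS i x + exS i y := by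
  induction x using Germ.inductionOn with | _ f
  induction y using Germ.inductionOn with | _ g
  rw [← Germ.coe_mul, exS_coe, exS_coe, exS_coe, ← Germ.coe_add, Germ.coe_eq]
  exact Eventually.of_forall fun n => ex_mul _ _ _

theorem exS_one (i : ℕ) : exS i 1 = 0 := by
  have := exS_mul i 1 1
  rw [mul_one] at this
  simpa using this

theorem exS_inv (i : ℕ) (x : SF) : exS i x⁻¹ = - exS i x := by
  have := exS_mul i x x⁻¹
  rw [mul_inv_cancel, exS_one] at this
  exact (neg_eq_of_add_eq_zero_right this.symm).symm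

theorem exS_zp (i : ℕ) (x : SF) (s : SZ) : exS i (zp x s) = s * exS i x := by
  induction x using Germ.inductionOn with | _ f
  induction s using Germ.inductionOn with | _ s
  rw [zp_coe, exS_coe, exS_coe, ← Germ.coe_mul, Germ.coe_eq]
  exact Eventually.of_forall fun n => ex_zpow _ _ _

end Pool.Agent.Lib.MP_32acdc_lc
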