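import Mathlib
import Pool.Agent.Lib.MP_32acdc_lc.Ultra
import Pool.Agent.Lib.MP_32acdc_lc.PolyClass

/-!
# Evaluation of rational polynomials at the infinite number `[(n+1)!]`
-/

namespace Pool.Agent.Lib.MP_32acdc_lc

open Filter Polynomial Nat

/-- embedding of the hyperintegers in the hyperrationals -/
noncomputable def cQ : SZ →+* SQ where
  toFun := Germ.map (fun z : ℤ => (z : ℚ))
  map_one' := by
    change Germ.map _ (((1 : ℕ → ℤ)) : SZ) = _
    rw [Germ.map_coe]
    change ((fun _ => ((1:ℤ):ℚ) : ℕ → ℚ) : SQ) = ((1 : ℕ → ℚ) : SQ)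
    congr 1
  map_zero' := by
    change Germ.map _ (((0 : ℕ → ℤ)) : SZ) = _
    rw [Germ.map_coe]
    change ((fun _ => ((0:ℤ):ℚ) : ℕ → ℚ) : SQ) = ((0 : ℕ → ℚ) : SQ)
    congr 1
  map_mul' x y := by
    induction x using Germ.inductionOn with | _ f
    induction y using Germ.inductionOn with | _ g
    rw [← Germ.coe_mul, Germ.map_coe, Germ.map_coe, Germ.map_coe, ← Germ.coe_mul]
    congr 1; funext n; simp
  map_add' x y := by
    induction x using Germ.inductionOn with | _ f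
    induction y using Germ.inductionOn with | _ g
    rw [← Germ.coe_add, Germ.map_coe, Germ.map_coe, Germ.map_coe, ← Germ.coe_add]
    congr 1; funext n; simp

theorem cQ_coe (f : ℕ → ℤ) : cQ (f : SZ) = ((fun n => (f n : ℚ) : ℕ → ℚ) : SQ) := rfl

theorem cQ_inj : Function.Injective cQ := by
  intro x y h
  induction x using Germ.inductionOn with | _ f
  induction y using Germ.inductionOn with | _ g
  rw [cQ_coe, cQ_coe, Germ.coe_eq] at h
  rw [Germ.coe_eq]
  exact h.mono fun n hn => by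
    have hn' : (f n : ℚ) = (g n : ℚ) := hn
    exact_mod_cast hn'

/-- evaluation of a polynomial at the infinite number `[(n+1)!]` -/
noncomputable def ev : ℚ[X] →+* SQ where
  toFun p := ((fun n => p.eval ((n+1)! : ℚ) : ℕ → ℚ) : SQ)
  map_one' := by
    change _ = ((1 : ℕ → ℚ) : SQ)
    congr 1; funext n; simp
  map_zero' := by
    change _ = ((0 : ℕ → ℚ) : SQ)
    congr 1; funext n; simp
  map_mul' x y := by
    rw [← Germ.coe_mul]
    congr 1; funext n; simp
  map_add' x y := by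
    rw [← Germ.coe_add]
    congr 1; funext n; simp

theorem ev_apply (p : ℚ[X]) : ev p = ((fun n => p.eval ((n+1)! : ℚ) : ℕ → ℚ) : SQ) := rfl

theorem fact_inj {n m : ℕ} (h : (((n+1)! : ℕ) : ℚ) = ((m+1)! : ℕ)) : n = m := by
  have h1 : StrictMono (fun n : ℕ => (n+1)!) := by
    apply strictMono_nat_of_lt_succ
    intro n
    exact Nat.factorial_lt (by omega) |>.2 (by omega)
  have h2 : (n+1)! = (m+1)! := by exact_mod_cast h
  exact h1.injective h2

theorem ev_inj : Function.Injective ev := by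
  rw [injective_iff_map_eq_zero]
  intro p hp
  by_contra hne
  have h1 : ∀ᶠ n in (hyperfilter ℕ : Filter ℕ), p.eval ((n+1)! : ℚ) = 0 := by
    have : ev p = ((fun _ => (0:ℚ) : ℕ → ℚ) : SQ) := hp
    rw [ev_apply, Germ.coe_eq] at this
    exact this
  have hfin : {n : ℕ | p.eval ((n+1)! : ℚ) = 0}.Finite := by
    have hr : (p.rootSet ℚ).Finite := p.rootSet_finite ℚ
    have : {n : ℕ | p.eval ((n+1)! : ℚ) = 0} ⊆ (fun n : ℕ => (((n+1)! : ℕ) : ℚ)) ⁻¹' (p.rootSet ℚ) := by
      intro n hn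
      rw [Set.mem_preimage, mem_rootSet]
      refine ⟨hne, ?_⟩
      simpa using hn
    refine Set.Finite.subset (Set.Finite.preimage ?_ hr) this
    intro a _ b _ hab
    exact fact_inj hab
  exact notMem_hyperfilter_of_finite hfin h1

theorem ev_C (q : ℚ) : ev (C q) = ((fun _ => q : ℕ → ℚ) : SQ) := by
  rw [ev_apply]
  congr 1; funext n; simp

theorem cQ_int (z : ℤ) : cQ (z : SZ) = ev (C (z : ℚ)) := by
  rw [map_intCast, ev_C]; rfl

/-- eventually an integer implies hyperinteger -/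
theorem exists_cQ (f : ℕ → ℚ) (h : ∀ᶠ n in (hyperfilter ℕ : Filter ℕ), ∃ z : ℤ, f n = z) :
    ∃ s : SZ, cQ s = (f : SQ) := by
  classical
  have : ∀ n, ∃ z : ℤ, (∃ z : ℤ, f n = z) → f n = z := by
    intro n
    by_cases h : ∃ z : ℤ, f n = z
    · obtain ⟨z, hz⟩ := h
      exact ⟨z, fun _ => hz⟩
    · exact ⟨0, fun h' => absurd h' h⟩
  choose s hs using this
  refine ⟨(s : SZ), ?_⟩
  rw [cQ_coe, Germ.coe_eq]
  filter_upwards [h] with n hn using (hs n hn).symm

/-- `b N^(k+1)` is a hyperinteger -/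
theorem exists_cQ_mon (b : ℚ) (k : ℕ) : ∃ s : SZ, cQ s = ev (C b * X ^ (k+1)) := by
  rw [ev_apply]
  apply exists_cQ
  have hev : ∀ᶠ n in (hyperfilter ℕ : Filter ℕ), b.den ≤ n :=
    (Filter.Tendsto.eventually_ge_atTop tendsto_id b.den).filter_mono
      (by rw [← Nat.cofinite_eq_atTop]; exact hyperfilter_le_cofinite)
  filter_upwards [hev] with n hn
  have hd : b.den ∣ (n+1)! := Nat.dvd_factorial b.pos (by omega)
  obtain ⟨c, hc⟩ := hd
  refine ⟨b.num * c * ((n+1)! : ℕ) ^ k, ?_⟩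
  have hb : b * b.den = b.num := Rat.mul_den_eq_num b
  rw [eval_mul, eval_C, eval_pow, eval_X, _root_.pow_succ']
  have : (((n+1)! : ℕ) : ℚ) = b.den * c := by rw [hc]; push_cast; ring
  push_cast
  have h2 : b * (((n+1)! : ℕ) : ℚ) = b.num * c := by rw [this, ← hb]; ring
  calc b * ((((n+1)! : ℕ) : ℚ) * (((n+1)! : ℕ) : ℚ) ^ k)
      = (b * (((n+1)! : ℕ) : ℚ)) * (((n+1)! : ℕ) : ℚ) ^ k := by ring
    _ = _ := by rw [h2]

/-- A standard rational which is a hyperinteger is an integer. -/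
theorem std_int (q : ℚ) (s : SZ) (h : cQ s = ev (C q)) : ∃ z : ℤ, q = z := by
  induction s using Germ.inductionOn with | _ f
  rw [cQ_coe, ev_C, Germ.coe_eq] at h
  obtain ⟨n, hn⟩ := h.exists
  exact ⟨f n, hn.symm⟩

/-- A divisor of a standard nonzero integer is standard. -/
theorem std_of_dvd (s w : SZ) (z : ℤ) (hz : z ≠ 0) (h : s * w = (z : SZ)) :
    ∃ c : ℤ, s = (c : SZ) := by
  induction s using Germ.inductionOn with | _ f
  induction w using Germ.inductionOn with | _ g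
  have h' : ∀ᶠ n in (hyperfilter ℕ : Filter ℕ), f n * g n = z := by
    have : ((f * g : ℕ → ℤ) : SZ) = ((fun _ => z : ℕ → ℤ) : SZ) := h
    rw [Germ.coe_eq] at this
    exact this
  have h2 : ∀ᶠ n in (hyperfilter ℕ : Filter ℕ), ∃ c ∈ Finset.Icc (-|z|) |z|, f n = c := by
    filter_upwards [h'] with n hn
    refine ⟨f n, ?_, rfl⟩
    have hd : f n ∣ z := ⟨g n, hn.symm⟩
    have h3 : |f n| ≤ |z| := by
      have := Int.natAbs_le_of_dvd_ne_zero hd hz
      rw [Int.abs_eq_natAbs, Int.abs_eq_natAbs]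
      exact_mod_cast this
    rw [Finset.mem_Icc]
    exact abs_le.1 h3
  have h2' : ∀ᶠ n in (hyperfilter ℕ : Filter ℕ), ∃ c ∈ ((Finset.Icc (-|z|) |z| : Finset ℤ) : Set ℤ), f n = c := h2
  rw [Ultrafilter.eventually_exists_mem_iff (Finset.finite_toSet _)] at h2'
  obtain ⟨c, _, hc⟩ := h2'
  refine ⟨c, ?_⟩
  change (f : SZ) = ((fun _ => c : ℕ → ℤ) : SZ)
  rw [Germ.coe_eq]
  exact hc

/-- parity in the hyperintegers -/
theorem parity (s : SZ) : ∃ d : SZ, ∃ j < 2, s = j • (1 : SZ) + 2 • d := by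
  induction s using Germ.inductionOn with | _ f
  have h : ∀ᶠ n in (hyperfilter ℕ : Filter ℕ), f n % 2 = 0 ∨ f n % 2 = 1 :=
    Eventually.of_forall fun n => by omega
  rw [Ultrafilter.eventually_or] at h
  refine ⟨((fun n => f n / 2 : ℕ → ℤ) : SZ), ?_⟩
  rcases h with h | h
  · refine ⟨0, by norm_num, ?_⟩
    rw [zero_smul, zero_add, two_smul, ← Germ.coe_add, Germ.coe_eq]
    filter_upwards [h] with n hn
    change f n = f n / 2 + f n / 2
    omega
  · refine ⟨1, by norm_num, ?_⟩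
    rw [one_smul, two_smul, show (1 : SZ) = ((fun _ => (1:ℤ) : ℕ → ℤ) : SZ) from rfl,
      ← Germ.coe_add, ← Germ.coe_add, Germ.coe_eq]
    filter_upwards [h] with n hn
    change f n = 1 + (f n / 2 + f n / 2)
    omega

end Pool.Agent.Lib.MP_32acdc_lc
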