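import Mathlib
import Pool.Agent.Lib.MP_32acdc_lc.Eval

/-!
# The subgroup of the ultrapower attached to a family of special sets
-/

namespace Pool.Agent.Lib.MP_32acdc_lc

open Filter Polynomial

/-- `b ∈ ℤ[1/p]` -/
def Zloc (p : ℕ) (b : ℚ) : Prop := ∃ (e : ℕ) (u : ℤ), b * (p : ℚ) ^ e = u

theorem Zloc.add {p : ℕ} {b c : ℚ} (hb : Zloc p b) (hc : Zloc p c) : Zloc p (b + c) := by
  obtain ⟨e, u, hu⟩ := hb
  obtain ⟨f, v, hv⟩ := hc
  refine ⟨e + f, u * p ^ f + v * p ^ e, ?_⟩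
  push_cast
  rw [← hu, ← hv]; ring

theorem Zloc.neg {p : ℕ} {b : ℚ} (hb : Zloc p b) : Zloc p (-b) := by
  obtain ⟨e, u, hu⟩ := hb
  exact ⟨e, -u, by push_cast; rw [← hu]; ring⟩

theorem Zloc.int (p : ℕ) (z : ℤ) : Zloc p z := ⟨0, z, by simp⟩

theorem Zloc.div {p : ℕ} (hp : p ≠ 0) {b : ℚ} (hb : Zloc p b) : Zloc p (b / p) := by
  obtain ⟨e, u, hu⟩ := hb
  have hp' : (p : ℚ) ≠ 0 := by exact_mod_cast hp
  refine ⟨e + 1, u, ?_⟩
  rw [← hu]; field_simp; ring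

/-- Data of a coding: a family of coloured special finite sets, and a prime for each colour. -/
structure Data where
  Spec : Finset ℕ → ℕ → Prop
  pr : ℕ → ℕ
  ne : ∀ E c, Spec E c → E.Nonempty
  uniq : ∀ E c c', Spec E c → Spec E c' → c = c'
  prime : ∀ c, (pr c).Prime
  odd : ∀ c, pr c ≠ 2
  inj : Function.Injective pr

variable (D : Data)

/-- The admissible polynomial vectors. -/
structure PP (P : ℕ → ℚ[X]) : Prop where
  int0 : ∀ i, ∃ z : ℤ, (P i).coeff 0 = z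
  spec : ∀ n, ∃ b : ℚ, (b ≠ 0 → ∃ c, D.Spec (A n) c ∧ Zloc (D.pr c) b) ∧
    ∀ i, (P i).coeff (n + 1) = b * ind (A n) i
  bdd : ∃ d, ∀ i, (P i).natDegree ≤ d

variable {D}

theorem PP.toPQ {P : ℕ → ℚ[X]} (h : PP D P) : PQ D.Spec P where
  spec n := by
    obtain ⟨b, hb, hb'⟩ := h.spec n
    exact ⟨b, fun h0 => (hb h0).imp fun c hc => hc.1, hb'⟩
  bdd := h.bdd

theorem PP.zero : PP D (fun _ => 0) where
  int0 i := ⟨0, by simp⟩
  spec n := ⟨0, fun h => absurd rfl h, fun i => by simp⟩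
  bdd := ⟨0, fun i => by simp⟩

theorem PP.neg {P : ℕ → ℚ[X]} (h : PP D P) : PP D (fun i => -P i) where
  int0 i := by
    obtain ⟨z, hz⟩ := h.int0 i
    exact ⟨-z, by rw [coeff_neg, hz]; push_cast; ring⟩
  spec n := by
    obtain ⟨b, hb, hb'⟩ := h.spec n
    refine ⟨-b, fun h0 => ?_, fun i => by rw [coeff_neg, hb']; ring⟩
    obtain ⟨c, hc, hc'⟩ := hb (by rintro rfl; simp at h0)
    exact ⟨c, hc, hc'.neg⟩
  bdd := by
    obtain ⟨d, hd⟩ := h.bdd
    exact ⟨d, fun i => by rw [natDegree_neg]; exact hd i⟩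

theorem PP.add {P Q : ℕ → ℚ[X]} (h : PP D P) (h' : PP D Q) : PP D (fun i => P i + Q i) where
  int0 i := by
    obtain ⟨z, hz⟩ := h.int0 i
    obtain ⟨w, hw⟩ := h'.int0 i
    exact ⟨z + w, by rw [coeff_add, hz, hw]; push_cast; ring⟩
  spec n := by
    obtain ⟨b, hb, hb'⟩ := h.spec n
    obtain ⟨c, hc, hc'⟩ := h'.spec n
    refine ⟨b + c, fun h0 => ?_, fun i => by rw [coeff_add, hb', hc']; ring⟩
    by_cases hb0 : b = 0
    · subst hb0
      rw [zero_add] at h0 ⊢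
      exact hc h0
    · obtain ⟨x, hx, hx'⟩ := hb hb0
      by_cases hc0 : c = 0
      · subst hc0
        rw [add_zero]
        exact ⟨x, hx, hx'⟩
      · obtain ⟨y, hy, hy'⟩ := hc hc0
        have := D.uniq _ _ _ hx hy
        subst this
        exact ⟨x, hx, hx'.add hy'⟩
  bdd := by
    obtain ⟨d, hd⟩ := h.bdd
    obtain ⟨e, he⟩ := h'.bdd
    refine ⟨max d e, fun i => (natDegree_add_le _ _).trans ?_⟩
    exact max_le_max (hd i) (he i)

variable (D)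

/-- The subgroup. -/
noncomputable def GG : Subgroup SF where
  carrier := {g | ∃ P, PP D P ∧ ∀ i, cQ (exS i g) = ev (P i)}
  one_mem' := ⟨_, PP.zero, fun i => by rw [exS_one, map_zero, map_zero]⟩
  mul_mem' := by
    rintro a b ⟨P, hP, hP'⟩ ⟨Q, hQ, hQ'⟩
    exact ⟨_, hP.add hQ, fun i => by rw [exS_mul, map_add, hP', hQ', map_add]⟩
  inv_mem' := by
    rintro a ⟨P, hP, hP'⟩
    exact ⟨_, hP.neg, fun i => by rw [exS_inv, map_neg, hP', map_neg]⟩

variable {D}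

theorem mem_GG {g : SF} : g ∈ GG D ↔ ∃ P, PP D P ∧ ∀ i, cQ (exS i g) = ev (P i) := Iff.rfl

variable (D)

/-- exponents of powers of `r` lying in the subgroup -/
noncomputable def J (r : SF) : AddSubgroup SZ where
  carrier := {s | zp r s ∈ GG D}
  zero_mem' := by
    change zp r 0 ∈ GG D
    rw [zp_zero]; exact one_mem _
  add_mem' := by
    intro a b ha hb
    change zp r (a + b) ∈ GG D
    rw [zp_add]; exact mul_mem ha hb
  neg_mem' := by
    intro a ha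
    change zp r (-a) ∈ GG D
    rw [zp_neg]; exact inv_mem ha

variable {D}

theorem mem_J {r : SF} {s : SZ} :
    s ∈ J D r ↔ ∃ P, PP D P ∧ ∀ i, cQ (s * exS i r) = ev (P i) := by
  change zp r s ∈ GG D ↔ _
  rw [mem_GG]
  simp only [exS_zp]

/-- first-order property of the centralizer: it is cyclic modulo `m`-th powers -/
def Cyc {G : Type*} [Group G] (m : ℕ) (g : G) : Prop :=
  ∃ a, a * g = g * a ∧ ∀ c, c * g = g * c → ∃ d, d * g = g * d ∧ ∃ j < m, c = a ^ j * d ^ m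

/-- the type formula -/
def Typ {G : Type*} [Group G] (m : ℕ) (g : G) : Prop := g ≠ 1 ∧ ¬ Cyc 2 g ∧ Cyc m g

/-- additive version -/
def CycA {B : Type*} [AddCommGroup B] (m : ℕ) (J : AddSubgroup B) : Prop :=
  ∃ a ∈ J, ∀ c ∈ J, ∃ d ∈ J, ∃ j < m, c = j • a + m • d

/-- `r` is a root of `g` in the ultrapower -/
def IsRoot (g r : SF) : Prop := ∀ h, Commute g h ↔ ∃ s, h = zp r s

theorem IsRoot.ne_one {g r : SF} (hg : g ≠ 1) (h : IsRoot g r) : r ≠ 1 := by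
  rintro rfl
  obtain ⟨s, hs⟩ := (h g).1 (Commute.refl g)
  apply hg
  rw [hs]
  have : zp 1 s = (zp 1 s) * 1 := (mul_one _).symm
  induction s using Germ.inductionOn with | _ f
  rw [show (1 : SF) = ((fun _ => (1 : FreeGroup ℕ) : ℕ → FreeGroup ℕ) : SF) from rfl, zp_coe,
    Germ.coe_eq]
  exact Eventually.of_forall fun n => one_zpow _

theorem cyc_iff {g : GG D} (hg : g ≠ 1) {r : SF} (hr : IsRoot g r) (m : ℕ) :
    Cyc m g ↔ CycA m (J D r) := by
  have hg' : (g : SF) ≠ 1 := fun h => hg (Subtype.ext h)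
  have hr1 := hr.ne_one hg'
  have hcomm : ∀ x : GG D, x * g = g * x ↔ ∃ s ∈ J D r, (x : SF) = zp r s := by
    intro x
    constructor
    · intro h
      have : Commute (g : SF) x := (congrArg Subtype.val h).symm
      obtain ⟨s, hs⟩ := (hr x).1 this
      refine ⟨s, ?_, hs⟩
      change zp r s ∈ GG D
      rw [← hs]; exact x.2
    · rintro ⟨s, _, hs⟩
      exact Subtype.ext ((hr x).2 ⟨s, hs⟩).symm
  constructor
  · rintro ⟨a, ha, H⟩
    obtain ⟨s, hs, has⟩ := (hcomm a).1 ha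
    refine ⟨s, hs, fun c hc => ?_⟩
    obtain ⟨d, hd, j, hj, hcd⟩ := H ⟨zp r c, hc⟩ ((hcomm _).2 ⟨c, hc, rfl⟩)
    obtain ⟨t, ht, hdt⟩ := (hcomm d).1 hd
    refine ⟨t, ht, j, hj, ?_⟩
    apply zp_inj hr1
    have := congrArg Subtype.val hcd
    simp only [Subgroup.coe_mul, Subgroup.coe_pow] at this
    rw [has, hdt] at this
    rw [this, zp_pow, zp_pow, ← zp_add]
  · rintro ⟨s, hs, H⟩
    refine ⟨⟨zp r s, hs⟩, (hcomm _).2 ⟨s, hs, rfl⟩, fun c hc => ?_⟩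
    obtain ⟨t, ht, hct⟩ := (hcomm c).1 hc
    obtain ⟨d, hd, j, hj, hcd⟩ := H t ht
    refine ⟨⟨zp r d, hd⟩, (hcomm _).2 ⟨d, hd, rfl⟩, j, hj, ?_⟩
    apply Subtype.ext
    simp only [Subgroup.coe_mul, Subgroup.coe_pow]
    rw [hct, hcd, zp_add, ← zp_pow, ← zp_pow]

end Pool.Agent.Lib.MP_32acdc_lc
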