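import Mathlib
import Pool.Agent.Lib.MP_32acdc_lc.Group

/-!
# Computation of the types
-/

namespace Pool.Agent.Lib.MP_32acdc_lc

open Filter Polynomial

/-! ### Rank at most one -/

theorem SZ_domain {x y : SZ} (h : x * y = 0) : x = 0 ∨ y = 0 := by
  have h1 : cQ x * cQ y = 0 := by rw [← map_mul, h, map_zero]
  rcases mul_eq_zero.1 h1 with h2 | h2
  · left; exact cQ_inj (by rw [h2, map_zero])
  · right; exact cQ_inj (by rw [h2, map_zero])

theorem SZ_torsionfree {z : ℤ} {x : SZ} (h : z • x = 0) : z = 0 ∨ x = 0 := by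
  rw [zsmul_eq_mul] at h
  rcases SZ_domain h with h1 | h1
  · left
    have : cQ (z : SZ) = cQ (0 : SZ) := by rw [h1]
    rw [map_intCast, map_zero] at this
    exact_mod_cast this
  · right; exact h1

theorem cycA_rank_one (J : AddSubgroup SZ)
    (h : ∀ x ∈ J, ∀ y ∈ J, ∃ u v : ℤ, (u ≠ 0 ∨ v ≠ 0) ∧ u • x = v • y) : CycA 2 J := by
  by_cases h2 : ∀ x ∈ J, ∃ d ∈ J, x = 2 • d
  · refine ⟨0, J.zero_mem, fun c hc => ?_⟩
    obtain ⟨d, hd, hcd⟩ := h2 c hc
    exact ⟨d, hd, 0, by norm_num, by rw [zero_smul, zero_add]; exact hcd⟩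
  · push Not at h2
    obtain ⟨a, ha, hna⟩ := h2
    refine ⟨a, ha, fun c hc => ?_⟩
    -- coprime relation
    have hcop : ∃ u v : ℤ, (u % 2 ≠ 0 ∨ v % 2 ≠ 0) ∧ u • c = v • a := by
      obtain ⟨u, v, hne, huv⟩ := h c hc a ha
      have hg : (Int.gcd u v : ℤ) ≠ 0 := by
        intro h0
        have : Int.gcd u v = 0 := by exact_mod_cast h0
        rw [Int.gcd_eq_zero_iff] at this
        rcases hne with h1 | h1
        · exact h1 this.1
        · exact h1 this.2
      obtain ⟨u', hu'⟩ := Int.gcd_dvd_left (a := u) (b := v)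
      obtain ⟨v', hv'⟩ := Int.gcd_dvd_right (a := u) (b := v)
      refine ⟨u', v', ?_, ?_⟩
      · by_contra hc
        push Not at hc
        obtain ⟨u2, hu2⟩ : (2:ℤ) ∣ u' := Int.dvd_of_emod_eq_zero hc.1
        obtain ⟨v2, hv2⟩ : (2:ℤ) ∣ v' := Int.dvd_of_emod_eq_zero hc.2
        have h3 : (Int.gcd u v : ℤ) * 2 ∣ (Int.gcd u v : ℤ) := by
          have hh := Int.dvd_coe_gcd (a := u) (b := v) (c := (Int.gcd u v : ℤ) * 2)
            ⟨u2, by rw [mul_assoc, ← hu2]; exact hu'⟩ ⟨v2, by rw [mul_assoc, ← hv2]; exact hv'⟩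
          exact hh
        obtain ⟨k, hk⟩ := h3
        have h4 : (Int.gcd u v : ℤ) * (2 * k - 1) = 0 := by
          have : (Int.gcd u v : ℤ) * (2 * k - 1) = (Int.gcd u v : ℤ) * 2 * k - (Int.gcd u v : ℤ) := by
            ring
          rw [this, ← hk, sub_self]
        rcases mul_eq_zero.1 h4 with h5 | h5
        · exact hg h5
        · omega
      · have : (Int.gcd u v : ℤ) • (u' • c - v' • a) = 0 := by
          rw [smul_sub, smul_smul, smul_smul, ← hu', ← hv', huv, sub_self]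
        rcases SZ_torsionfree this with h5 | h5
        · exact absurd h5 hg
        · exact sub_eq_zero.1 h5
    obtain ⟨u, v, hne, huv⟩ := hcop
    rcases Int.emod_two_eq_zero_or_one u with hu | hu
    · -- u even, v odd : a even, contradiction
      exfalso
      have hv : v % 2 = 1 := by omega
      obtain ⟨u2, hu2⟩ : (2:ℤ) ∣ u := Int.dvd_of_emod_eq_zero hu
      obtain ⟨v2, hv2⟩ : ∃ v2, v = 2 * v2 + 1 := ⟨v / 2, by omega⟩
      apply hna (u2 • c - v2 • a) (sub_mem (J.zsmul_mem hc _) (J.zsmul_mem ha _))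
      have e : a = v • a - (2 * v2) • a := by rw [hv2, add_smul, one_smul]; abel
      conv_lhs => rw [e, ← huv, hu2]
      simp only [zsmul_eq_mul, nsmul_eq_mul]
      push_cast; ring
    · obtain ⟨u2, hu2⟩ : ∃ u2, u = 2 * u2 + 1 := ⟨u / 2, by omega⟩
      rcases Int.emod_two_eq_zero_or_one v with hv | hv
      · -- v even: c even
        obtain ⟨v2, hv2⟩ : (2:ℤ) ∣ v := Int.dvd_of_emod_eq_zero hv
        refine ⟨v2 • a - u2 • c, sub_mem (J.zsmul_mem ha _) (J.zsmul_mem hc _), 0, by norm_num, ?_⟩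
        have e : c = u • c - (2 * u2) • c := by rw [hu2, add_smul, one_smul]; abel
        conv_lhs => rw [e, huv, hv2]
        simp only [zsmul_eq_mul, nsmul_eq_mul]
        push_cast; ring
      · -- v odd
        obtain ⟨v2, hv2⟩ : ∃ v2, v = 2 * v2 + 1 := ⟨v / 2, by omega⟩
        refine ⟨v2 • a - u2 • c, sub_mem (J.zsmul_mem ha _) (J.zsmul_mem hc _), 1, by norm_num, ?_⟩
        have e : c = u • c - (2 * u2) • c := by rw [hu2, add_smul, one_smul]; abel
        conv_lhs => rw [e, huv, hv2]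
        simp only [zsmul_eq_mul, nsmul_eq_mul]
        push_cast; ring

/-! ### Polynomials of the shape `a + b X^(k+1)` -/

/-- `a + b X^(k+1)` -/
noncomputable def pol (k : ℕ) (a b : ℚ) : ℚ[X] := C a + C b * X ^ (k+1)

theorem pol_coeff0 (k : ℕ) (a b : ℚ) : (pol k a b).coeff 0 = a := by
  simp [pol, coeff_X_pow]

theorem pol_coeffk (k : ℕ) (a b : ℚ) : (pol k a b).coeff (k+1) = b := by
  simp [pol]

theorem pol_coeff_ne (k n : ℕ) (a b : ℚ) (h : n ≠ k) : (pol k a b).coeff (n+1) = 0 := by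
  simp [pol, coeff_X_pow, h]

theorem pol_inj {k : ℕ} {a b a' b' : ℚ} (h : pol k a b = pol k a' b') : a = a' ∧ b = b' := by
  constructor
  · rw [← pol_coeff0 k a b, h, pol_coeff0]
  · rw [← pol_coeffk k a b, h, pol_coeffk]

theorem pol_add (k : ℕ) (a b a' b' : ℚ) : pol k a b + pol k a' b' = pol k (a + a') (b + b') := by
  simp only [pol, C_add]; ring

theorem pol_smul (k : ℕ) (q a b : ℚ) : C q * pol k a b = pol k (q * a) (q * b) := by
  simp only [pol, C_mul]; ring

theorem pol_natDegree (k : ℕ) (a b : ℚ) : (pol k a b).natDegree ≤ k + 1 := by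
  unfold pol
  apply (natDegree_add_le _ _).trans
  apply max_le
  · simp
  · exact natDegree_C_mul_X_pow_le _ _

variable {D : Data}

/-- shape of admissible vectors parallel to an indicator -/
theorem PP.shape {P : ℕ → ℚ[X]} (hP : PP D P) {E : Finset ℕ} {k : ℕ} (hk : A k = E)
    (hE : E.Nonempty) (hpar : ParE E P) :
    ∃ (a : ℤ) (b : ℚ), (b ≠ 0 → ∃ c, D.Spec E c ∧ Zloc (D.pr c) b) ∧ ∀ i ∈ E, P i = pol k a b := by
  obtain ⟨b, hb, hb'⟩ := hP.spec k
  rw [hk] at hb hb'
  obtain ⟨i0, hi0⟩ := hE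
  obtain ⟨a, ha⟩ := hP.int0 i0
  refine ⟨a, b, hb, fun i hi => ?_⟩
  rw [hpar.2 i hi i0 hi0]
  ext n
  rcases n with _ | n
  · rw [ha, pol_coeff0]
  · by_cases hn : n = k
    · subst hn
      rw [hb', pol_coeffk, ind_mem hi0, mul_one]
    · rw [pol_coeff_ne _ _ _ _ hn]
      obtain ⟨b1, hb1, hb1'⟩ := hP.spec n
      rw [hb1']
      by_cases hb0 : b1 = 0
      · rw [hb0, zero_mul]
      · exfalso
        obtain ⟨c, hc, _⟩ := hb1 hb0
        have : A n = A k := by
          rw [hk]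
          apply ind_parallel (D.ne _ _ hc) ⟨i0, hi0⟩
          intro i j
          have hvec : ∀ i, (P i).coeff (n+1) * ind E i0 = (P i0).coeff (n+1) * ind E i := by
            intro i
            by_cases hi : i ∈ E
            · rw [hpar.2 i hi i0 hi0, ind_mem hi0, ind_mem hi]
            · rw [hpar.1 i hi, ind_not_mem hi, coeff_zero]; ring
          rw [ind_mem hi0] at hvec
          have hi := hvec i
          have hj := hvec j
          rw [hb1', hb1', mul_one, mul_assoc] at hi hj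
          have hi2 := mul_left_cancel₀ hb0 hi
          have hj2 := mul_left_cancel₀ hb0 hj
          rw [hi2, hj2]; ring
        exact hn (A_inj this)

/-- membership of monomial type vectors -/
theorem PP.of_pol {E : Finset ℕ} {c k : ℕ} (hc : D.Spec E c) (hk : A k = E) (a : ℤ) (b : ℚ)
    (hb : Zloc (D.pr c) b) : PP D (fun i => if i ∈ E then pol k a b else 0) where
  int0 i := by
    by_cases hi : i ∈ E
    · exact ⟨a, by rw [if_pos hi, pol_coeff0]⟩
    · exact ⟨0, by rw [if_neg hi]; simp⟩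
  spec n := by
    by_cases hn : n = k
    · subst hn
      refine ⟨b, fun _ => ⟨c, by rw [hk]; exact hc, hb⟩, fun i => ?_⟩
      by_cases hi : i ∈ E
      · rw [if_pos hi, pol_coeffk, hk, ind_mem hi, mul_one]
      · rw [if_neg hi, hk, ind_not_mem hi, coeff_zero, mul_zero]
    · refine ⟨0, fun h => absurd rfl h, fun i => ?_⟩
      by_cases hi : i ∈ E
      · rw [if_pos hi, pol_coeff_ne _ _ _ _ hn, zero_mul]
      · rw [if_neg hi, coeff_zero, zero_mul]
  bdd := ⟨k + 1, fun i => by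
    by_cases hi : i ∈ E
    · rw [if_pos hi]; exact pol_natDegree _ _ _
    · rw [if_neg hi]; simp⟩

/-- constant integer vectors are admissible -/
theorem PP.const (v : ℕ → ℤ) : PP D (fun i => C (v i : ℚ)) where
  int0 i := ⟨v i, by simp⟩
  spec n := ⟨0, fun h => absurd rfl h, fun i => by rw [coeff_C_succ, zero_mul]⟩
  bdd := ⟨0, fun i => by simp⟩

end Pool.Agent.Lib.MP_32acdc_lc
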