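import Mathlib
import Pool.Agent.Lib.MP_32acdc_lc.Types

/-!
# Special roots and their exponent groups
-/

namespace Pool.Agent.Lib.MP_32acdc_lc

open Filter Polynomial

theorem exists_cQ_pol (k : ℕ) (a : ℤ) (b : ℚ) : ∃ s : SZ, cQ s = ev (pol k a b) := by
  obtain ⟨t, ht⟩ := exists_cQ_mon b k
  refine ⟨(a : SZ) + t, ?_⟩
  rw [map_add, ht, cQ_int, pol, map_add]

/-- the exponent vector of `r` is `c0` times the indicator of `E` -/
def SpRoot (r : SF) (E : Finset ℕ) (c0 : ℤ) : Prop :=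
  c0 ≠ 0 ∧ ∀ i, exS i r = if i ∈ E then (c0 : SZ) else 0

variable {D : Data}

theorem mem_J_special {r : SF} {E : Finset ℕ} {c k : ℕ} {c0 : ℤ} (hc : D.Spec E c)
    (hk : A k = E) (hr : SpRoot r E c0) (s : SZ) :
    s ∈ J D r ↔ ∃ (a : ℤ) (b : ℚ), Zloc (D.pr c) b ∧ cQ s = ev (pol k a (b / c0)) := by
  have hE := D.ne _ _ hc
  have hc0 : (c0 : ℚ) ≠ 0 := by exact_mod_cast hr.1
  rw [mem_J]
  constructor
  · rintro ⟨P, hP, h⟩
    have hpar : ParE E P := by
      refine ⟨fun i hi => ?_, fun i hi j hj => ?_⟩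
      · apply ev_inj
        rw [← h i, hr.2, if_neg hi, mul_zero, map_zero, map_zero]
      · apply ev_inj
        rw [← h i, ← h j, hr.2, hr.2, if_pos hi, if_pos hj]
    obtain ⟨a, b, hb, hab⟩ := hP.shape hk hE hpar
    obtain ⟨i0, hi0⟩ := hE
    have h1 : cQ s * ev (C (c0 : ℚ)) = ev (pol k a b) := by
      rw [← cQ_int, ← map_mul, ← hab i0 hi0, ← h i0, hr.2, if_pos hi0]
    have h2 : cQ s = ev (pol k (a / c0) (b / c0)) := by
      have h3 : pol k a b = pol k (a / c0) (b / c0) * C (c0 : ℚ) := by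
        rw [mul_comm, pol_smul]
        congr 1 <;> field_simp
      rw [h3, map_mul] at h1
      have h4 : ev (C (c0 : ℚ)) ≠ 0 := by
        intro h0
        have : C (c0 : ℚ) = 0 := ev_inj (by rw [h0, map_zero])
        exact hc0 (by simpa using this)
      exact mul_right_cancel₀ h4 h1
    obtain ⟨t, ht⟩ := exists_cQ_mon (b / c0) k
    have h5 : cQ (s - t) = ev (C ((a : ℚ) / c0)) := by
      rw [map_sub, h2, ht, ← map_sub, pol]; congr 1; ring
    obtain ⟨a', ha'⟩ := std_int _ _ h5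
    refine ⟨a', b, ?_, ?_⟩
    · by_cases hb0 : b = 0
      · rw [hb0]; exact_mod_cast Zloc.int _ 0
      · obtain ⟨c', hc', hz⟩ := hb hb0
        rw [D.uniq _ _ _ hc hc']; exact hz
    · rw [h2, ha']
  · rintro ⟨a, b, hb, hs⟩
    refine ⟨_, PP.of_pol hc hk (c0 * a) b hb, fun i => ?_⟩
    rw [hr.2]
    by_cases hi : i ∈ E
    · rw [if_pos hi, if_pos hi, map_mul, hs, cQ_int, ← map_mul]
      congr 1
      rw [mul_comm, pol_smul]
      congr 1
      · push_cast; ring
      · field_simp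
    · rw [if_neg hi, if_neg hi, mul_zero, map_zero, map_zero]

theorem cycA_special {r : SF} {E : Finset ℕ} {c : ℕ} {c0 : ℤ} (hc : D.Spec E c)
    (hr : SpRoot r E c0) : CycA (D.pr c) (J D r) := by
  obtain ⟨k, hk⟩ := A_surj E
  have hp := (D.prime c).pos
  have hc0 : (c0 : ℚ) ≠ 0 := by exact_mod_cast hr.1
  have hmem := mem_J_special hc hk hr
  refine ⟨1, (hmem 1).2 ⟨1, 0, by exact_mod_cast Zloc.int _ 0, ?_⟩, fun s hs => ?_⟩
  · rw [map_one, pol]; simp
  · obtain ⟨a, b, hb, hs⟩ := (hmem s).1 hs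
    obtain ⟨d, hd⟩ := exists_cQ_pol k (a / (D.pr c : ℤ)) ((b / D.pr c) / c0)
    refine ⟨d, (hmem d).2 ⟨_, _, hb.div hp.ne', hd⟩, (a % (D.pr c : ℤ)).toNat, ?_, ?_⟩
    · have h1 := Int.emod_nonneg a (b := (D.pr c : ℤ)) (by exact_mod_cast hp.ne')
      have h2 := Int.emod_lt_of_pos a (b := (D.pr c : ℤ)) (by exact_mod_cast hp)
      omega
    · apply cQ_inj
      have h1 := Int.emod_nonneg a (b := (D.pr c : ℤ)) (by exact_mod_cast hp.ne')
      rw [hs, map_add, map_nsmul, map_nsmul, hd, map_one, nsmul_eq_mul, nsmul_eq_mul, mul_one]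
      have e1 : (((a % (D.pr c : ℤ)).toNat : ℕ) : SQ) = ev (C ((a % (D.pr c : ℤ) : ℤ) : ℚ)) := by
        rw [← cQ_int, map_intCast]
        have : ((a % (D.pr c : ℤ)).toNat : ℤ) = a % (D.pr c : ℤ) := Int.toNat_of_nonneg h1
        rw [← this]; push_cast; rw [this]
      have e2 : ((D.pr c : ℕ) : SQ) = ev (C ((D.pr c : ℤ) : ℚ)) := by
        rw [← cQ_int, map_intCast]; push_cast; rfl
      rw [e1, e2, ← map_mul, pol_smul, ← map_add]
      congr 1
      have e3 : C ((a % (D.pr c : ℤ) : ℤ) : ℚ) = pol k ((a % (D.pr c : ℤ) : ℤ) : ℚ) 0 := by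
        simp [pol]
      rw [e3, pol_add]
      have hpq : (D.pr c : ℚ) ≠ 0 := by exact_mod_cast hp.ne'
      congr 1
      · have := Int.emod_add_mul_ediv a (D.pr c : ℤ)
        rw [← Int.cast_mul, ← Int.cast_add, this]
      · push_cast; field_simp; ring

theorem not_cycA_special {r : SF} {E : Finset ℕ} {c : ℕ} {c0 : ℤ} (hc : D.Spec E c)
    (hr : SpRoot r E c0) (q : ℕ) (hq : q.Prime) (hne : q ≠ D.pr c) : ¬ CycA q (J D r) := by
  obtain ⟨k, hk⟩ := A_surj E
  have hc0 : (c0 : ℚ) ≠ 0 := by exact_mod_cast hr.1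
  have hmem := mem_J_special hc hk hr
  rintro ⟨s, hs, H⟩
  obtain ⟨a0, b0, _, hs0⟩ := (hmem s).1 hs
  have key : ∀ (a : ℤ) (b : ℚ), Zloc (D.pr c) b → ∃ (j : ℕ) (a1 : ℤ) (b1 : ℚ), j < q ∧
      Zloc (D.pr c) b1 ∧ (a : ℚ) = j * a0 + q * a1 ∧ b = j * b0 + q * b1 := by
    intro a b hb
    obtain ⟨x, hx⟩ := exists_cQ_pol k a (b / c0)
    obtain ⟨d, hd, j, hj, hxd⟩ := H x ((hmem x).2 ⟨a, b, hb, hx⟩)
    obtain ⟨a1, b1, hb1, hd1⟩ := (hmem d).1 hd
    refine ⟨j, a1, b1, hj, hb1, ?_⟩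
    have h1 : ev (pol k a (b / c0)) = ev (pol k (j * a0 + q * a1) ((j * b0 + q * b1) / c0)) := by
      rw [← hx, hxd, map_add, map_nsmul, map_nsmul, hs0, hd1, nsmul_eq_mul, nsmul_eq_mul]
      have e1 : ((j : ℕ) : SQ) = ev (C ((j : ℤ) : ℚ)) := by
        rw [← cQ_int, map_intCast]; push_cast; rfl
      have e2 : ((q : ℕ) : SQ) = ev (C ((q : ℤ) : ℚ)) := by
        rw [← cQ_int, map_intCast]; push_cast; rfl
      rw [e1, e2, ← map_mul, ← map_mul, pol_smul, pol_smul, ← map_add, pol_add]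
      congr 2
      field_simp; push_cast; ring
    obtain ⟨h2, h3⟩ := pol_inj (ev_inj h1)
    refine ⟨h2, ?_⟩
    field_simp at h3
    linarith
  obtain ⟨j1, a1, b1, hj1, _, e1, _⟩ := key 1 0 (by exact_mod_cast Zloc.int _ 0)
  obtain ⟨j2, a2, b2, hj2, hb2, e2, e2'⟩ := key 0 1 (by exact_mod_cast Zloc.int _ 1)
  have e1' : (1 : ℤ) = j1 * a0 + q * a1 := by exact_mod_cast e1
  have e2'' : (0 : ℤ) = j2 * a0 + q * a2 := by exact_mod_cast e2
  have hqp : Prime (q : ℤ) := Nat.prime_iff_prime_int.1 hq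
  have hqa : ¬ (q : ℤ) ∣ a0 := by
    rintro ⟨x, hx⟩
    apply hqp.not_dvd_one
    exact ⟨j1 * x + a1, by rw [e1', hx]; ring⟩
  have hqj : (q : ℤ) ∣ j2 := by
    have : (q : ℤ) ∣ j2 * a0 := ⟨-a2, by linarith⟩
    exact (hqp.dvd_or_dvd this).resolve_right hqa
  have hj0 : j2 = 0 := by
    have h1 : q ∣ j2 := by exact_mod_cast hqj
    exact Nat.eq_zero_of_dvd_of_lt h1 hj2
  rw [hj0] at e2'
  obtain ⟨e, u, hu⟩ := hb2
  have h5 : ((D.pr c : ℚ)) ^ e = q * u := by
    have : (1 : ℚ) = q * b2 := by rw [e2']; push_cast; ring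
    rw [← hu, ← mul_assoc, ← this, one_mul]
  have h6 : (q : ℤ) ∣ (D.pr c : ℤ) ^ e := ⟨u, by exact_mod_cast h5⟩
  have h7 : q ∣ (D.pr c) ^ e := by exact_mod_cast h6
  exact hne ((Nat.prime_dvd_prime_iff_eq hq (D.prime c)).1 (hq.dvd_of_dvd_pow h7))

/-- If the exponent group is not cyclic modulo 2 then the root is special. -/
theorem special_of_not_cyc {r : SF} (h2 : ¬ CycA 2 (J D r)) :
    ∃ E c c0, D.Spec E c ∧ SpRoot r E c0 := by
  -- the exponent vector is nonzero
  have hρ : ∃ i, exS i r ≠ 0 := by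
    by_contra hcon
    push Not at hcon
    apply h2
    have htop : ∀ s, s ∈ J D r := by
      intro s
      rw [mem_J]
      exact ⟨_, PP.zero, fun i => by rw [hcon, mul_zero, map_zero, map_zero]⟩
    refine ⟨1, htop _, fun s _ => ?_⟩
    obtain ⟨d, j, hj, h⟩ := parity s
    exact ⟨d, htop _, j, hj, h⟩
  obtain ⟨i0, hi0⟩ := hρ
  -- an independent pair
  have hind : ∃ n ∈ J D r, ∃ m ∈ J D r, ∀ u v : ℤ, u • n = v • m → u = 0 ∧ v = 0 := by
    by_contra hcon
    push Not at hcon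
    apply h2
    apply cycA_rank_one
    intro x hx y hy
    obtain ⟨u, v, huv, hne⟩ := hcon x hx y hy
    refine ⟨u, v, ?_, huv⟩
    by_cases hu : u = 0
    · exact Or.inr (hne hu)
    · exact Or.inl hu
  obtain ⟨n, hn, m, hm, hind⟩ := hind
  have hn0 : n ≠ 0 := by
    rintro rfl
    exact one_ne_zero (hind 1 0 (by simp)).1
  have hm0 : m ≠ 0 := by
    rintro rfl
    exact one_ne_zero (hind 0 1 (by simp)).2
  obtain ⟨P, hP, hPe⟩ := mem_J.1 hn
  obtain ⟨Q, hQ, hQe⟩ := mem_J.1 hm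
  have hz : ∀ x : SZ, cQ x = 0 → x = 0 := fun x hx => cQ_inj (by rw [hx, map_zero])
  have hP0 : ∃ i, P i ≠ 0 := by
    refine ⟨i0, fun h0 => ?_⟩
    have := hPe i0
    rw [h0, map_zero] at this
    rcases SZ_domain (hz _ this) with h | h
    · exact hn0 h
    · exact hi0 h
  have hQ0 : ∃ i, Q i ≠ 0 := by
    refine ⟨i0, fun h0 => ?_⟩
    have := hQe i0
    rw [h0, map_zero] at this
    rcases SZ_domain (hz _ this) with h | h
    · exact hm0 h
    · exact hi0 h
  have hpar : ∀ i j, P i * Q j = P j * Q i := by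
    intro i j
    apply ev_inj
    rw [map_mul, map_mul, ← hPe, ← hPe, ← hQe, ← hQe, ← map_mul, ← map_mul]
    congr 1
    ring
  -- clearing denominators
  have hdep : ∀ u v : ℚ, (u ≠ 0 ∨ v ≠ 0) → ev (C u) * cQ n = ev (C v) * cQ m → False := by
    intro u v hne huv
    have h3 : ((u.num * v.den : ℤ) • n : SZ) = ((v.num * u.den : ℤ) • m : SZ) := by
      apply cQ_inj
      rw [map_zsmul, map_zsmul, zsmul_eq_mul, zsmul_eq_mul]
      have e1 : (((u.num * v.den : ℤ)) : SQ) = ev (C (v.den * u.den : ℚ)) * ev (C u) := by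
        rw [← map_intCast cQ, cQ_int, ← map_mul, ← C_mul]
        congr 2
        push_cast
        rw [← Rat.mul_den_eq_num u]; ring
      have e2 : (((v.num * u.den : ℤ)) : SQ) = ev (C (v.den * u.den : ℚ)) * ev (C v) := by
        rw [← map_intCast cQ, cQ_int, ← map_mul, ← C_mul]
        congr 2
        push_cast
        rw [← Rat.mul_den_eq_num v]; ring
      rw [e1, e2, mul_assoc, mul_assoc, huv]
    obtain ⟨h4, h5⟩ := hind _ _ h3
    have hu0 : u = 0 := by
      rcases mul_eq_zero.1 h4 with h | h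
      · exact Rat.num_eq_zero.1 h
      · exact absurd (by exact_mod_cast h) v.den_nz
    have hv0 : v = 0 := by
      rcases mul_eq_zero.1 h5 with h | h
      · exact Rat.num_eq_zero.1 h
      · exact absurd (by exact_mod_cast h) u.den_nz
    rcases hne with h | h
    · exact h hu0
    · exact h hv0
  rcases classify D.ne hP.toPQ hQ.toPQ hP0 hQ0 hpar with ⟨u, v, hu, hv, huv⟩ | ⟨E, c, hc, hPE, hQE⟩
  · exfalso
    apply hdep u v (Or.inl hu)
    have h1 := congrArg ev (huv i0)
    rw [map_mul, map_mul, ← hPe, ← hQe, map_mul, map_mul, ← mul_assoc, ← mul_assoc] at h1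
    have h2 : cQ (exS i0 r) ≠ 0 := fun h => hi0 (hz _ h)
    exact mul_right_cancel₀ h2 h1
  · -- parallel to the indicator of E
    obtain ⟨k, hk⟩ := A_surj E
    have hE := D.ne _ _ hc
    have hout : ∀ i, i ∉ E → exS i r = 0 := by
      intro i hi
      have := hPe i
      rw [hPE.1 i hi, map_zero] at this
      exact (SZ_domain (hz _ this)).resolve_left hn0
    have hin : ∀ i ∈ E, ∀ j ∈ E, exS i r = exS j r := by
      intro i hi j hj
      have h1 := hPe i
      rw [hPE.2 i hi j hj, ← hPe j] at h1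
      have h2 := cQ_inj h1
      have h3 : n * (exS i r - exS j r) = 0 := by rw [mul_sub, h2, sub_self]
      exact sub_eq_zero.1 ((SZ_domain h3).resolve_left hn0)
    have hi0E : i0 ∈ E := by
      by_contra h
      exact hi0 (hout i0 h)
    obtain ⟨a, b, _, hab⟩ := hP.shape hk hE hPE
    obtain ⟨a', b', _, hab'⟩ := hQ.shape hk hE hQE
    have e1 : cQ n * cQ (exS i0 r) = ev (pol k a b) := by
      rw [← map_mul, hPe, hab i0 hi0E]
    have e2 : cQ m * cQ (exS i0 r) = ev (pol k a' b') := by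
      rw [← map_mul, hQe, hab' i0 hi0E]
    have hcne : cQ (exS i0 r) ≠ 0 := fun h => hi0 (hz _ h)
    -- the determinant
    have hdet : (b' * a - b * a' : ℚ) ≠ 0 := by
      intro hdet
      by_cases hb : b = 0 ∧ b' = 0
      · obtain ⟨rfl, rfl⟩ := hb
        have ha : (a : ℚ) ≠ 0 := by
          intro ha
          rw [ha] at e1
          have : pol k 0 0 = 0 := by simp [pol]
          rw [this, map_zero] at e1
          rcases mul_eq_zero.1 e1 with h | h
          · exact hn0 (hz _ h)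
          · exact hcne h
        apply hdep a' a (Or.inr ha)
        apply mul_right_cancel₀ hcne
        rw [mul_assoc, mul_assoc, e1, e2, ← map_mul, ← map_mul, pol_smul, pol_smul]
        congr 2
        · ring
        · ring
      · apply hdep b' b (by
          by_cases hb' : b = 0
          · left; intro h; exact hb ⟨hb', h⟩
          · right; exact hb')
        apply mul_right_cancel₀ hcne
        rw [mul_assoc, mul_assoc, e1, e2, ← map_mul, ← map_mul, pol_smul, pol_smul]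
        congr 2
        · linarith
        · ring
    -- (b' n - b m) * c = det
    have e3 : (ev (C b') * cQ n - ev (C b) * cQ m) * cQ (exS i0 r) =
        ev (C (b' * a - b * a')) := by
      rw [sub_mul, mul_assoc, mul_assoc, e1, e2, ← map_mul, ← map_mul, pol_smul, pol_smul,
        ← map_sub]
      congr 1
      simp only [pol, C_sub]
      rw [mul_comm b b']
      ring
    -- multiply by the denominators
    have e4 : cQ ((((b'.num * b.den : ℤ) • n - (b.num * b'.den : ℤ) • m)) * exS i0 r) =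
        ev (C ((b.den * b'.den) * (b' * a - b * a'))) := by
      rw [map_mul, map_sub, map_zsmul, map_zsmul, zsmul_eq_mul, zsmul_eq_mul]
      have f1 : (((b'.num * b.den : ℤ)) : SQ) = ev (C (b.den * b'.den : ℚ)) * ev (C b') := by
        rw [← map_intCast cQ, cQ_int, ← map_mul, ← C_mul]
        congr 2
        push_cast
        rw [← Rat.mul_den_eq_num b']; ring
      have f2 : (((b.num * b'.den : ℤ)) : SQ) = ev (C (b.den * b'.den : ℚ)) * ev (C b) := by
        rw [← map_intCast cQ, cQ_int, ← map_mul, ← C_mul]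
        congr 2
        push_cast
        rw [← Rat.mul_den_eq_num b]; ring
      have f3 : ev (C ((b.den * b'.den) * (b' * a - b * a'))) =
          ev (C (b.den * b'.den : ℚ)) * ev (C (b' * a - b * a')) := by
        rw [← map_mul, ← C_mul]
      rw [f1, f2, f3, ← e3]
      ring
    obtain ⟨z, hz'⟩ := std_int _ _ e4
    have hzne : z ≠ 0 := by
      rintro rfl
      apply hdet
      have hden : ((b.den : ℚ) * b'.den) ≠ 0 := by
        have h1 := b.den_nz
        have h2 := b'.den_nz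
        positivity
      have h0 : (b.den : ℚ) * b'.den * (b' * a - b * a') = 0 := by rw [hz']; simp
      exact (mul_eq_zero.1 h0).resolve_left hden
    rw [hz', ← cQ_int] at e4
    have e5 := cQ_inj e4
    rw [mul_comm] at e5
    obtain ⟨c0, hc0⟩ := std_of_dvd _ _ z hzne e5
    refine ⟨E, c, c0, hc, ?_, fun i => ?_⟩
    · rintro rfl
      apply hi0; rw [hc0]; simp
    · by_cases hi : i ∈ E
      · rw [if_pos hi, hin i hi i0 hi0E, hc0]
      · rw [if_neg hi, hout i hi]

end Pool.Agent.Lib.MP_32acdc_lc
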