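import Mathlib
import Pool.Agent.Lib.MP_32acdc_lc.Special

/-!
# Interpretation of relational structures in the subgroup
-/

namespace Pool.Agent.Lib.MP_32acdc_lc

open Filter Polynomial

variable {D : Data}

/-- `g` lies on the line of the finite set `E` -/
def Line (g : SF) (E : Finset ℕ) : Prop := ∃ r c0, IsRoot g r ∧ SpRoot r E c0

theorem typ_iff {g : GG D} (c : ℕ) :
    Typ (D.pr c) g ↔ g ≠ 1 ∧ ∃ E, D.Spec E c ∧ Line g E := by
  constructor
  · rintro ⟨h1, h2, h3⟩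
    refine ⟨h1, ?_⟩
    have hg' : (g : SF) ≠ 1 := fun h => h1 (Subtype.ext h)
    obtain ⟨r, hr⟩ := exists_root _ hg'
    rw [cyc_iff h1 hr] at h2 h3
    obtain ⟨E, c', c0, hE, hs⟩ := special_of_not_cyc h2
    have : D.pr c = D.pr c' := by
      by_contra hne
      exact not_cycA_special hE hs _ (D.prime c) hne h3
    have := D.inj this
    subst this
    exact ⟨E, hE, r, c0, hr, hs⟩
  · rintro ⟨h1, E, hE, r, c0, hr, hs⟩
    refine ⟨h1, ?_, ?_⟩
    · rw [cyc_iff h1 hr]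
      exact not_cycA_special hE hs _ Nat.prime_two (D.odd c).symm
    · rw [cyc_iff h1 hr]
      exact cycA_special hE hs

theorem line_of_exS {x : SF} {E : Finset ℕ} (hE : E.Nonempty) {c : ℤ} (hc : c ≠ 0)
    (h : ∀ i, exS i x = if i ∈ E then (c : SZ) else 0) : x ≠ 1 ∧ Line x E := by
  have hcS : (c : SZ) ≠ 0 := by
    intro h0
    have : cQ (c : SZ) = cQ 0 := by rw [h0]
    rw [map_intCast, map_zero] at this
    exact hc (by exact_mod_cast this)
  have hx : x ≠ 1 := by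
    rintro rfl
    obtain ⟨i, hi⟩ := hE
    have := h i
    rw [exS_one, if_pos hi] at this
    exact hcS this.symm
  refine ⟨hx, ?_⟩
  obtain ⟨r, hr⟩ := exists_root x hx
  obtain ⟨t, ht⟩ := (hr x).1 (Commute.refl x)
  have ht0 : t ≠ 0 := by
    rintro rfl
    apply hx; rw [ht, zp_zero]
  have he : ∀ i, t * exS i r = if i ∈ E then (c : SZ) else 0 := by
    intro i
    rw [← exS_zp, ← ht, h]
  obtain ⟨i0, hi0⟩ := hE
  have h1 : exS i0 r * t = (c : SZ) := by
    rw [mul_comm, he, if_pos hi0]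
  obtain ⟨c0, hc0⟩ := std_of_dvd _ _ c hc h1
  refine ⟨r, c0, hr, ?_, fun i => ?_⟩
  · rintro rfl
    rw [hc0] at h1
    apply hcS
    rw [← h1]; simp
  · by_cases hi : i ∈ E
    · rw [if_pos hi, ← hc0]
      have h2 : t * (exS i r - exS i0 r) = 0 := by
        rw [mul_sub, he, he, if_pos hi, if_pos hi0, sub_self]
      exact sub_eq_zero.1 ((SZ_domain h2).resolve_left ht0)
    · rw [if_neg hi]
      have h2 : t * exS i r = 0 := by rw [he, if_neg hi]
      exact (SZ_domain h2).resolve_left ht0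

theorem mem_GG_of_int {x : SF} (v : ℕ → ℤ) (h : ∀ i, exS i x = (v i : SZ)) : x ∈ GG D :=
  mem_GG.2 ⟨_, PP.const v, fun i => by rw [h, cQ_int]⟩

theorem exists_line (E : Finset ℕ) (hE : E.Nonempty) : ∃ g : GG D, g ≠ 1 ∧ Line g E := by
  obtain ⟨x, hx⟩ := exists_ind E
  have h1 : ∀ i, exS i ((fun _ => x : ℕ → FreeGroup ℕ) : SF) = if i ∈ E then ((1:ℤ) : SZ) else 0 := by
    intro i
    rw [exS_coe, hx]
    by_cases hi : i ∈ E
    · rw [if_pos hi, if_pos hi]; rfl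
    · rw [if_neg hi, if_neg hi]; rfl
  obtain ⟨h2, h3⟩ := line_of_exS hE one_ne_zero h1
  have h4 : ((fun _ => x : ℕ → FreeGroup ℕ) : SF) ∈ GG D := by
    apply mem_GG_of_int (fun i => if i ∈ E then 1 else 0)
    intro i
    rw [h1]
    by_cases hi : i ∈ E
    · simp [hi]
    · simp [hi]
  refine ⟨⟨((fun _ => x : ℕ → FreeGroup ℕ) : SF), h4⟩, ?_, h3⟩
  intro h
  exact h2 (congrArg Subtype.val h)

/-- the four-fold product predicate -/
def Quad {G : Type*} [Group G] (p : ℕ) (x y z w : G) : Prop :=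
  ∃ a, a * x = x * a ∧ ∃ b, b * y = y * b ∧ ∃ c, c * z = z * c ∧ ∃ d, d * w = w * d ∧
    Typ p (a * b * c * d)

/-- single indicator, integer valued -/
def ind1 (e i : ℕ) : ℤ := if i = e then 1 else 0

theorem exists_coeffs (E : Finset ℕ) (e1 e2 e3 e4 : ℕ)
    (h : ∀ i ∈ E, i = e1 ∨ i = e2 ∨ i = e3 ∨ i = e4) :
    ∃ m1 m2 m3 m4 : ℤ, ∀ i, m1 * ind1 e1 i + m2 * ind1 e2 i + m3 * ind1 e3 i + m4 * ind1 e4 i =
      if i ∈ E then 1 else 0 := by
  refine ⟨if e1 ∈ E then 1 else 0, if e2 ∈ E ∧ e2 ≠ e1 then 1 else 0,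
    if e3 ∈ E ∧ e3 ≠ e1 ∧ e3 ≠ e2 then 1 else 0,
    if e4 ∈ E ∧ e4 ≠ e1 ∧ e4 ≠ e2 ∧ e4 ≠ e3 then 1 else 0, fun i => ?_⟩
  unfold ind1
  have hi := h i
  by_cases h1 : i = e1
  · subst h1
    by_cases h2 : i = e2
    · subst h2
      by_cases h3 : i = e3
      · subst h3
        by_cases h4 : i = e4
        · subst h4; simp
        · simp [h4]
      · by_cases h4 : i = e4
        · subst h4; simp [h3]
        · simp [h3, h4]
    · by_cases h3 : i = e3
      · subst h3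
        by_cases h4 : i = e4
        · subst h4; simp [h2]
        · simp [h2, h4]
      · by_cases h4 : i = e4
        · subst h4; simp [h2, h3]
        · simp [h2, h3, h4]
  · by_cases h2 : i = e2
    · subst h2
      by_cases h3 : i = e3
      · subst h3
        by_cases h4 : i = e4
        · subst h4; simp [h1]
        · simp [h1, h4]
      · by_cases h4 : i = e4
        · subst h4; simp [h1, h3]
        · simp [h1, h3, h4]
    · by_cases h3 : i = e3
      · subst h3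
        by_cases h4 : i = e4
        · subst h4; simp [h1, h2]
        · simp [h1, h2, h4]
      · by_cases h4 : i = e4
        · subst h4; simp [h1, h2, h3]
        · have : i ∉ E := fun hh => by
            rcases hi hh with h | h | h | h
            · exact h1 h
            · exact h2 h
            · exact h3 h
            · exact h4 h
          simp [h1, h2, h3, h4, this]

theorem spRoot_single {r : SF} {e : ℕ} {c0 : ℤ} (h : SpRoot r {e} c0) (i : ℕ) :
    exS i r = ((c0 * ind1 e i : ℤ) : SZ) := by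
  rw [h.2 i]
  unfold ind1
  by_cases hi : i = e
  · simp [hi]
  · simp [hi]

theorem quad_iff {x1 x2 x3 x4 : GG D} {e1 e2 e3 e4 : ℕ} (h1 : Line x1 {e1}) (h2 : Line x2 {e2})
    (h3 : Line x3 {e3}) (h4 : Line x4 {e4}) (c : ℕ) :
    Quad (D.pr c) x1 x2 x3 x4 ↔
      ∃ E, D.Spec E c ∧ ∀ i ∈ E, i = e1 ∨ i = e2 ∨ i = e3 ∨ i = e4 := by
  obtain ⟨r1, c1, hr1, hs1⟩ := h1
  obtain ⟨r2, c2, hr2, hs2⟩ := h2
  obtain ⟨r3, c3, hr3, hs3⟩ := h3
  obtain ⟨r4, c4, hr4, hs4⟩ := h4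
  have hcomm : ∀ (x : GG D) (r : SF), IsRoot x r → ∀ a : GG D, a * x = x * a ↔
      ∃ s, (a : SF) = zp r s := by
    intro x r hr a
    constructor
    · intro h
      have : Commute (x : SF) a := (congrArg Subtype.val h).symm
      exact (hr a).1 this
    · rintro ⟨s, hs⟩
      exact Subtype.ext ((hr a).2 ⟨s, hs⟩).symm
  constructor
  · rintro ⟨a1, ha1, a2, ha2, a3, ha3, a4, ha4, ht⟩
    rw [typ_iff] at ht
    obtain ⟨hne, E, hE, r, c0, hr, hs⟩ := ht
    refine ⟨E, hE, fun i hi => ?_⟩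
    by_contra hcon
    push Not at hcon
    obtain ⟨n1, n2, n3, n4⟩ := hcon
    obtain ⟨s1, hs1'⟩ := (hcomm x1 r1 hr1 a1).1 ha1
    obtain ⟨s2, hs2'⟩ := (hcomm x2 r2 hr2 a2).1 ha2
    obtain ⟨s3, hs3'⟩ := (hcomm x3 r3 hr3 a3).1 ha3
    obtain ⟨s4, hs4'⟩ := (hcomm x4 r4 hr4 a4).1 ha4
    have hz : exS i ((a1 * a2 * a3 * a4 : GG D) : SF) = 0 := by
      simp only [Subgroup.coe_mul]
      rw [exS_mul, exS_mul, exS_mul, hs1', hs2', hs3', hs4', exS_zp, exS_zp, exS_zp, exS_zp,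
        spRoot_single hs1, spRoot_single hs2, spRoot_single hs3, spRoot_single hs4]
      unfold ind1
      simp [n1, n2, n3, n4]
    obtain ⟨t, ht⟩ := (hr _).1 (Commute.refl ((a1 * a2 * a3 * a4 : GG D) : SF))
    have ht0 : t ≠ 0 := by
      rintro rfl
      apply hne
      apply Subtype.ext
      rw [ht, zp_zero]; rfl
    rw [ht, exS_zp, hs.2, if_pos hi] at hz
    rcases SZ_domain hz with h | h
    · exact ht0 h
    · have h6 : cQ (c0 : SZ) = cQ 0 := by rw [h]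
      rw [map_intCast, map_zero] at h6
      exact hs.1 (by exact_mod_cast h6)
  · rintro ⟨E, hE, hsub⟩
    obtain ⟨m1, m2, m3, m4, hm⟩ := exists_coeffs E e1 e2 e3 e4 hsub
    -- the exponents
    have hmem : ∀ (r : SF) (e : ℕ) (ck m : ℤ), SpRoot r {e} ck → zp r (m : SZ) ∈ GG D := by
      intro r e ck m hs
      apply mem_GG_of_int (fun i => m * (ck * ind1 e i))
      intro i
      rw [exS_zp, spRoot_single hs]; push_cast; ring
    have key := typ_iff (D := D)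
      (g := ⟨zp r1 ((m1 * (c2 * c3 * c4) : ℤ) : SZ), hmem _ _ _ _ hs1⟩ *
        ⟨zp r2 ((m2 * (c1 * c3 * c4) : ℤ) : SZ), hmem _ _ _ _ hs2⟩ *
        ⟨zp r3 ((m3 * (c1 * c2 * c4) : ℤ) : SZ), hmem _ _ _ _ hs3⟩ *
        ⟨zp r4 ((m4 * (c1 * c2 * c3) : ℤ) : SZ), hmem _ _ _ _ hs4⟩) c
    refine ⟨_, (hcomm x1 r1 hr1 _).2 ⟨_, rfl⟩, _, (hcomm x2 r2 hr2 _).2 ⟨_, rfl⟩,
      _, (hcomm x3 r3 hr3 _).2 ⟨_, rfl⟩, _, (hcomm x4 r4 hr4 _).2 ⟨_, rfl⟩, key.2 ?_⟩
    have hprod : c1 * c2 * c3 * c4 ≠ 0 :=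
      mul_ne_zero (mul_ne_zero (mul_ne_zero hs1.1 hs2.1) hs3.1) hs4.1
    have hex : ∀ i, exS i (zp r1 ((m1 * (c2 * c3 * c4) : ℤ) : SZ) *
        zp r2 ((m2 * (c1 * c3 * c4) : ℤ) : SZ) * zp r3 ((m3 * (c1 * c2 * c4) : ℤ) : SZ) *
        zp r4 ((m4 * (c1 * c2 * c3) : ℤ) : SZ)) =
        if i ∈ E then ((c1 * c2 * c3 * c4 : ℤ) : SZ) else 0 := by
      intro i
      rw [exS_mul, exS_mul, exS_mul, exS_zp, exS_zp, exS_zp, exS_zp,
        spRoot_single hs1, spRoot_single hs2, spRoot_single hs3, spRoot_single hs4]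
      have e : (m1 * (c2 * c3 * c4)) * (c1 * ind1 e1 i) + (m2 * (c1 * c3 * c4)) * (c2 * ind1 e2 i) +
          (m3 * (c1 * c2 * c4)) * (c3 * ind1 e3 i) + (m4 * (c1 * c2 * c3)) * (c4 * ind1 e4 i) =
          if i ∈ E then c1 * c2 * c3 * c4 else 0 := by
        have := hm i
        have h5 : (m1 * (c2 * c3 * c4)) * (c1 * ind1 e1 i) + (m2 * (c1 * c3 * c4)) * (c2 * ind1 e2 i) +
          (m3 * (c1 * c2 * c4)) * (c3 * ind1 e3 i) + (m4 * (c1 * c2 * c3)) * (c4 * ind1 e4 i) =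
          (c1 * c2 * c3 * c4) * (m1 * ind1 e1 i + m2 * ind1 e2 i + m3 * ind1 e3 i + m4 * ind1 e4 i) := by
          ring
        rw [h5, this]
        by_cases hi : i ∈ E
        · simp [hi]
        · simp [hi]
      rw [← Int.cast_mul, ← Int.cast_mul, ← Int.cast_mul, ← Int.cast_mul, ← Int.cast_add,
        ← Int.cast_add, ← Int.cast_add, e]
      by_cases hi : i ∈ E
      · simp [hi]
      · simp [hi]
    obtain ⟨hne, hline⟩ := line_of_exS (D.ne _ _ hE) hprod hex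
    refine ⟨fun h => hne (congrArg Subtype.val h), E, hE, hline⟩

end Pool.Agent.Lib.MP_32acdc_lc
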