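import Mathlib
import Pool.Agent.Lib.MP_32acdc_lc.Defs

/-!
# First-order formulas in the language of groups
-/

namespace Pool.Agent.Lib.MP_32acdc_lc

/-! ### Injectivity of the Gödel numbering -/

theorem Tm.code_inj : ∀ s t : Tm, s.code = t.code → s = t
  | .var n, .var m, h => by simp only [Tm.code] at h; congr 1; omega
  | .var n, .one, h => by simp only [Tm.code] at h; omega
  | .var n, .inv t, h => by simp only [Tm.code] at h; omega
  | .var n, .mul s t, h => by simp only [Tm.code] at h; omega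
  | .one, .var m, h => by simp only [Tm.code] at h; omega
  | .one, .one, _ => rfl
  | .one, .inv t, h => by simp only [Tm.code] at h; omega
  | .one, .mul s t, h => by simp only [Tm.code] at h; omega
  | .inv t, .var m, h => by simp only [Tm.code] at h; omega
  | .inv t, .one, h => by simp only [Tm.code] at h; omega
  | .inv t, .inv s, h => by
    simp only [Tm.code] at h
    rw [Tm.code_inj t s (by omega)]
  | .inv t, .mul s r, h => by simp only [Tm.code] at h; omega
  | .mul s t, .var m, h => by simp only [Tm.code] at h; omega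
  | .mul s t, .one, h => by simp only [Tm.code] at h; omega
  | .mul s t, .inv r, h => by simp only [Tm.code] at h; omega
  | .mul s t, .mul s' t', h => by
    simp only [Tm.code] at h
    have h1 : Nat.pair s.code t.code = Nat.pair s'.code t'.code := by omega
    rw [Nat.pair_eq_pair] at h1
    rw [Tm.code_inj s s' h1.1, Tm.code_inj t t' h1.2]

theorem Fm.code_inj : ∀ s t : Fm, s.code = t.code → s = t
  | .eq s t, .eq s' t', h => by
    simp only [Fm.code] at h
    have h1 : Nat.pair s.code t.code = Nat.pair s'.code t'.code := by omega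
    rw [Nat.pair_eq_pair] at h1
    rw [Tm.code_inj s s' h1.1, Tm.code_inj t t' h1.2]
  | .eq s t, .neg φ, h => by simp only [Fm.code] at h; omega
  | .eq s t, .conj φ ψ, h => by simp only [Fm.code] at h; omega
  | .eq s t, .all n φ, h => by simp only [Fm.code] at h; omega
  | .neg φ, .eq s t, h => by simp only [Fm.code] at h; omega
  | .neg φ, .neg ψ, h => by
    simp only [Fm.code] at h
    rw [Fm.code_inj φ ψ (by omega)]
  | .neg φ, .conj _ _, h => by simp only [Fm.code] at h; omega
  | .neg φ, .all _ _, h => by simp only [Fm.code] at h; omega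
  | .conj _ _, .eq _ _, h => by simp only [Fm.code] at h; omega
  | .conj _ _, .neg _, h => by simp only [Fm.code] at h; omega
  | .conj φ ψ, .conj φ' ψ', h => by
    simp only [Fm.code] at h
    have h1 : Nat.pair φ.code ψ.code = Nat.pair φ'.code ψ'.code := by omega
    rw [Nat.pair_eq_pair] at h1
    rw [Fm.code_inj φ φ' h1.1, Fm.code_inj ψ ψ' h1.2]
  | .conj _ _, .all _ _, h => by simp only [Fm.code] at h; omega
  | .all _ _, .eq _ _, h => by simp only [Fm.code] at h; omega
  | .all _ _, .neg _, h => by simp only [Fm.code] at h; omega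
  | .all _ _, .conj _ _, h => by simp only [Fm.code] at h; omega
  | .all n φ, .all m ψ, h => by
    simp only [Fm.code] at h
    have h1 : Nat.pair n φ.code = Nat.pair m ψ.code := by omega
    rw [Nat.pair_eq_pair] at h1
    rw [h1.1, Fm.code_inj φ ψ h1.2]

/-! ### Derived connectives -/

namespace Fm

/-- implication -/
def imp (φ ψ : Fm) : Fm := neg (conj φ (neg ψ))
/-- disjunction -/
def disj (φ ψ : Fm) : Fm := neg (conj (neg φ) (neg ψ))
/-- existential quantifier -/
def exi (n : ℕ) (φ : Fm) : Fm := neg (all n (neg φ))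
/-- falsity -/
def bot : Fm := neg (eq .one .one)
/-- finite disjunctions -/
def bigOr : ℕ → (ℕ → Fm) → Fm
  | 0, _ => bot
  | n + 1, f => disj (bigOr n f) (f n)

variable {G : Type*} [Group G]

@[simp] theorem sat_eq (v : ℕ → G) (s t : Tm) : Sat v (eq s t) ↔ s.eval v = t.eval v := Iff.rfl
@[simp] theorem sat_neg (v : ℕ → G) (φ : Fm) : Sat v (neg φ) ↔ ¬ Sat v φ := Iff.rfl
@[simp] theorem sat_and (v : ℕ → G) (φ ψ : Fm) : Sat v (conj φ ψ) ↔ Sat v φ ∧ Sat v ψ := Iff.rfl
@[simp] theorem sat_all (v : ℕ → G) (n : ℕ) (φ : Fm) :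
    Sat v (all n φ) ↔ ∀ g : G, Sat (Function.update v n g) φ := Iff.rfl
@[simp] theorem sat_imp (v : ℕ → G) (φ ψ : Fm) : Sat v (imp φ ψ) ↔ (Sat v φ → Sat v ψ) := by
  simp only [imp, sat_neg, sat_and]; tauto
@[simp] theorem sat_or (v : ℕ → G) (φ ψ : Fm) : Sat v (disj φ ψ) ↔ (Sat v φ ∨ Sat v ψ) := by
  simp only [disj, sat_neg, sat_and]; tauto
@[simp] theorem sat_ex (v : ℕ → G) (n : ℕ) (φ : Fm) :
    Sat v (exi n φ) ↔ ∃ g : G, Sat (Function.update v n g) φ := by
  simp only [exi, sat_neg, sat_all, not_forall, not_not]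
@[simp] theorem sat_bot (v : ℕ → G) : ¬ Sat v bot := by
  simp [bot]
theorem sat_bigOr (v : ℕ → G) (m : ℕ) (f : ℕ → Fm) :
    Sat v (bigOr m f) ↔ ∃ j < m, Sat v (f j) := by
  induction m with
  | zero => simp [bigOr]
  | succ m ih =>
    simp only [bigOr, sat_or, ih]
    constructor
    · rintro (⟨j, hj, h⟩ | h)
      · exact ⟨j, by omega, h⟩
      · exact ⟨m, by omega, h⟩
    · rintro ⟨j, hj, h⟩
      rcases Nat.lt_or_ge j m with h1 | h1
      · exact Or.inl ⟨j, h1, h⟩
      · right
        have : j = m := by omega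
        rw [← this]; exact h

@[simp] theorem free_neg (φ : Fm) : free (neg φ) = free φ := rfl
@[simp] theorem free_and (φ ψ : Fm) : free (conj φ ψ) = free φ ∪ free ψ := rfl
@[simp] theorem free_all (n : ℕ) (φ : Fm) : free (all n φ) = free φ \ {n} := rfl
@[simp] theorem free_eq (s t : Tm) : free (eq s t) = s.vars ∪ t.vars := rfl
@[simp] theorem free_imp (φ ψ : Fm) : free (imp φ ψ) = free φ ∪ free ψ := rfl
@[simp] theorem free_or (φ ψ : Fm) : free (disj φ ψ) = free φ ∪ free ψ := rfl
@[simp] theorem free_ex (n : ℕ) (φ : Fm) : free (exi n φ) = free φ \ {n} := rfl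
@[simp] theorem free_bot : free bot = ∅ := by simp [bot, Tm.vars]
theorem free_bigOr {m : ℕ} {f : ℕ → Fm} {n : ℕ} (h : n ∈ free (bigOr m f)) :
    ∃ j < m, n ∈ free (f j) := by
  induction m with
  | zero => simp [bigOr] at h
  | succ m ih =>
    simp only [bigOr, free_or, Set.mem_union] at h
    rcases h with h | h
    · obtain ⟨j, hj, h⟩ := ih h
      exact ⟨j, by omega, h⟩
    · exact ⟨m, by omega, h⟩

end Fm

/-- powers of terms -/
def Tm.pow (t : Tm) : ℕ → Tm
  | 0 => .one
  | n + 1 => .mul (Tm.pow t n) t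

@[simp] theorem Tm.eval_pow {G : Type*} [Group G] (v : ℕ → G) (t : Tm) (n : ℕ) :
    (t.pow n).eval v = (t.eval v) ^ n := by
  induction n with
  | zero => simp [Tm.pow, Tm.eval]
  | succ n ih => simp [Tm.pow, Tm.eval, ih, pow_succ]

@[simp] theorem Tm.eval_var {G : Type*} [Group G] (v : ℕ → G) (n : ℕ) :
    (Tm.var n).eval v = v n := rfl
@[simp] theorem Tm.eval_one {G : Type*} [Group G] (v : ℕ → G) : Tm.one.eval v = 1 := rfl
@[simp] theorem Tm.eval_mul {G : Type*} [Group G] (v : ℕ → G) (s t : Tm) :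
    (Tm.mul s t).eval v = s.eval v * t.eval v := rfl

theorem Tm.vars_pow {t : Tm} {k n : ℕ} (h : n ∈ (t.pow k).vars) : n ∈ t.vars := by
  induction k with
  | zero => simp [Tm.pow, Tm.vars] at h
  | succ k ih =>
    simp only [Tm.pow, Tm.vars, Set.mem_union] at h
    rcases h with h | h
    · exact ih h
    · exact h

@[simp] theorem Tm.vars_var (n : ℕ) : (Tm.var n).vars = {n} := rfl
@[simp] theorem Tm.vars_one : Tm.one.vars = ∅ := rfl
@[simp] theorem Tm.vars_mul (s t : Tm) : (Tm.mul s t).vars = s.vars ∪ t.vars := rfl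

end Pool.Agent.Lib.MP_32acdc_lc
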