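import Mathlib

/-!
# Horn axioms for the evaluation of partial recursive codes
-/

namespace Pool.Agent.Lib.MP_32acdc_lc

open Nat.Partrec Encodable

section Eval

theorem mem_eval_zero {x y : ℕ} : y ∈ Code.eval .zero x ↔ y = 0 := by
  change y ∈ Part.some 0 ↔ _
  exact Part.mem_some_iff

theorem mem_eval_succ {x y : ℕ} : y ∈ Code.eval .succ x ↔ y = x + 1 := by
  simp [Code.eval]

theorem mem_eval_left {x y : ℕ} : y ∈ Code.eval .left x ↔ y = x.unpair.1 := by
  simp [Code.eval]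

theorem mem_eval_right {x y : ℕ} : y ∈ Code.eval .right x ↔ y = x.unpair.2 := by
  simp [Code.eval]

theorem mem_eval_pair {f g : Code} {x y : ℕ} :
    y ∈ Code.eval (.pair f g) x ↔ ∃ a ∈ Code.eval f x, ∃ b ∈ Code.eval g x, y = Nat.pair a b := by
  simp [Code.eval, Seq.seq]
  constructor
  · rintro ⟨a, ha, b, hb, h⟩; exact ⟨a, ha, b, hb, h.symm⟩
  · rintro ⟨a, ha, b, hb, h⟩; exact ⟨a, ha, b, hb, h.symm⟩

theorem mem_eval_comp {f g : Code} {x y : ℕ} :
    y ∈ Code.eval (.comp f g) x ↔ ∃ z ∈ Code.eval g x, y ∈ Code.eval f z := by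
  change y ∈ (Code.eval g x).bind (Code.eval f) ↔ _
  exact Part.mem_bind_iff

theorem mem_eval_prec_zero {f g : Code} {a y : ℕ} :
    y ∈ Code.eval (.prec f g) (Nat.pair a 0) ↔ y ∈ Code.eval f a := by
  rw [Code.eval_prec_zero]

theorem mem_eval_prec_succ {f g : Code} {a k y : ℕ} :
    y ∈ Code.eval (.prec f g) (Nat.pair a (k + 1)) ↔
      ∃ i ∈ Code.eval (.prec f g) (Nat.pair a k), y ∈ Code.eval g (Nat.pair a (Nat.pair k i)) := by
  rw [← Nat.succ_eq_add_one, Code.eval_prec_succ]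
  simp

theorem mem_eval_rfind {f : Code} {a m y : ℕ} :
    y ∈ Code.eval (.rfind' f) (Nat.pair a m) ↔ ∃ n, y = n + m ∧
      0 ∈ Code.eval f (Nat.pair a (n + m)) ∧
      ∀ k < n, ∃ u, u ≠ 0 ∧ u ∈ Code.eval f (Nat.pair a (k + m)) := by
  have hr : ∀ n, n ∈ Nat.rfind (fun n => (fun m => decide (m = 0)) <$> Code.eval f (Nat.pair a (n + m))) ↔
      0 ∈ Code.eval f (Nat.pair a (n + m)) ∧
      ∀ k < n, ∃ u, u ≠ 0 ∧ u ∈ Code.eval f (Nat.pair a (k + m)) := by
    intro n
    refine (Nat.mem_rfind (p := fun n => (fun m => decide (m = 0)) <$>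
      Code.eval f (Nat.pair a (n + m)))).trans ?_
    apply and_congr
    · simp
    · constructor
      · intro h k hk
        have := h hk
        simp at this
        obtain ⟨u, hu, h⟩ := this
        exact ⟨u, h, hu⟩
      · intro h k hk
        obtain ⟨u, hu, h⟩ := h k hk
        simp
        exact ⟨u, h, hu⟩
  simp only [Code.eval, Nat.unpaired, Nat.unpair_pair, Part.mem_map_iff]
  constructor
  · rintro ⟨n, h, rfl⟩
    exact ⟨n, rfl, (hr n).1 h⟩
  · rintro ⟨n, rfl, h⟩
    exact ⟨n, (hr n).2 h, rfl⟩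

end Eval

section Axioms

variable {D : Type*} (R : ℕ → D → D → D → Prop)

/-- zero -/
def Zr (x : D) : Prop := R 0 x x x
/-- successor -/
def Sr (x y : D) : Prop := R 1 x y y
/-- order -/
def Lr (x y : D) : Prop := R 2 x y y
/-- pairing -/
def Qr (x y z : D) : Prop := R 3 x y z
/-- graph of a code -/
def Cr (c : Code) (x y : D) : Prop := R (encode c + 4) x y y

/-- the basic axioms -/
structure Basic : Prop where
  s1 : ∀ x, ∃ y, Sr R x y
  l1 : ∀ x y, Sr R x y → Lr R x y
  l2 : ∀ x y z, Lr R x y → Sr R y z → Lr R x z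
  q1 : ∀ x, Zr R x → Qr R x x x
  q2 : ∀ a b k a' k', Qr R a b k → Sr R a a' → Lr R a' b → Sr R k k' → Qr R a' b k'
  q3 : ∀ a b k z k', Qr R a b k → Sr R a b → Zr R z → Sr R k k' → Qr R b z k'
  q4 : ∀ a b k b' k', Qr R a b k → Lr R b a → Sr R b b' → Sr R k k' → Qr R a b' k'
  q5 : ∀ a k a' z k', Qr R a a k → Sr R a a' → Zr R z → Sr R k k' → Qr R z a' k'

/-- the axioms for a code -/
def HC : Code → Prop
  | .zero => ∀ x z, Zr R z → Cr R .zero x z
  | .succ => ∀ x y, Sr R x y → Cr R .succ x y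
  | .left => ∀ a b k, Qr R a b k → Cr R .left k a
  | .right => ∀ a b k, Qr R a b k → Cr R .right k b
  | .pair f g => (HC f ∧ HC g) ∧
      ∀ x a b k, Cr R f x a → Cr R g x b → Qr R a b k → Cr R (.pair f g) x k
  | .comp f g => (HC f ∧ HC g) ∧ ∀ x y z, Cr R g x y → Cr R f y z → Cr R (.comp f g) x z
  | .prec f g => (HC f ∧ HC g) ∧
      (∀ a z k v, Qr R a z k → Zr R z → Cr R f a v → Cr R (.prec f g) k v) ∧
      (∀ a n k v n' k' p q w, Qr R a n k → Cr R (.prec f g) k v → Sr R n n' → Qr R a n' k' →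
        Qr R n v p → Qr R a p q → Cr R g q w → Cr R (.prec f g) k' w)
  | .rfind' f => HC f ∧
      (∀ a m k z, Qr R a m k → Cr R f k z → Zr R z → Cr R (.rfind' f) k m) ∧
      (∀ a m k y y' m' k' r, Qr R a m k → Cr R f k y → Sr R y' y → Sr R m m' → Qr R a m' k' →
        Cr R (.rfind' f) k' r → Cr R (.rfind' f) k r)

variable {R}

theorem lr_of_lt (hB : Basic R) {a : ℕ → D} (hS : ∀ n, Sr R (a n) (a (n+1))) {i j : ℕ}
    (h : i < j) : Lr R (a i) (a j) := by
  induction j with
  | zero => omega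
  | succ j ih =>
    rcases Nat.lt_or_ge i j with h1 | h1
    · exact hB.l2 _ _ _ (ih h1) (hS j)
    · have : i = j := by omega
      subst this
      exact hB.l1 _ _ (hS i)

theorem qr_aux (hB : Basic R) {a : ℕ → D} (hZ : Zr R (a 0)) (hS : ∀ n, Sr R (a n) (a (n+1))) :
    ∀ n i j, Nat.pair i j = n → Qr R (a i) (a j) (a n) := by
  intro n
  induction n with
  | zero =>
    intro i j h
    have h0 : Nat.pair 0 0 = 0 := by simp [Nat.pair]
    have := Nat.pair_eq_pair.1 (h.trans h0.symm)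
    rw [this.1, this.2]
    exact hB.q1 _ hZ
  | succ n ih =>
    intro i' j' h
    obtain ⟨i, j, hij⟩ : ∃ i j, Nat.pair i j = n := ⟨n.unpair.1, n.unpair.2, Nat.pair_unpair n⟩
    have hq := ih i j hij
    have key : ∀ x y, Nat.pair x y = n + 1 → i' = x ∧ j' = y := by
      intro x y hxy
      exact Nat.pair_eq_pair.1 (h.trans hxy.symm)
    rcases Nat.lt_or_ge i j with h1 | h1
    · rcases Nat.lt_or_ge (i + 1) j with h2 | h2
      · obtain ⟨rfl, rfl⟩ := key (i + 1) j (by
          rw [← hij]; unfold Nat.pair; rw [if_pos h2, if_pos h1]; ring)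
        exact hB.q2 _ _ _ _ _ hq (hS i) (lr_of_lt hB hS h2) (hS n)
      · have h3 : j = i + 1 := by omega
        subst h3
        obtain ⟨rfl, rfl⟩ := key (i + 1) 0 (by
          rw [← hij]; unfold Nat.pair
          rw [if_neg (by omega), if_pos h1]; ring)
        exact hB.q3 _ _ _ _ _ hq (hS i) hZ (hS n)
    · rcases Nat.lt_or_ge j i with h2 | h2
      · obtain ⟨rfl, rfl⟩ := key i (j + 1) (by
          rw [← hij]; unfold Nat.pair
          rw [if_neg (by omega), if_neg (by omega)]; ring)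
        exact hB.q4 _ _ _ _ _ hq (lr_of_lt hB hS h2) (hS j) (hS n)
      · have h3 : j = i := by omega
        subst h3
        obtain ⟨rfl, rfl⟩ := key 0 (j + 1) (by
          rw [← hij]; unfold Nat.pair
          rw [if_pos (by omega), if_neg (by omega)]; ring)
        exact hB.q5 _ _ _ _ _ hq (hS j) hZ (hS n)

theorem qr_pair (hB : Basic R) {a : ℕ → D} (hZ : Zr R (a 0)) (hS : ∀ n, Sr R (a n) (a (n+1)))
    (i j : ℕ) : Qr R (a i) (a j) (a (Nat.pair i j)) := qr_aux hB hZ hS _ i j rfl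

/-- Completeness: the axioms derive all values of codes, along any chain of numerals. -/
theorem cr_complete (hB : Basic R) {a : ℕ → D} (hZ : Zr R (a 0))
    (hS : ∀ n, Sr R (a n) (a (n+1))) :
    ∀ c : Code, HC R c → ∀ x y, y ∈ c.eval x → Cr R c (a x) (a y) := by
  have hQ := qr_pair hB hZ hS
  intro c
  induction c with
  | zero =>
    intro h x y hy
    rw [mem_eval_zero] at hy
    subst hy
    exact h _ _ hZ
  | succ =>
    intro h x y hy
    rw [mem_eval_succ] at hy
    subst hy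
    exact h _ _ (hS x)
  | left =>
    intro h x y hy
    rw [mem_eval_left] at hy
    subst hy
    have := hQ x.unpair.1 x.unpair.2
    rw [Nat.pair_unpair] at this
    exact h _ _ _ this
  | right =>
    intro h x y hy
    rw [mem_eval_right] at hy
    subst hy
    have := hQ x.unpair.1 x.unpair.2
    rw [Nat.pair_unpair] at this
    exact h _ _ _ this
  | pair f g ihf ihg =>
    rintro ⟨⟨hf, hg⟩, h⟩ x y hy
    rw [mem_eval_pair] at hy
    obtain ⟨u, hu, v, hv, rfl⟩ := hy
    exact h _ _ _ _ (ihf hf x u hu) (ihg hg x v hv) (hQ u v)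
  | comp f g ihf ihg =>
    rintro ⟨⟨hf, hg⟩, h⟩ x y hy
    rw [mem_eval_comp] at hy
    obtain ⟨z, hz, hy⟩ := hy
    exact h _ _ _ (ihg hg x z hz) (ihf hf z y hy)
  | prec f g ihf ihg =>
    rintro ⟨⟨hf, hg⟩, h1, h2⟩ x y hy
    have key : ∀ n u v, v ∈ Code.eval (.prec f g) (Nat.pair u n) →
        Cr R (.prec f g) (a (Nat.pair u n)) (a v) := by
      intro n
      induction n with
      | zero =>
        intro u v hv
        rw [mem_eval_prec_zero] at hv
        exact h1 _ _ _ _ (hQ u 0) hZ (ihf hf u v hv)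
      | succ n ih =>
        intro u v hv
        rw [mem_eval_prec_succ] at hv
        obtain ⟨i, hi, hv⟩ := hv
        exact h2 _ _ _ _ _ _ _ _ _ (hQ u n) (ih u i hi) (hS n) (hQ u (n+1)) (hQ n i)
          (hQ u (Nat.pair n i)) (ihg hg _ v hv)
    have := key x.unpair.2 x.unpair.1 y (by rw [Nat.pair_unpair]; exact hy)
    rwa [Nat.pair_unpair] at this
  | rfind' f ihf =>
    rintro ⟨hf, h1, h2⟩ x y hy
    have key : ∀ n u m, 0 ∈ Code.eval f (Nat.pair u (n + m)) →
        (∀ k < n, ∃ v, v ≠ 0 ∧ v ∈ Code.eval f (Nat.pair u (k + m))) →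
        Cr R (.rfind' f) (a (Nat.pair u m)) (a (n + m)) := by
      intro n
      induction n with
      | zero =>
        intro u m h0 _
        rw [zero_add] at h0 ⊢
        exact h1 _ _ _ _ (hQ u m) (ihf hf _ _ h0) hZ
      | succ n ih =>
        intro u m h0 hk
        obtain ⟨v, hv0, hv⟩ := hk 0 (by omega)
        rw [zero_add] at hv
        obtain ⟨v', rfl⟩ := Nat.exists_eq_succ_of_ne_zero hv0
        have h3 := ih u (m + 1) (by
          have : n + (m + 1) = n + 1 + m := by omega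
          rw [this]; exact h0) (by
          intro k hk'
          obtain ⟨v, hv0, hv⟩ := hk (k + 1) (by omega)
          refine ⟨v, hv0, ?_⟩
          have : k + (m + 1) = k + 1 + m := by omega
          rw [this]; exact hv)
        have e : n + (m + 1) = n + 1 + m := by omega
        rw [e] at h3
        exact h2 _ _ _ _ _ _ _ _ (hQ u m) (ihf hf _ _ hv) (hS v') (hS m) (hQ u (m+1)) h3
    have hy' : y ∈ Code.eval (.rfind' f) (Nat.pair x.unpair.1 x.unpair.2) := by
      rw [Nat.pair_unpair]; exact hy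
    rw [mem_eval_rfind] at hy'
    obtain ⟨n, rfl, h0, hk⟩ := hy'
    have := key n x.unpair.1 x.unpair.2 h0 hk
    rwa [Nat.pair_unpair] at this

end Axioms

/-! ### The standard structure -/

/-- the standard interpretation of the relations on `ℕ` -/
def RN : ℕ → ℕ → ℕ → ℕ → Prop
  | 0, x, _, _ => x = 0
  | 1, x, y, _ => y = x + 1
  | 2, x, y, _ => x < y
  | 3, x, y, z => z = Nat.pair x y
  | k + 4, x, y, _ => y ∈ (Denumerable.ofNat Code k).eval x

theorem zr_iff {x : ℕ} : Zr RN x ↔ x = 0 := Iff.rfl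
theorem sr_iff {x y : ℕ} : Sr RN x y ↔ y = x + 1 := Iff.rfl
theorem lr_iff {x y : ℕ} : Lr RN x y ↔ x < y := Iff.rfl
theorem qr_iff {x y z : ℕ} : Qr RN x y z ↔ z = Nat.pair x y := Iff.rfl
theorem cr_iff {c : Code} {x y : ℕ} : Cr RN c x y ↔ y ∈ c.eval x := by
  change y ∈ (Denumerable.ofNat Code (encode c)).eval x ↔ _
  rw [Denumerable.ofNat_encode]

theorem basic_RN : Basic RN where
  s1 x := ⟨x + 1, rfl⟩
  l1 x y h := by rw [sr_iff] at h; rw [lr_iff]; omega
  l2 x y z h1 h2 := by rw [sr_iff] at h2; rw [lr_iff] at h1 ⊢; omega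
  q1 x h := by
    rw [zr_iff] at h; subst h
    rw [qr_iff]; simp [Nat.pair]
  q2 a b k a' k' h1 h2 h3 h4 := by
    rw [qr_iff] at h1 ⊢
    rw [sr_iff] at h2 h4
    rw [lr_iff] at h3
    subst h1 h2 h4
    unfold Nat.pair; rw [if_pos h3, if_pos (by omega)]; ring
  q3 a b k z k' h1 h2 h3 h4 := by
    rw [qr_iff] at h1 ⊢
    rw [sr_iff] at h2 h4
    rw [zr_iff] at h3
    subst h1 h2 h4 h3
    unfold Nat.pair; rw [if_pos (by omega), if_neg (by omega)]; ring
  q4 a b k b' k' h1 h2 h3 h4 := by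
    rw [qr_iff] at h1 ⊢
    rw [sr_iff] at h3 h4
    rw [lr_iff] at h2
    subst h1 h3 h4
    unfold Nat.pair; rw [if_neg (by omega), if_neg (by omega)]; ring
  q5 a k a' z k' h1 h2 h3 h4 := by
    rw [qr_iff] at h1 ⊢
    rw [sr_iff] at h2 h4
    rw [zr_iff] at h3
    subst h1 h2 h4 h3
    unfold Nat.pair; rw [if_neg (by omega), if_pos (by omega)]; ring

theorem HC_RN (c : Code) : HC RN c := by
  induction c with
  | zero =>
    intro x z hz
    rw [zr_iff] at hz; rw [cr_iff, mem_eval_zero]; exact hz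
  | succ =>
    intro x y h
    rw [sr_iff] at h; rw [cr_iff, mem_eval_succ]; exact h
  | left =>
    intro a b k h
    rw [qr_iff] at h; rw [cr_iff, mem_eval_left, h, Nat.unpair_pair]
  | right =>
    intro a b k h
    rw [qr_iff] at h; rw [cr_iff, mem_eval_right, h, Nat.unpair_pair]
  | pair f g ihf ihg =>
    refine ⟨⟨ihf, ihg⟩, fun x a b k h1 h2 h3 => ?_⟩
    rw [cr_iff] at h1 h2 ⊢
    rw [qr_iff] at h3
    rw [mem_eval_pair]
    exact ⟨a, h1, b, h2, h3⟩
  | comp f g ihf ihg =>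
    refine ⟨⟨ihf, ihg⟩, fun x y z h1 h2 => ?_⟩
    rw [cr_iff] at h1 h2 ⊢
    rw [mem_eval_comp]
    exact ⟨y, h1, h2⟩
  | prec f g ihf ihg =>
    refine ⟨⟨ihf, ihg⟩, fun a z k v h1 h2 h3 => ?_, fun a n k v n' k' p q w h1 h2 h3 h4 h5 h6 h7 => ?_⟩
    · rw [cr_iff] at h3 ⊢
      rw [qr_iff] at h1
      rw [zr_iff] at h2
      subst h1 h2
      rw [mem_eval_prec_zero]; exact h3
    · rw [cr_iff] at h2 h7 ⊢
      rw [qr_iff] at h1 h4 h5 h6
      rw [sr_iff] at h3
      subst h1 h4 h6 h5 h3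
      rw [mem_eval_prec_succ]
      exact ⟨v, h2, h7⟩
  | rfind' f ihf =>
    refine ⟨ihf, fun a m k z h1 h2 h3 => ?_, fun a m k y y' m' k' r h1 h2 h3 h4 h5 h6 => ?_⟩
    · rw [cr_iff] at h2 ⊢
      rw [qr_iff] at h1
      rw [zr_iff] at h3
      subst h1 h3
      rw [mem_eval_rfind]
      exact ⟨0, (zero_add _).symm, by rw [zero_add]; exact h2, fun k hk => absurd hk (by omega)⟩
    · rw [cr_iff] at h2 h6 ⊢
      rw [qr_iff] at h1 h5
      rw [sr_iff] at h3 h4
      subst h1 h5 h3 h4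
      rw [mem_eval_rfind] at h6 ⊢
      obtain ⟨n, rfl, h0, hk⟩ := h6
      refine ⟨n + 1, by omega, ?_, fun j hj => ?_⟩
      · have : n + 1 + m = n + (m + 1) := by omega
        rw [this]; exact h0
      · rcases j with _ | j
        · refine ⟨y' + 1, by omega, ?_⟩
          rw [zero_add]; exact h2
        · obtain ⟨u, hu, h⟩ := hk j (by omega)
          refine ⟨u, hu, ?_⟩
          have : j + 1 + m = j + (m + 1) := by omega
          rw [this]; exact h

end Pool.Agent.Lib.MP_32acdc_lc
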