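import Mathlib
import Pool.Agent.Lib.MP_32acdc_lc.Coding

/-!
# Every relational structure on `ℕ` is interpreted in a group acting freely on a `Λ`-tree
-/

namespace Pool.Agent.Lib.MP_32acdc_lc

/-- the odd primes -/
noncomputable def pr (c : ℕ) : ℕ := Nat.nth Nat.Prime (c + 1)

theorem pr_prime (c : ℕ) : (pr c).Prime := Nat.prime_nth_prime _

theorem pr_inj : Function.Injective pr := fun a b h => by
  have := Nat.nth_injective Nat.infinite_setOfPred_prime h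
  omega

theorem pr_odd (c : ℕ) : pr c ≠ 2 := by
  intro h
  have h0 : Nat.nth Nat.Prime 0 = 2 := Nat.nth_prime_zero_eq_two
  have := Nat.nth_injective Nat.infinite_setOfPred_prime (h.trans h0.symm)
  omega

/-- The special sets attached to a family of ternary relations on `ℕ`. -/
inductive Spec (R : ℕ → ℕ → ℕ → ℕ → Prop) : Finset ℕ → ℕ → Prop
  | d0 (d : ℕ) : Spec R {4 * d} 0
  | d1 (d : ℕ) : Spec R {4 * d + 1} 1
  | d2 (d : ℕ) : Spec R {4 * d + 2} 2
  | l1 (d : ℕ) : Spec R {4 * d, 4 * d + 1} 3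
  | l2 (d : ℕ) : Spec R {4 * d, 4 * d + 2} 3
  | tup (k x y z : ℕ) : R k x y z → Spec R {4 * x, 4 * y + 1, 4 * z + 2, 4 * k + 3} 4
  | mk (k : ℕ) : Spec R {4 * k + 3} (k + 5)

variable {R : ℕ → ℕ → ℕ → ℕ → Prop}

open Classical in
/-- colour read off from the set -/
noncomputable def colF (E : Finset ℕ) : ℕ :=
  if ∃ i ∈ E, i % 4 = 3 then (if ∃ i ∈ E, i % 4 = 0 then 4 else E.sup id / 4 + 5)
  else if ∃ i ∈ E, i % 4 = 0 then (if E.card = 1 then 0 else 3)
  else if ∃ i ∈ E, i % 4 = 1 then 1 else 2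

theorem spec_col {E : Finset ℕ} {c : ℕ} (h : Spec R E c) : c = colF E := by
  classical
  unfold colF
  cases h with
  | d0 d =>
    have h3 : ¬ ∃ i ∈ ({4 * d} : Finset ℕ), i % 4 = 3 := by simp
    have h0 : ∃ i ∈ ({4 * d} : Finset ℕ), i % 4 = 0 := by simp
    rw [if_neg h3, if_pos h0, if_pos (Finset.card_singleton _)]
  | d1 d =>
    have h3 : ¬ ∃ i ∈ ({4 * d + 1} : Finset ℕ), i % 4 = 3 := by simp
    have h0 : ¬ ∃ i ∈ ({4 * d + 1} : Finset ℕ), i % 4 = 0 := by simp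
    have h1 : ∃ i ∈ ({4 * d + 1} : Finset ℕ), i % 4 = 1 := by simp
    rw [if_neg h3, if_neg h0, if_pos h1]
  | d2 d =>
    have h3 : ¬ ∃ i ∈ ({4 * d + 2} : Finset ℕ), i % 4 = 3 := by simp
    have h0 : ¬ ∃ i ∈ ({4 * d + 2} : Finset ℕ), i % 4 = 0 := by simp
    have h1 : ¬ ∃ i ∈ ({4 * d + 2} : Finset ℕ), i % 4 = 1 := by simp
    rw [if_neg h3, if_neg h0, if_neg h1]
  | l1 d =>
    have h3 : ¬ ∃ i ∈ ({4 * d, 4 * d + 1} : Finset ℕ), i % 4 = 3 := by simp
    have h0 : ∃ i ∈ ({4 * d, 4 * d + 1} : Finset ℕ), i % 4 = 0 := by simp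
    have h1 : ({4 * d, 4 * d + 1} : Finset ℕ).card ≠ 1 := by
      rw [Finset.card_pair (by omega)]; norm_num
    rw [if_neg h3, if_pos h0, if_neg h1]
  | l2 d =>
    have h3 : ¬ ∃ i ∈ ({4 * d, 4 * d + 2} : Finset ℕ), i % 4 = 3 := by simp
    have h0 : ∃ i ∈ ({4 * d, 4 * d + 2} : Finset ℕ), i % 4 = 0 := by simp
    have h1 : ({4 * d, 4 * d + 2} : Finset ℕ).card ≠ 1 := by
      rw [Finset.card_pair (by omega)]; norm_num
    rw [if_neg h3, if_pos h0, if_neg h1]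
  | tup k x y z h =>
    have h3 : ∃ i ∈ ({4 * x, 4 * y + 1, 4 * z + 2, 4 * k + 3} : Finset ℕ), i % 4 = 3 :=
      ⟨4 * k + 3, by simp, by omega⟩
    have h0 : ∃ i ∈ ({4 * x, 4 * y + 1, 4 * z + 2, 4 * k + 3} : Finset ℕ), i % 4 = 0 :=
      ⟨4 * x, by simp, by omega⟩
    rw [if_pos h3, if_pos h0]
  | mk k =>
    have h3 : ∃ i ∈ ({4 * k + 3} : Finset ℕ), i % 4 = 3 := by simp
    have h0 : ¬ ∃ i ∈ ({4 * k + 3} : Finset ℕ), i % 4 = 0 := by simp
    rw [if_pos h3, if_neg h0, Finset.sup_singleton, id]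
    omega

theorem spec_uniq (E : Finset ℕ) (c c' : ℕ) (h : Spec R E c) (h' : Spec R E c') : c = c' :=
  (spec_col h).trans (spec_col h').symm

theorem spec_ne (E : Finset ℕ) (c : ℕ) (h : Spec R E c) : E.Nonempty := by
  cases h <;> simp

/-- the data of the relational structure -/
noncomputable def dat (R : ℕ → ℕ → ℕ → ℕ → Prop) : Data where
  Spec := Spec R
  pr := pr
  ne := spec_ne
  uniq := spec_uniq
  prime := pr_prime
  odd := pr_odd
  inj := pr_inj

/-- The domain of the interpreted structure. -/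
def DomG {G : Type*} [Group G] (x : G) : Prop := Typ (pr 0) x

/-- The relations of the interpreted structure. -/
def RelG {G : Type*} [Group G] (k : ℕ) (x y z : G) : Prop :=
  ∃ y', Typ (pr 1) y' ∧ Quad (pr 3) y y' y y' ∧ ∃ z', Typ (pr 2) z' ∧ Quad (pr 3) z z' z z' ∧
    ∃ m, Typ (pr (k + 5)) m ∧ Quad (pr 4) x y' z' m

/-- `g` represents the number `d` -/
def Vtx (g : GG (dat R)) (d : ℕ) : Prop := g ≠ 1 ∧ Line g {4 * d}

theorem domG_iff (g : GG (dat R)) : DomG g ↔ ∃ d, Vtx g d := by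
  have := typ_iff (D := dat R) (g := g) 0
  change Typ (pr 0) g ↔ _ at this
  unfold DomG
  rw [this]
  constructor
  · rintro ⟨h1, E, hE, hl⟩
    have : ∃ d, E = {4 * d} := by
      change Spec R E 0 at hE
      cases hE with
      | d0 d => exact ⟨d, rfl⟩
    obtain ⟨d, rfl⟩ := this
    exact ⟨d, h1, hl⟩
  · rintro ⟨d, h1, hl⟩
    exact ⟨h1, _, Spec.d0 d, hl⟩

theorem exists_vtx (d : ℕ) : ∃ g : GG (dat R), Vtx g d := exists_line _ (by simp)

theorem relG_iff {k : ℕ} {x y z : GG (dat R)} {a b c : ℕ} (hx : Vtx x a) (hy : Vtx y b)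
    (hz : Vtx z c) : RelG k x y z ↔ R k a b c := by
  have t1 : ∀ g : GG (dat R), Typ (pr 1) g ↔ g ≠ 1 ∧ ∃ E, Spec R E 1 ∧ Line g E :=
    fun g => typ_iff (D := dat R) (g := g) 1
  have t2 : ∀ g : GG (dat R), Typ (pr 2) g ↔ g ≠ 1 ∧ ∃ E, Spec R E 2 ∧ Line g E :=
    fun g => typ_iff (D := dat R) (g := g) 2
  have t5 : ∀ g : GG (dat R), Typ (pr (k + 5)) g ↔ g ≠ 1 ∧ ∃ E, Spec R E (k + 5) ∧ Line g E :=
    fun g => typ_iff (D := dat R) (g := g) (k + 5)
  constructor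
  · rintro ⟨y', hy', hyy', z', hz', hzz', m, hm, hq⟩
    obtain ⟨_, Ey, hEy, hly⟩ := (t1 y').1 hy'
    obtain ⟨b', rfl⟩ : ∃ b', Ey = {4 * b' + 1} := by
      cases hEy with
      | d1 d => exact ⟨d, rfl⟩
    obtain ⟨_, Ez, hEz, hlz⟩ := (t2 z').1 hz'
    obtain ⟨c', rfl⟩ : ∃ c', Ez = {4 * c' + 2} := by
      cases hEz with
      | d2 d => exact ⟨d, rfl⟩
    obtain ⟨_, Em, hEm, hlm⟩ := (t5 m).1 hm
    have hEm' : Em = {4 * k + 3} := by
      cases hEm with
      | mk _ => rfl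
    subst hEm'
    have q1 := (quad_iff (D := dat R) hy.2 hly hy.2 hly 3).1 hyy'
    obtain ⟨E1, hE1, hs1⟩ := q1
    have hb : b' = b := by
      change Spec R E1 3 at hE1
      cases hE1 with
      | l1 d =>
        have h1 := hs1 (4 * d) (by simp)
        have h2 := hs1 (4 * d + 1) (by simp)
        omega
      | l2 d =>
        have h1 := hs1 (4 * d) (by simp)
        have h2 := hs1 (4 * d + 2) (by simp)
        omega
    have q2 := (quad_iff (D := dat R) hz.2 hlz hz.2 hlz 3).1 hzz'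
    obtain ⟨E2, hE2, hs2⟩ := q2
    have hc : c' = c := by
      change Spec R E2 3 at hE2
      cases hE2 with
      | l1 d =>
        have h1 := hs2 (4 * d) (by simp)
        have h2 := hs2 (4 * d + 1) (by simp)
        omega
      | l2 d =>
        have h1 := hs2 (4 * d) (by simp)
        have h2 := hs2 (4 * d + 2) (by simp)
        omega
    subst hb hc
    obtain ⟨E3, hE3, hs3⟩ := (quad_iff (D := dat R) hx.2 hly hlz hlm 4).1 hq
    change Spec R E3 4 at hE3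
    cases hE3 with
    | tup k1 x1 y1 z1 hR =>
      have h1 := hs3 (4 * x1) (by simp)
      have h2 := hs3 (4 * y1 + 1) (by simp)
      have h3 := hs3 (4 * z1 + 2) (by simp)
      have h4 := hs3 (4 * k1 + 3) (by simp)
      have e1 : x1 = a := by omega
      have e2 : y1 = b' := by omega
      have e3 : z1 = c' := by omega
      have e4 : k1 = k := by omega
      subst e1 e2 e3 e4
      exact hR
  · intro hR
    obtain ⟨y', hy1, hy2⟩ := exists_line (D := dat R) {4 * b + 1} (by simp)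
    obtain ⟨z', hz1, hz2⟩ := exists_line (D := dat R) {4 * c + 2} (by simp)
    obtain ⟨m, hm1, hm2⟩ := exists_line (D := dat R) {4 * k + 3} (by simp)
    refine ⟨y', (t1 _).2 ⟨hy1, _, Spec.d1 b, hy2⟩, ?_, z', (t2 _).2 ⟨hz1, _, Spec.d2 c, hz2⟩, ?_,
      m, (t5 _).2 ⟨hm1, _, Spec.mk k, hm2⟩, ?_⟩
    · exact (quad_iff (D := dat R) hy.2 hy2 hy.2 hy2 3).2 ⟨_, Spec.l1 b, by simp⟩
    · exact (quad_iff (D := dat R) hz.2 hz2 hz.2 hz2 3).2 ⟨_, Spec.l2 c, by simp⟩
    · exact (quad_iff (D := dat R) hx.2 hy2 hz2 hm2 4).2 ⟨_, Spec.tup k a b c hR, by simp⟩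

end Pool.Agent.Lib.MP_32acdc_lc
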