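import Mathlib
import Pool.Agent.Lib.MP_32acdc_lc.Formula
import Pool.Agent.Lib.MP_32acdc_lc.Struct

/-!
# Translation of relational formulas into group formulas
-/

namespace Pool.Agent.Lib.MP_32acdc_lc

open Fm

section Macros

/-- `x_i` and `x_j` commute -/
def commF (i j : ℕ) : Fm := eq (.mul (.var i) (.var j)) (.mul (.var j) (.var i))

/-- the formula `Cyc m (x_i)`, bound variables from `b` on -/
def cycF (m i b : ℕ) : Fm :=
  exi b (conj (commF b i) (all (b+1) (imp (commF (b+1) i) (exi (b+2) (conj (commF (b+2) i)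
    (bigOr m (fun j => eq (.var (b+1)) (.mul ((Tm.var b).pow j) ((Tm.var (b+2)).pow m)))))))))

/-- the formula `Typ m (x_i)` -/
def typF (m i b : ℕ) : Fm :=
  conj (neg (eq (.var i) .one)) (conj (neg (cycF 2 i b)) (cycF m i b))

/-- the formula `Quad m x y z w` -/
def quadF (m x y z w b : ℕ) : Fm :=
  exi b (conj (commF b x) (exi (b+1) (conj (commF (b+1) y) (exi (b+2) (conj (commF (b+2) z)
    (exi (b+3) (conj (commF (b+3) w) (exi (b+4) (conj
      (eq (.var (b+4)) (.mul (.mul (.mul (.var b) (.var (b+1))) (.var (b+2))) (.var (b+3))))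
      (typF m (b+4) (b+5)))))))))))

/-- the formula `RelG k x y z` -/
noncomputable def relF (k x y z b : ℕ) : Fm :=
  exi b (conj (typF (pr 1) b (b+1)) (conj (quadF (pr 3) y b y b (b+1))
    (exi (b+1) (conj (typF (pr 2) (b+1) (b+2)) (conj (quadF (pr 3) z (b+1) z (b+1) (b+2))
      (exi (b+2) (conj (typF (pr (k+5)) (b+2) (b+3)) (quadF (pr 4) x b (b+1) (b+2) (b+3)))))))))

/-- the formula `DomG x` -/
noncomputable def domF (x : ℕ) : Fm := typF (pr 0) x (x+1)

variable {G : Type*} [Group G]

omit [Group G] in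
theorem upd_same (v : ℕ → G) (n : ℕ) (g : G) : Function.update v n g n = g := by simp

omit [Group G] in
theorem upd_ne (v : ℕ → G) {n m : ℕ} (g : G) (h : m ≠ n) : Function.update v n g m = v m := by
  simp [h]

theorem sat_commF (v : ℕ → G) (i j : ℕ) : Sat v (commF i j) ↔ v i * v j = v j * v i := Iff.rfl

theorem sat_cycF (v : ℕ → G) (m i b : ℕ) (hi : i < b) : Sat v (cycF m i b) ↔ Cyc m (v i) := by
  unfold cycF Cyc
  rw [sat_ex]
  apply exists_congr; intro a
  rw [sat_and, sat_commF, upd_same, upd_ne _ _ (by omega : i ≠ b)]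
  apply and_congr_right; intro _
  rw [sat_all]
  apply forall_congr'; intro c
  rw [sat_imp, sat_commF, upd_same, upd_ne _ _ (by omega : i ≠ b + 1),
    upd_ne _ _ (by omega : i ≠ b)]
  apply imp_congr_right; intro _
  rw [sat_ex]
  apply exists_congr; intro d
  rw [sat_and, sat_commF, upd_same, upd_ne _ _ (by omega : i ≠ b + 2),
    upd_ne _ _ (by omega : i ≠ b + 1), upd_ne _ _ (by omega : i ≠ b)]
  apply and_congr_right; intro _
  rw [sat_bigOr]
  apply exists_congr; intro j
  apply and_congr_right; intro _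
  rw [sat_eq, Tm.eval_mul, Tm.eval_pow, Tm.eval_pow, Tm.eval_var, Tm.eval_var, Tm.eval_var,
    upd_same, upd_ne _ _ (by omega : b + 1 ≠ b + 2), upd_same,
    upd_ne _ _ (by omega : b ≠ b + 2), upd_ne _ _ (by omega : b ≠ b + 1), upd_same]

theorem sat_typF (v : ℕ → G) (m i b : ℕ) (hi : i < b) : Sat v (typF m i b) ↔ Typ m (v i) := by
  unfold typF Typ
  rw [sat_and, sat_and, sat_neg, sat_neg, sat_cycF _ _ _ _ hi, sat_cycF _ _ _ _ hi, sat_eq]
  rfl

theorem sat_quadF (v : ℕ → G) (m x y z w b : ℕ) (hx : x < b) (hy : y < b) (hz : z < b)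
    (hw : w < b) : Sat v (quadF m x y z w b) ↔ Quad m (v x) (v y) (v z) (v w) := by
  unfold quadF Quad
  rw [sat_ex]
  apply exists_congr; intro a
  rw [sat_and, sat_commF, upd_same, upd_ne _ _ (by omega : x ≠ b)]
  apply and_congr_right; intro _
  rw [sat_ex]
  apply exists_congr; intro a2
  rw [sat_and, sat_commF, upd_same, upd_ne _ _ (by omega : y ≠ b + 1),
    upd_ne _ _ (by omega : y ≠ b)]
  apply and_congr_right; intro _
  rw [sat_ex]
  apply exists_congr; intro a3
  rw [sat_and, sat_commF, upd_same, upd_ne _ _ (by omega : z ≠ b + 2),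
    upd_ne _ _ (by omega : z ≠ b + 1), upd_ne _ _ (by omega : z ≠ b)]
  apply and_congr_right; intro _
  rw [sat_ex]
  apply exists_congr; intro a4
  rw [sat_and, sat_commF, upd_same, upd_ne _ _ (by omega : w ≠ b + 3),
    upd_ne _ _ (by omega : w ≠ b + 2), upd_ne _ _ (by omega : w ≠ b + 1),
    upd_ne _ _ (by omega : w ≠ b)]
  apply and_congr_right; intro _
  rw [sat_ex]
  constructor
  · rintro ⟨g, hg⟩
    rw [sat_and, sat_typF _ _ _ _ (by omega), upd_same, sat_eq] at hg
    obtain ⟨h1, h2⟩ := hg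
    have h3 : g = a * a2 * a3 * a4 := by
      simpa [Function.update_apply] using h1
    rw [← h3]; exact h2
  · intro h
    refine ⟨a * a2 * a3 * a4, ?_⟩
    rw [sat_and, sat_typF _ _ _ _ (by omega), upd_same, sat_eq]
    refine ⟨?_, h⟩
    simp [Function.update_apply]

theorem sat_relF (v : ℕ → G) (k x y z b : ℕ) (hx : x < b) (hy : y < b) (hz : z < b) :
    Sat v (relF k x y z b) ↔ RelG k (v x) (v y) (v z) := by
  unfold relF RelG
  rw [sat_ex]
  apply exists_congr; intro y'
  rw [sat_and, sat_and, sat_typF _ _ _ _ (by omega), sat_quadF _ _ _ _ _ _ _ (by omega) (by omega)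
    (by omega) (by omega), upd_same, upd_ne _ _ (by omega : y ≠ b)]
  apply and_congr_right; intro _
  apply and_congr_right; intro _
  rw [sat_ex]
  apply exists_congr; intro z'
  rw [sat_and, sat_and, sat_typF _ _ _ _ (by omega), sat_quadF _ _ _ _ _ _ _ (by omega) (by omega)
    (by omega) (by omega), upd_same, upd_ne _ _ (by omega : z ≠ b + 1),
    upd_ne _ _ (by omega : z ≠ b)]
  apply and_congr_right; intro _
  apply and_congr_right; intro _
  rw [sat_ex]
  apply exists_congr; intro m
  rw [sat_and, sat_typF _ _ _ _ (by omega), sat_quadF _ _ _ _ _ _ _ (by omega) (by omega)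
    (by omega) (by omega), upd_same, upd_ne _ _ (by omega : x ≠ b + 2),
    upd_ne _ _ (by omega : x ≠ b + 1), upd_ne _ _ (by omega : x ≠ b),
    upd_ne _ _ (by omega : b ≠ b + 2), upd_ne _ _ (by omega : b ≠ b + 1), upd_same,
    upd_ne _ _ (by omega : b + 1 ≠ b + 2), upd_same]

theorem sat_domF (v : ℕ → G) (x : ℕ) : Sat v (domF x) ↔ DomG (v x) :=
  sat_typF _ _ _ _ (by omega)

/-! ### Free variables -/

theorem free_commF (i j : ℕ) : free (commF i j) = {i, j} := by
  unfold commF
  ext n; simp; tauto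

theorem free_cycF {m i b n : ℕ} (h : n ∈ free (cycF m i b)) : n = i := by
  unfold cycF at h
  simp only [free_ex, free_and, free_all, free_imp, free_commF, Set.mem_sdiff, Set.mem_union,
    Set.mem_insert_iff, Set.mem_singleton_iff] at h
  obtain ⟨h1, h2⟩ := h
  rcases h1 with (h1 | h1) | h1
  · exact absurd h1 h2
  · exact h1
  · obtain ⟨(h3 | h3) | h3, h4⟩ := h1
    · exact absurd h3 h4
    · exact h3
    · obtain ⟨(h5 | h5) | h5, h6⟩ := h3
      · exact absurd h5 h6
      · exact h5
      · obtain ⟨j, _, hj⟩ := free_bigOr h5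
        simp only [free_eq, Tm.vars_var, Tm.vars_mul, Set.mem_union, Set.mem_singleton_iff] at hj
        rcases hj with hj | hj | hj
        · exact absurd hj h4
        · have := Tm.vars_pow hj
          exact absurd this h2
        · have := Tm.vars_pow hj
          exact absurd this h6

theorem free_typF {m i b n : ℕ} (h : n ∈ free (typF m i b)) : n = i := by
  unfold typF at h
  simp only [free_and, free_neg, free_eq, Tm.vars_var, Tm.vars_one, Set.union_empty,
    Set.mem_union, Set.mem_singleton_iff] at h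
  rcases h with h | h | h
  · exact h
  · exact free_cycF h
  · exact free_cycF h

theorem free_quadF {m x y z w b n : ℕ} (h : n ∈ free (quadF m x y z w b)) :
    n = x ∨ n = y ∨ n = z ∨ n = w := by
  unfold quadF at h
  simp only [free_ex, free_and, free_commF, free_eq, Tm.vars_var, Tm.vars_mul, Set.mem_sdiff,
    Set.mem_union, Set.mem_insert_iff, Set.mem_singleton_iff] at h
  have ht : n ∈ free (typF m (b+4) (b+5)) → n = b + 4 := free_typF
  obtain ⟨(h | h) | ⟨(h | h) | ⟨(h | h) | ⟨(h | h) | ⟨(h | h) | h, h4⟩, h3⟩, h2⟩, h1⟩, h0⟩ := h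
  all_goals first | omega | exact absurd (ht h) h4

theorem free_relF {k x y z b n : ℕ} (h : n ∈ free (relF k x y z b)) :
    n = x ∨ n = y ∨ n = z := by
  unfold relF at h
  simp only [free_ex, free_and, Set.mem_sdiff, Set.mem_union, Set.mem_singleton_iff] at h
  have t1 : n ∈ free (typF (pr 1) b (b+1)) → n = b := free_typF
  have t2 : n ∈ free (typF (pr 2) (b+1) (b+2)) → n = b + 1 := free_typF
  have t3 : n ∈ free (typF (pr (k+5)) (b+2) (b+3)) → n = b + 2 := free_typF
  have q1 : n ∈ free (quadF (pr 3) y b y b (b+1)) → n = y ∨ n = b ∨ n = y ∨ n = b := free_quadF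
  have q2 : n ∈ free (quadF (pr 3) z (b+1) z (b+1) (b+2)) →
    n = z ∨ n = b + 1 ∨ n = z ∨ n = b + 1 := free_quadF
  have q3 : n ∈ free (quadF (pr 4) x b (b+1) (b+2) (b+3)) →
    n = x ∨ n = b ∨ n = b + 1 ∨ n = b + 2 := free_quadF
  obtain ⟨h, hb⟩ := h
  rcases h with h | h | ⟨h | h | ⟨h | h, h2⟩, h1⟩
  · exact absurd (t1 h) hb
  · rcases q1 h with h | h | h | h
    · exact Or.inr (Or.inl h)
    · exact absurd h hb
    · exact Or.inr (Or.inl h)
    · exact absurd h hb
  · exact absurd (t2 h) h1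
  · rcases q2 h with h | h | h | h
    · exact Or.inr (Or.inr h)
    · exact absurd h h1
    · exact Or.inr (Or.inr h)
    · exact absurd h h1
  · exact absurd (t3 h) h2
  · rcases q3 h with h | h | h | h
    · exact Or.inl h
    · exact absurd h hb
    · exact absurd h h1
    · exact absurd h h2

end Macros

/-! ### Relational formulas -/

/-- Formulas of the language with ternary relations `R_k`, `k ∈ ℕ`, without equality. -/
inductive RFm : Type
  | rel (k x y z : ℕ) : RFm
  | neg (φ : RFm) : RFm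
  | conj (φ ψ : RFm) : RFm
  | all (n : ℕ) (φ : RFm) : RFm

namespace RFm

/-- satisfaction -/
def RSat {D : Type*} (R : ℕ → D → D → D → Prop) : (ℕ → D) → RFm → Prop
  | w, rel k x y z => R k (w x) (w y) (w z)
  | w, neg φ => ¬ RSat R w φ
  | w, conj φ ψ => RSat R w φ ∧ RSat R w ψ
  | w, all n φ => ∀ d : D, RSat R (Function.update w n d) φ

/-- free variables -/
def rfree : RFm → Set ℕ
  | rel _ x y z => {x, y, z}
  | neg φ => rfree φ
  | conj φ ψ => rfree φ ∪ rfree ψ
  | all n φ => rfree φ \ {n}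

/-- translation to group formulas -/
noncomputable def tr : RFm → Fm
  | rel k x y z => relF k x y z (x + y + z + 1)
  | neg φ => Fm.neg (tr φ)
  | conj φ ψ => Fm.conj (tr φ) (tr ψ)
  | all n φ => Fm.all n (Fm.imp (domF n) (tr φ))

theorem free_tr (φ : RFm) : free (tr φ) ⊆ rfree φ := by
  induction φ with
  | rel k x y z =>
    intro n hn
    have := free_relF hn
    simpa [rfree] using this
  | neg φ ih => exact ih
  | conj φ ψ ih1 ih2 => exact Set.union_subset_union ih1 ih2
  | all n φ ih =>
    intro m hm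
    simp only [tr, free_all, free_imp, Set.mem_sdiff, Set.mem_union, Set.mem_singleton_iff] at hm
    obtain ⟨h1 | h1, h2⟩ := hm
    · exact absurd (free_typF h1) h2
    · exact ⟨ih h1, h2⟩

theorem tr_sat {G : Type*} [Group G] {D : Type*} (V : G → D → Prop) (R : ℕ → D → D → D → Prop)
    (h1 : ∀ g, DomG g ↔ ∃ d, V g d) (h2 : ∀ d, ∃ g, V g d)
    (h3 : ∀ k x y z a b c, V x a → V y b → V z c → (RelG k x y z ↔ R k a b c)) :
    ∀ (φ : RFm) (v : ℕ → G) (w : ℕ → D), (∀ n ∈ rfree φ, V (v n) (w n)) →
      (Sat v (tr φ) ↔ RSat R w φ) := by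
  intro φ
  induction φ with
  | rel k x y z =>
    intro v w h
    unfold tr RSat
    rw [sat_relF _ _ _ _ _ _ (by omega) (by omega) (by omega)]
    exact h3 _ _ _ _ _ _ _ (h x (by simp [rfree])) (h y (by simp [rfree])) (h z (by simp [rfree]))
  | neg φ ih =>
    intro v w h
    unfold tr RSat
    rw [sat_neg, ih v w h]
  | conj φ ψ ih1 ih2 =>
    intro v w h
    unfold tr RSat
    rw [sat_and, ih1 v w (fun n hn => h n (Or.inl hn)), ih2 v w (fun n hn => h n (Or.inr hn))]
  | all n φ ih =>
    intro v w h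
    unfold tr RSat
    rw [sat_all]
    constructor
    · intro H d
      obtain ⟨g, hg⟩ := h2 d
      have := H g
      rw [sat_imp, sat_domF, upd_same, h1] at this
      rw [← ih (Function.update v n g) (Function.update w n d)]
      · exact this ⟨d, hg⟩
      · intro m hm
        by_cases hmn : m = n
        · subst hmn; simpa using hg
        · rw [Function.update_of_ne hmn, Function.update_of_ne hmn]
          exact h m ⟨hm, hmn⟩
    · intro H g
      rw [sat_imp, sat_domF, upd_same, h1]
      rintro ⟨d, hg⟩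
      rw [ih (Function.update v n g) (Function.update w n d)]
      · exact H d
      · intro m hm
        by_cases hmn : m = n
        · subst hmn; simpa using hg
        · rw [Function.update_of_ne hmn, Function.update_of_ne hmn]
          exact h m ⟨hm, hmn⟩

/-! derived connectives -/

/-- implication -/
def imp (φ ψ : RFm) : RFm := neg (conj φ (neg ψ))
/-- existential quantifier -/
def exi (n : ℕ) (φ : RFm) : RFm := neg (all n (neg φ))

variable {D : Type*} {R : ℕ → D → D → D → Prop} {w : ℕ → D}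

@[simp] theorem rsat_rel {k x y z : ℕ} : RSat R w (rel k x y z) ↔ R k (w x) (w y) (w z) := Iff.rfl
@[simp] theorem rsat_neg {φ : RFm} : RSat R w (neg φ) ↔ ¬ RSat R w φ := Iff.rfl
@[simp] theorem rsat_and {φ ψ : RFm} : RSat R w (conj φ ψ) ↔ RSat R w φ ∧ RSat R w ψ := Iff.rfl
@[simp] theorem rsat_all {n : ℕ} {φ : RFm} :
    RSat R w (all n φ) ↔ ∀ d : D, RSat R (Function.update w n d) φ := Iff.rfl
@[simp] theorem rsat_imp {φ ψ : RFm} : RSat R w (imp φ ψ) ↔ (RSat R w φ → RSat R w ψ) := by
  simp only [imp, rsat_neg, rsat_and]; tauto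
@[simp] theorem rsat_ex {n : ℕ} {φ : RFm} :
    RSat R w (exi n φ) ↔ ∃ d : D, RSat R (Function.update w n d) φ := by
  simp only [exi, rsat_neg, rsat_all, not_forall, not_not]

@[simp] theorem rfree_rel (k x y z : ℕ) : rfree (rel k x y z) = {x, y, z} := rfl
@[simp] theorem rfree_neg (φ : RFm) : rfree (neg φ) = rfree φ := rfl
@[simp] theorem rfree_and (φ ψ : RFm) : rfree (conj φ ψ) = rfree φ ∪ rfree ψ := rfl
@[simp] theorem rfree_all (n : ℕ) (φ : RFm) : rfree (all n φ) = rfree φ \ {n} := rfl
@[simp] theorem rfree_imp (φ ψ : RFm) : rfree (imp φ ψ) = rfree φ ∪ rfree ψ := rfl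
@[simp] theorem rfree_ex (n : ℕ) (φ : RFm) : rfree (exi n φ) = rfree φ \ {n} := rfl

end RFm

end Pool.Agent.Lib.MP_32acdc_lc
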