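import Mathlib
import Pool.Agent.Lib.MP_32acdc_lc.Horn
import Pool.Agent.Lib.MP_32acdc_lc.Translate

/-!
# Undecidability
-/

namespace Pool.Agent.Lib.MP_32acdc_lc

open Nat.Partrec Encodable RFm

/-! ### The axioms as relational sentences -/

def fZ (x : ℕ) : RFm := rel 0 x x x
def fS (x y : ℕ) : RFm := rel 1 x y y
def fL (x y : ℕ) : RFm := rel 2 x y y
def fQ (x y z : ℕ) : RFm := rel 3 x y z
def fC (c : Code) (x y : ℕ) : RFm := rel (encode c + 4) x y y

/-- universal closure over the variables `0,…,n-1` -/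
def alls : ℕ → RFm → RFm
  | 0, φ => φ
  | n + 1, φ => alls n (all n φ)

def fBasic : RFm :=
  conj (alls 1 (exi 1 (fS 0 1)))
  (conj (alls 2 (imp (fS 0 1) (fL 0 1)))
  (conj (alls 3 (imp (fL 0 1) (imp (fS 1 2) (fL 0 2))))
  (conj (alls 1 (imp (fZ 0) (fQ 0 0 0)))
  (conj (alls 5 (imp (fQ 0 1 2) (imp (fS 0 3) (imp (fL 3 1) (imp (fS 2 4) (fQ 3 1 4))))))
  (conj (alls 5 (imp (fQ 0 1 2) (imp (fS 0 1) (imp (fZ 3) (imp (fS 2 4) (fQ 1 3 4))))))
  (conj (alls 5 (imp (fQ 0 1 2) (imp (fL 1 0) (imp (fS 1 3) (imp (fS 2 4) (fQ 0 3 4))))))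
  (alls 5 (imp (fQ 0 0 1) (imp (fS 0 2) (imp (fZ 3) (imp (fS 1 4) (fQ 3 2 4))))))))))))

def fHC : Code → RFm
  | .zero => alls 2 (imp (fZ 1) (fC .zero 0 1))
  | .succ => alls 2 (imp (fS 0 1) (fC .succ 0 1))
  | .left => alls 3 (imp (fQ 0 1 2) (fC .left 2 0))
  | .right => alls 3 (imp (fQ 0 1 2) (fC .right 2 1))
  | .pair f g => conj (conj (fHC f) (fHC g))
      (alls 4 (imp (fC f 0 1) (imp (fC g 0 2) (imp (fQ 1 2 3) (fC (.pair f g) 0 3)))))
  | .comp f g => conj (conj (fHC f) (fHC g))
      (alls 3 (imp (fC g 0 1) (imp (fC f 1 2) (fC (.comp f g) 0 2))))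
  | .prec f g => conj (conj (fHC f) (fHC g))
      (conj (alls 4 (imp (fQ 0 1 2) (imp (fZ 1) (imp (fC f 0 3) (fC (.prec f g) 2 3)))))
        (alls 9 (imp (fQ 0 1 2) (imp (fC (.prec f g) 2 3) (imp (fS 1 4) (imp (fQ 0 4 5)
          (imp (fQ 1 3 6) (imp (fQ 0 6 7) (imp (fC g 7 8) (fC (.prec f g) 5 8))))))))))
  | .rfind' f => conj (fHC f)
      (conj (alls 4 (imp (fQ 0 1 2) (imp (fC f 2 3) (imp (fZ 3) (fC (.rfind' f) 2 1)))))
        (alls 8 (imp (fQ 0 1 2) (imp (fC f 2 3) (imp (fS 4 3) (imp (fS 1 5) (imp (fQ 0 5 6)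
          (imp (fC (.rfind' f) 6 7) (fC (.rfind' f) 2 7)))))))))

section

variable {D : Type*} {R : ℕ → D → D → D → Prop} {w : ℕ → D}

theorem sat_fBasic : RSat R w fBasic ↔ Basic R := by
  simp only [fBasic, alls, rsat_and, rsat_all, rsat_imp, rsat_ex, fZ, fS, fL, fQ, rsat_rel,
    Function.update_apply]
  simp
  constructor
  · rintro ⟨h1, h2, h3, h4, h5, h6, h7, h8⟩
    exact ⟨h1, h2, h3, h4, h5, h6, h7, h8⟩
  · rintro ⟨h1, h2, h3, h4, h5, h6, h7, h8⟩
    exact ⟨h1, h2, h3, h4, h5, h6, h7, h8⟩

theorem sat_fHC (c : Code) : ∀ w : ℕ → D, RSat R w (fHC c) ↔ HC R c := by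
  induction c with
  | zero =>
    intro w
    simp only [fHC, HC, alls, rsat_all, rsat_imp, fZ, fC, rsat_rel, Function.update_apply]
    simp
    rfl
  | succ =>
    intro w
    simp only [fHC, HC, alls, rsat_all, rsat_imp, fS, fC, rsat_rel, Function.update_apply]
    simp
    rfl
  | left =>
    intro w
    simp only [fHC, HC, alls, rsat_all, rsat_imp, fQ, fC, rsat_rel, Function.update_apply]
    simp
    rfl
  | right =>
    intro w
    simp only [fHC, HC, alls, rsat_all, rsat_imp, fQ, fC, rsat_rel, Function.update_apply]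
    simp
    rfl
  | pair f g ihf ihg =>
    intro w
    rw [fHC, HC, rsat_and, rsat_and, ihf, ihg]
    apply and_congr_right; intro _
    simp only [alls, rsat_all, rsat_imp, fQ, fC, rsat_rel, Function.update_apply]
    simp
    rfl
  | comp f g ihf ihg =>
    intro w
    rw [fHC, HC, rsat_and, rsat_and, ihf, ihg]
    apply and_congr_right; intro _
    simp only [alls, rsat_all, rsat_imp, fC, rsat_rel, Function.update_apply]
    simp
    rfl
  | prec f g ihf ihg =>
    intro w
    rw [fHC, HC, rsat_and, rsat_and, ihf, ihg, rsat_and]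
    apply and_congr_right; intro _
    simp only [alls, rsat_all, rsat_imp, fQ, fC, fZ, fS, rsat_rel, Function.update_apply]
    simp
    rfl
  | rfind' f ihf =>
    intro w
    rw [fHC, HC, rsat_and, ihf, rsat_and]
    apply and_congr_right; intro _
    simp only [alls, rsat_all, rsat_imp, fQ, fC, fZ, fS, rsat_rel, Function.update_apply]
    simp
    rfl

end

/-! ### The chain formulas -/

/-- the two working variables -/
def vv : Bool → ℕ
  | false => 0
  | true => 1

/-- `after n successor steps from the current variable, the code u has a value` -/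
def chain (u : Code) : ℕ → Bool → RFm
  | 0, b => exi (vv !b) (fC u (vv b) (vv !b))
  | n + 1, b => all (vv !b) (imp (fS (vv b) (vv !b)) (chain u n !b))

theorem vv_ne (b : Bool) : vv b ≠ vv (!b) := by cases b <;> simp [vv]

section

variable {D : Type*} {R : ℕ → D → D → D → Prop}

theorem sat_chain_std (u : Code) (n : ℕ) : ∀ (b : Bool) (w : ℕ → ℕ),
    RSat RN w (chain u n b) ↔ (u.eval (w (vv b) + n)).Dom := by
  induction n with
  | zero =>
    intro b w
    unfold chain
    rw [rsat_ex]
    simp only [fC, rsat_rel, Function.update_self, Function.update_of_ne (vv_ne b)]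
    rw [Part.dom_iff_mem, add_zero]
    apply exists_congr
    intro y
    exact cr_iff
  | succ n ih =>
    intro b w
    unfold chain
    rw [rsat_all]
    simp only [rsat_imp, fS, rsat_rel, ih, Function.update_self, Function.update_of_ne (vv_ne b)]
    have e : ∀ y : ℕ, RN 1 (w (vv b)) y y ↔ y = w (vv b) + 1 := fun y => Iff.rfl
    simp only [e, forall_eq]
    rw [show w (vv b) + 1 + n = w (vv b) + (n + 1) by ring]

theorem sat_chain_of (u : Code) (hB : Basic R) (hC : HC R u) (n : ℕ) : ∀ (k : ℕ) (b : Bool)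
    (w : ℕ → D) (a : ℕ → D), Zr R (a 0) → (∀ i < k, Sr R (a i) (a (i+1))) → w (vv b) = a k →
    (u.eval (k + n)).Dom → RSat R w (chain u n b) := by
  induction n with
  | zero =>
    intro k b w a hZ hS hw hd
    unfold chain
    rw [rsat_ex]
    simp only [fC, rsat_rel, Function.update_self, Function.update_of_ne (vv_ne b)]
    -- extend the chain
    choose s hs using hB.s1
    let a' : ℕ → D := fun i => if i ≤ k then a i else s^[i - k] (a k)
    have hS' : ∀ i, Sr R (a' i) (a' (i+1)) := by
      intro i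
      rcases Nat.lt_or_ge i k with h | h
      · have h1 : i ≤ k := by omega
        have h2 : i + 1 ≤ k := by omega
        simp only [a', if_pos h1, if_pos h2]
        exact hS i h
      · rcases Nat.eq_or_lt_of_le h with h1 | h1
        · subst h1
          have h2 : ¬ (k + 1 ≤ k) := by omega
          simp only [a', if_pos (le_refl k), if_neg h2]
          rw [show k + 1 - k = 1 by omega]
          exact hs _
        · have h2 : ¬ (i ≤ k) := by omega
          have h3 : ¬ (i + 1 ≤ k) := by omega
          simp only [a', if_neg h2, if_neg h3]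
          rw [show i + 1 - k = (i - k) + 1 by omega, Function.iterate_succ_apply']
          exact hs _
    have hZ' : Zr R (a' 0) := by simpa [a'] using hZ
    have hk : a' k = a k := by simp [a']
    rw [Part.dom_iff_mem, add_zero] at hd
    obtain ⟨y, hy⟩ := hd
    have := cr_complete hB hZ' hS' u hC k y hy
    rw [hk, ← hw] at this
    exact ⟨a' y, this⟩
  | succ n ih =>
    intro k b w a hZ hS hw hd
    unfold chain
    rw [rsat_all]
    intro d
    rw [rsat_imp]
    intro hd'
    simp only [fS, rsat_rel, Function.update_self, Function.update_of_ne (vv_ne b)] at hd'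
    apply ih (k + 1) (!b) _ (Function.update a (k+1) d)
    · rw [Function.update_of_ne (by omega)]; exact hZ
    · intro i hi
      rcases Nat.lt_or_ge i k with h | h
      · rw [Function.update_of_ne (by omega), Function.update_of_ne (by omega)]
        exact hS i h
      · have : i = k := by omega
        subst this
        rw [Function.update_of_ne (by omega), Function.update_self, ← hw]
        exact hd'
    · rw [Function.update_self, Function.update_self]
    · rw [show k + 1 + n = k + (n + 1) by ring]; exact hd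

end

/-- the relational sentence attached to `n` -/
def Psi (u : Code) (n : ℕ) : RFm :=
  imp (conj fBasic (fHC u)) (all 0 (imp (fZ 0) (chain u n false)))

theorem sat_Psi_std (u : Code) (n : ℕ) (w : ℕ → ℕ) :
    RSat RN w (Psi u n) ↔ (u.eval n).Dom := by
  unfold Psi
  rw [rsat_imp, rsat_and, sat_fBasic, sat_fHC, rsat_all]
  constructor
  · intro h
    have := h ⟨basic_RN, HC_RN u⟩ 0
    rw [rsat_imp, sat_chain_std] at this
    have h2 := this (by simp [fZ, RN])
    simpa [vv] using h2
  · intro h _ d
    rw [rsat_imp, sat_chain_std]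
    intro hd
    have : d = 0 := by simpa [fZ, RN] using hd
    subst this
    simpa [vv] using h

theorem sat_Psi_of {D : Type*} (R : ℕ → D → D → D → Prop) (u : Code) (n : ℕ) (w : ℕ → D)
    (h : (u.eval n).Dom) : RSat R w (Psi u n) := by
  unfold Psi
  rw [rsat_imp, rsat_and, sat_fBasic, sat_fHC, rsat_all]
  rintro ⟨hB, hC⟩ d
  rw [rsat_imp]
  intro hd
  have hz : Zr R d := by simpa [fZ, Zr] using hd
  exact sat_chain_of u hB hC n 0 false _ (fun _ => d) hz (by intro i hi; omega) (by simp [vv])
    (by simpa using h)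

/-! ### Closedness -/

theorem rfree_alls (n : ℕ) (φ : RFm) : rfree (alls n φ) = rfree φ \ {i | i < n} := by
  induction n generalizing φ with
  | zero => simp [alls]
  | succ n ih =>
    rw [alls, ih, rfree_all]
    ext i
    simp only [Set.mem_sdiff, Set.mem_singleton_iff, Set.mem_ofPred_eq]
    constructor
    · rintro ⟨⟨h1, h2⟩, h3⟩
      exact ⟨h1, by omega⟩
    · rintro ⟨h1, h2⟩
      exact ⟨⟨h1, by omega⟩, by omega⟩

theorem rfree_alls_empty {n : ℕ} {φ : RFm} (h : ∀ i ∈ rfree φ, i < n) : rfree (alls n φ) = ∅ := by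
  rw [rfree_alls, Set.eq_empty_iff_forall_notMem]
  rintro i ⟨h1, h2⟩
  exact h2 (h i h1)

theorem rfree_fBasic : rfree fBasic = ∅ := by
  unfold fBasic
  simp only [rfree_and]
  repeat rw [Set.union_empty_iff]
  refine ⟨rfree_alls_empty ?_, rfree_alls_empty ?_, rfree_alls_empty ?_, rfree_alls_empty ?_,
    rfree_alls_empty ?_, rfree_alls_empty ?_, rfree_alls_empty ?_, rfree_alls_empty ?_⟩
  all_goals (intro i hi; simp [fS, fL, fQ, fZ] at hi; omega)

theorem rfree_fHC (c : Code) : rfree (fHC c) = ∅ := by
  induction c with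
  | zero => exact rfree_alls_empty (by intro i hi; simp [fZ, fC] at hi; omega)
  | succ => exact rfree_alls_empty (by intro i hi; simp [fS, fC] at hi; omega)
  | left => exact rfree_alls_empty (by intro i hi; simp [fQ, fC] at hi; omega)
  | right => exact rfree_alls_empty (by intro i hi; simp [fQ, fC] at hi; omega)
  | pair f g ihf ihg =>
    rw [fHC, rfree_and, rfree_and, ihf, ihg, Set.union_empty, Set.empty_union]
    exact rfree_alls_empty (by intro i hi; simp [fQ, fC] at hi; omega)
  | comp f g ihf ihg =>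
    rw [fHC, rfree_and, rfree_and, ihf, ihg, Set.union_empty, Set.empty_union]
    exact rfree_alls_empty (by intro i hi; simp [fC] at hi; omega)
  | prec f g ihf ihg =>
    rw [fHC, rfree_and, rfree_and, ihf, ihg, Set.union_empty, Set.empty_union, rfree_and,
      Set.union_empty_iff]
    exact ⟨rfree_alls_empty (by intro i hi; simp [fQ, fZ, fC] at hi; omega),
      rfree_alls_empty (by intro i hi; simp [fQ, fS, fC] at hi; omega)⟩
  | rfind' f ihf =>
    rw [fHC, rfree_and, ihf, Set.empty_union, rfree_and, Set.union_empty_iff]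
    exact ⟨rfree_alls_empty (by intro i hi; simp [fQ, fZ, fC] at hi; omega),
      rfree_alls_empty (by intro i hi; simp [fQ, fS, fC] at hi; omega)⟩

theorem rfree_chain (u : Code) (n : ℕ) : ∀ b i, i ∈ rfree (chain u n b) → i = vv b := by
  induction n with
  | zero =>
    intro b i hi
    simp [chain, fC] at hi
    tauto
  | succ n ih =>
    intro b i hi
    simp only [chain, rfree_all, rfree_imp, fS, rfree_rel, Set.mem_sdiff, Set.mem_union,
      Set.mem_insert_iff, Set.mem_singleton_iff] at hi
    obtain ⟨h1, h2⟩ := hi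
    rcases h1 with h1 | h1
    · tauto
    · exact absurd (ih _ _ h1) h2

theorem rfree_Psi (u : Code) (n : ℕ) : rfree (Psi u n) = ∅ := by
  unfold Psi
  rw [rfree_imp, rfree_and, rfree_fBasic, rfree_fHC, Set.union_empty, Set.empty_union,
    Set.eq_empty_iff_forall_notMem]
  intro i hi
  simp only [rfree_all, rfree_imp, fZ, rfree_rel, Set.mem_sdiff, Set.mem_union,
    Set.mem_insert_iff, Set.mem_singleton_iff] at hi
  obtain ⟨h1, h2⟩ := hi
  rcases h1 with h1 | h1
  · tauto
  · exact h2 (rfree_chain u n false i h1)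

/-! ### The group sentences -/

/-- The group sentence attached to `n` holds in every group if the computation halts. -/
theorem sat_tr_Psi {G : Type*} [Group G] (u : Code) (n : ℕ) (h : (u.eval n).Dom) (v : ℕ → G) :
    Fm.Sat v (tr (Psi u n)) := by
  by_cases hd : ∃ g : G, DomG g
  · obtain ⟨g0, hg0⟩ := hd
    let D : Type _ := {g : G // DomG g}
    let R : ℕ → D → D → D → Prop := fun k x y z => RelG k x.1 y.1 z.1
    rw [tr_sat (D := D) (fun g d => g = d.1) R
      (fun g => ⟨fun hg => ⟨⟨g, hg⟩, rfl⟩, fun ⟨d, hd⟩ => hd ▸ d.2⟩)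
      (fun d => ⟨d.1, rfl⟩)
      (by rintro k x y z a b c rfl rfl rfl; exact Iff.rfl)
      (Psi u n) v (fun _ => ⟨g0, hg0⟩)
      (by rw [rfree_Psi]; intro i hi; exact absurd hi (Set.notMem_empty i))]
    exact sat_Psi_of _ _ _ _ h
  · have : Fm.Sat v (Fm.imp (tr (conj fBasic (fHC u)))
        (Fm.all 0 (Fm.imp (domF 0) (tr (imp (fZ 0) (chain u n false)))))) := by
      rw [Fm.sat_imp]
      intro _
      rw [Fm.sat_all]
      intro g
      rw [Fm.sat_imp, sat_domF, upd_same]
      intro hg
      exact absurd ⟨g, hg⟩ hd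
    exact this

/-- The group sentence attached to `n` fails in the group `GG (dat RN)` if the computation does
not halt. -/
theorem not_sat_tr_Psi (u : Code) (n : ℕ) (h : ¬ (u.eval n).Dom) (v : ℕ → GG (dat RN)) :
    ¬ Fm.Sat v (tr (Psi u n)) := by
  rw [tr_sat (D := ℕ) Vtx RN domG_iff exists_vtx
    (fun k x y z a b c hx hy hz => relG_iff hx hy hz) (Psi u n) v (fun _ => 0)
    (by rw [rfree_Psi]; intro i hi; exact absurd hi (Set.notMem_empty i)), sat_Psi_std]
  exact h

/-! ### Computability of the reduction -/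

/-- code of an implication -/
def cImp (a b : ℕ) : ℕ := 4 * (4 * Nat.pair a (4 * b + 1) + 2) + 1
/-- code of a universal quantification -/
def cAll (n a : ℕ) : ℕ := 4 * Nat.pair n a + 3

theorem code_imp (φ ψ : Fm) : (Fm.imp φ ψ).code = cImp φ.code ψ.code := rfl
theorem code_all (n : ℕ) (φ : Fm) : (Fm.all n φ).code = cAll n φ.code := rfl

theorem tr_imp (φ ψ : RFm) : tr (imp φ ψ) = Fm.imp (tr φ) (tr ψ) := rfl
theorem tr_all (n : ℕ) (φ : RFm) : tr (all n φ) = Fm.all n (Fm.imp (domF n) (tr φ)) := rfl

theorem cImp_primrec (a : ℕ) : Primrec (cImp a) := by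
  unfold cImp
  have h1 : Primrec (fun b : ℕ => 4 * b + 1) :=
    Primrec.nat_add.comp (Primrec.nat_mul.comp (Primrec.const 4) Primrec.id) (Primrec.const 1)
  have h2 : Primrec (fun b : ℕ => Nat.pair a (4 * b + 1)) :=
    Primrec₂.natPair.comp (Primrec.const a) h1
  have h3 : Primrec (fun b : ℕ => 4 * Nat.pair a (4 * b + 1) + 2) :=
    Primrec.nat_add.comp (Primrec.nat_mul.comp (Primrec.const 4) h2) (Primrec.const 2)
  exact Primrec.nat_add.comp (Primrec.nat_mul.comp (Primrec.const 4) h3) (Primrec.const 1)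

theorem cAll_primrec (n : ℕ) : Primrec (cAll n) := by
  unfold cAll
  exact Primrec.nat_add.comp (Primrec.nat_mul.comp (Primrec.const 4)
    (Primrec₂.natPair.comp (Primrec.const n) Primrec.id)) (Primrec.const 3)

/-- one step of the recursion -/
noncomputable def stepF (b : Bool) (z : ℕ) : ℕ :=
  cAll (vv !b) (cImp (domF (vv !b)).code (cImp (tr (fS (vv b) (vv !b))).code z))

theorem stepF_primrec (b : Bool) : Primrec (stepF b) :=
  (cAll_primrec _).comp ((cImp_primrec _).comp (cImp_primrec _))

theorem code_chain_succ (u : Code) (n : ℕ) (b : Bool) :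
    (tr (chain u (n+1) b)).code = stepF b (tr (chain u n !b)).code := by
  rw [chain, tr_all, code_all, tr_imp, code_imp, code_imp]; rfl

theorem chain_primrec (u : Code) : Primrec (fun n => (tr (chain u n false)).code) := by
  have h : ∀ n, ((tr (chain u n false)).code, (tr (chain u n true)).code) =
      (Nat.rec ((tr (chain u 0 false)).code, (tr (chain u 0 true)).code)
        (fun _ p => (stepF false p.2, stepF true p.1)) n : ℕ × ℕ) := by
    intro n
    induction n with
    | zero => rfl
    | succ n ih =>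
      rw [code_chain_succ, code_chain_succ]
      change _ = (stepF false (Nat.rec _ _ n : ℕ × ℕ).2, stepF true (Nat.rec _ _ n : ℕ × ℕ).1)
      rw [← ih]
      rfl
  have h2 : Primrec (Nat.rec ((tr (chain u 0 false)).code, (tr (chain u 0 true)).code)
        (fun _ p => (stepF false p.2, stepF true p.1)) : ℕ → ℕ × ℕ) := by
    apply Primrec.nat_rec₁
    apply Primrec.pair
    · exact (stepF_primrec false).comp (Primrec.snd.comp Primrec.snd)
    · exact (stepF_primrec true).comp (Primrec.fst.comp Primrec.snd)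
  have h3 : Primrec (fun n => ((tr (chain u n false)).code, (tr (chain u n true)).code)) :=
    h2.of_eq (fun n => (h n).symm)
  exact Primrec.fst.comp h3

theorem Psi_primrec (u : Code) : Primrec (fun n => (tr (Psi u n)).code) := by
  have : ∀ n, (tr (Psi u n)).code = cImp (tr (conj fBasic (fHC u))).code
      (cAll 0 (cImp (domF 0).code (cImp (tr (fZ 0)).code (tr (chain u n false)).code))) := by
    intro n
    rw [Psi, tr_imp, code_imp, tr_all, code_all, code_imp, tr_imp, code_imp]
  exact (((cImp_primrec _).comp ((cAll_primrec 0).comp ((cImp_primrec _).comp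
    ((cImp_primrec _).comp (chain_primrec u)))))).of_eq (fun n => (this n).symm)

/-- There is a code whose domain is not computable. -/
theorem exists_noncomputable_code : ∃ u : Code, ¬ ComputablePred fun n : ℕ => (u.eval n).Dom := by
  have hf : Partrec (fun n : ℕ => (Denumerable.ofNat Code n).eval 0) :=
    Code.eval_part.comp (Computable.ofNat Code) (Computable.const 0)
  obtain ⟨u, hu⟩ := Code.exists_code.1 (Partrec.nat_iff.1 hf)
  refine ⟨u, fun hc => ComputablePred.halting_problem 0 ?_⟩
  obtain ⟨f, hf1, hf2⟩ := ComputablePred.computable_iff.1 hc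
  rw [ComputablePred.computable_iff]
  refine ⟨fun c => f (encode c), hf1.comp Computable.encode, ?_⟩
  funext c
  have : (u.eval (encode c)).Dom = (f (encode c) : Prop) := congrFun hf2 (encode c)
  rw [← this, hu]
  simp

universe u

/-- General form: a set of sentences containing all valid ones that hold in all groups and no
sentence failing in `GG (dat RN)` is not recursive. -/
theorem undecidable_of (T : Set Fm)
    (h1 : ∀ φ : Fm, φ.free = ∅ → (∀ (G : Type u) [Group G] (v : ℕ → G), φ.Sat v) → φ ∈ T)
    (h2 : ∀ φ ∈ T, ∃ v : ℕ → GG (dat RN), φ.Sat v) :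
    ¬ ComputablePred fun n : ℕ => ∃ φ ∈ T, φ.code = n := by
  intro hT
  obtain ⟨u, hu⟩ := exists_noncomputable_code
  apply hu
  have key : ∀ n, (∃ φ ∈ T, φ.code = (tr (Psi u n)).code) ↔ (u.eval n).Dom := by
    intro n
    constructor
    · rintro ⟨φ, hφ, hc⟩
      have := Fm.code_inj _ _ hc
      subst this
      by_contra hn
      obtain ⟨v, hv⟩ := h2 _ hφ
      exact not_sat_tr_Psi u n hn v hv
    · intro h
      refine ⟨_, h1 _ ?_ (fun G _ v => sat_tr_Psi u n h v), rfl⟩
      have := free_tr (Psi u n)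
      rw [rfree_Psi] at this
      exact Set.subset_empty_iff.1 this
  obtain ⟨f, hf1, hf2⟩ := ComputablePred.computable_iff.1 hT
  rw [ComputablePred.computable_iff]
  refine ⟨fun n => f (tr (Psi u n)).code, hf1.comp (Psi_primrec u).to_comp, ?_⟩
  funext n
  have : (∃ φ ∈ T, φ.code = (tr (Psi u n)).code) = (f (tr (Psi u n)).code : Prop) :=
    congrFun hf2 _
  rw [← this]
  exact propext (key n).symm

end Pool.Agent.Lib.MP_32acdc_lc
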