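import Mathlib
import Pool.Agent.Lib.MP_32acdc_lc.Undec

/-!
# Transfer to arbitrary universes
-/

namespace Pool.Agent.Lib.MP_32acdc_lc

universe u

theorem Tm.eval_equiv {G H : Type*} [Group G] [Group H] (e : G ≃* H) (v : ℕ → G) (t : Tm) :
    t.eval (fun n => e (v n)) = e (t.eval v) := by
  induction t with
  | var n => rfl
  | one => simp [Tm.eval]
  | inv t ih => simp [Tm.eval, ih]
  | mul s t ih1 ih2 => simp [Tm.eval, ih1, ih2]

theorem Fm.sat_equiv {G H : Type*} [Group G] [Group H] (e : G ≃* H) (φ : Fm) :
    ∀ v : ℕ → G, φ.Sat v ↔ φ.Sat (fun n => e (v n)) := by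
  induction φ with
  | eq s t =>
    intro v
    rw [Fm.sat_eq, Fm.sat_eq, Tm.eval_equiv, Tm.eval_equiv]
    exact e.injective.eq_iff.symm
  | neg φ ih =>
    intro v
    rw [Fm.sat_neg, Fm.sat_neg, ih]
  | conj φ ψ ih1 ih2 =>
    intro v
    rw [Fm.sat_and, Fm.sat_and, ih1, ih2]
  | all n φ ih =>
    intro v
    rw [Fm.sat_all, Fm.sat_all]
    have key : ∀ g : G, (fun m => e (Function.update v n g m)) =
        Function.update (fun m => e (v m)) n (e g) := by
      intro g
      funext m
      by_cases h : m = n
      · subst h; simp
      · simp [h]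
    constructor
    · intro H1 h
      obtain ⟨g, rfl⟩ := e.surjective h
      have := (ih _).1 (H1 g)
      rwa [key] at this
    · intro H1 g
      rw [ih, key]
      exact H1 (e g)

/-- Every subgroup of the ultrapower, lifted to any universe, acts freely on a `Λ`-tree. -/
theorem treeFree_lift (H : Subgroup SF) : TreeFree.{u} (ULift.{u} H) := by
  have hord : IsOrderedAddMonoid (ULift.{u} SZ) :=
    { add_le_add_left := fun a b h c => by
        change a.down ≤ b.down at h
        change a.down + c.down ≤ b.down + c.down
        exact add_le_add_left h c.down }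
  let act : MulAction (ULift.{u} H) (ULift.{u} SF) :=
    { smul := fun g x => ⟨(g.down : SF) * x.down⟩
      one_smul := fun x => by
        apply ULift.ext
        change ((1 : H) : SF) * x.down = x.down
        simp
      mul_smul := fun g h x => by
        apply ULift.ext
        change ((g.down * h.down : H) : SF) * x.down = (g.down : SF) * ((h.down : SF) * x.down)
        simp [mul_assoc] }
  let d : ULift.{u} SF → ULift.{u} SF → ULift.{u} SZ := fun x y => ⟨dS x.down y.down⟩
  have hgeo : IsGeoHyp d :=
    { metric :=
        { nonneg := fun x y => isGeoHyp_dS.metric.nonneg x.down y.down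
          eq_zero_iff := fun x y => by
            have := isGeoHyp_dS.metric.eq_zero_iff x.down y.down
            constructor
            · intro h
              apply ULift.ext
              exact this.1 (congrArg ULift.down h)
            · intro h
              apply ULift.ext
              exact this.2 (congrArg ULift.down h)
          symm := fun x y => by
            apply ULift.ext
            exact isGeoHyp_dS.metric.symm x.down y.down
          triangle := fun x y z => isGeoHyp_dS.metric.triangle x.down y.down z.down }
      geo := fun x y t h0 ht => by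
        obtain ⟨z, hz1, hz2⟩ := isGeoHyp_dS.geo x.down y.down t.down h0 ht
        exact ⟨⟨z⟩, ULift.ext _ _ hz1, ULift.ext _ _ hz2⟩
      hyp := fun x y z w => isGeoHyp_dS.hyp x.down y.down z.down w.down
      par := fun x y z => by
        obtain ⟨c, hc⟩ := isGeoHyp_dS.par x.down y.down z.down
        exact ⟨⟨c⟩, ULift.ext _ _ hc⟩ }
  refine ⟨ULift.{u} SZ, inferInstance, inferInstance, hord, ULift.{u} SF, act, d, ⟨⟨1⟩⟩,
    hgeo.isLTree, ?_, ?_⟩
  · intro g x y
    apply ULift.ext
    exact dS_translate _ _ _
  · intro g hg x
    have hg' : (g.down : SF) ≠ 1 := fun h => hg (ULift.ext _ _ (Subtype.ext h))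
    constructor
    · intro h
      apply hg'
      have h' : (g.down : SF) * x.down = x.down := congrArg ULift.down h
      exact mul_eq_right.1 h'
    · intro h
      apply hg'
      have h' : (g.down : SF) * ((g.down : SF) * x.down) = x.down := congrArg ULift.down h
      rw [← mul_assoc] at h'
      exact sq_eq_one _ (mul_eq_right.1 h')

/-- The theory `ThK` is undecidable. -/
theorem not_computable_ThK : ¬ ComputablePred fun n : ℕ => ∃ φ ∈ ThK.{u}, φ.code = n := by
  apply undecidable_of
  · intro φ hφ h
    exact ⟨hφ, fun G _ _ v => h G v⟩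
  · rintro φ ⟨_, h⟩
    have h1 := h (ULift.{u} (GG (dat RN))) (treeFree_lift _) (fun _ => 1)
    rw [Fm.sat_equiv MulEquiv.ulift] at h1
    exact ⟨_, h1⟩

end Pool.Agent.Lib.MP_32acdc_lc
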